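import Pool.Agent.V5helper85.AB.Closed
import Pool.Agent.R908.RatC
import Pool.Agent.R908.MainB
import Pool.Agent.H914R2.TBlk

/-!
# Extension of the coefficients
-/

open CategoryTheory AlgebraicGeometry Function Polynomial TensorProduct

universe u v w w'

set_option linter.unusedSectionVars false

namespace Pool.Agent.V5helper85.AB

open Pool.Agent.H914 Pool.Agent.H914.VarClass Pool.Agent.H914.VarClass.Obj
  Pool.Agent.H914.WeilCohomology Pool.Agent.R908 Pool.Agent.H447 Pool.Agent.N180.Cf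
  Pool.Agent.W534 Pool.Agent.H281R3.HT

section Alg

variable {K : Type*} [Field K] {A : Type*} [Ring A] [Algebra K A] {L : Type*} [Field L]
  [Algebra K L] {tr : A →ₗ[K] K}

/-- Bilinear identities with the variables exchanged extend. -/
lemma form_base' {Z₁ Z₂ Z₃ Z₄ : Module.End K A} {c : K}
    (h : ∀ a b, tr (Z₁ a * Z₂ b) = c * tr (Z₃ b * Z₄ a)) (x y : L ⊗[K] A) :
    formBase L tr (Z₁.baseChange L x * Z₂.baseChange L y) =
      algebraMap K L c * formBase L tr (Z₃.baseChange L y * Z₄.baseChange L x) := by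
  refine tmul_induction (P := fun x => formBase L tr (Z₁.baseChange L x * Z₂.baseChange L y) =
      algebraMap K L c * formBase L tr (Z₃.baseChange L y * Z₄.baseChange L x)) ?_ ?_ ?_ x
  · rw [map_zero, map_zero, zero_mul, mul_zero, map_zero, mul_zero]
  · intro x x' hx hx'
    rw [map_add, map_add, add_mul, mul_add, map_add, map_add, hx, hx', mul_add]
  · intro l a
    refine tmul_induction (P := fun y => formBase L tr (Z₁.baseChange L (l ⊗ₜ[K] a) *
      Z₂.baseChange L y) = algebraMap K L c * formBase L tr (Z₃.baseChange L y *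
      Z₄.baseChange L (l ⊗ₜ[K] a))) ?_ ?_ ?_ y
    · rw [map_zero, map_zero, mul_zero, zero_mul, map_zero, mul_zero]
    · intro x x' hx hx'
      rw [map_add, map_add, mul_add, add_mul, map_add, map_add, hx, hx', mul_add]
    · intro l' b
      rw [LinearMap.baseChange_tmul, LinearMap.baseChange_tmul, LinearMap.baseChange_tmul,
        LinearMap.baseChange_tmul, Algebra.TensorProduct.tmul_mul_tmul,
        Algebra.TensorProduct.tmul_mul_tmul, formBase_tmul, formBase_tmul, h, map_mul]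
      ring

end Alg

variable {k : Type u} [Field k] {𝒱 : VarClass k} {ops : CycleOps 𝒱}
  {W : WeilCohomology.{u, v} ops} {X Y Z V : 𝒱.Obj} {𝒴 : Set 𝒱.Obj}
  {L : Type v} [Field L] [Algebra W.K L]

lemma up_comp (φ : W.H X →ₗ[W.K] W.H Y) (ψ : W.H Y →ₗ[W.K] W.H Z) :
    upW L (ψ ∘ₗ φ) = upW L ψ ∘ₗ upW L φ := LinearMap.baseChange_comp _ _

lemma up_mul (φ ψ : Module.End W.K (W.H X)) :
    (upW L (φ * ψ) : Module.End (baseW W L).K ((baseW W L).H X)) = upW L φ * upW L ψ :=
  LinearMap.baseChange_mul _ _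

lemma up_id : upW L (LinearMap.id : W.H X →ₗ[W.K] W.H X) = LinearMap.id :=
  LinearMap.baseChange_id

lemma up_zero : upW L (0 : W.H X →ₗ[W.K] W.H Y) = 0 := LinearMap.baseChange_zero

lemma up_add (φ ψ : W.H X →ₗ[W.K] W.H Y) : upW L (φ + ψ) = upW L φ + upW L ψ :=
  LinearMap.baseChange_add _ _

lemma up_sum {ι : Type*} (s : Finset ι) (φ : ι → (W.H X →ₗ[W.K] W.H Y)) :
    upW L (∑ i ∈ s, φ i) = ∑ i ∈ s, upW L (φ i) := by
  classical
  induction s using Finset.induction_on with
  | empty => rw [Finset.sum_empty, Finset.sum_empty, up_zero]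
  | insert a s ha ih => rw [Finset.sum_insert ha, Finset.sum_insert ha, up_add, ih]

lemma up_inj {φ ψ : W.H X →ₗ[W.K] W.H Y} (h : upW L φ = upW L ψ) : φ = ψ := by
  apply LinearMap.ext
  intro x
  have h1 := congrArg (fun F => F ((1 : L) ⊗ₜ[W.K] x)) h
  beta_reduce at h1
  rw [upW_tmul, upW_tmul] at h1
  have h1' : ((1 : L) ⊗ₜ[W.K] φ x : L ⊗[W.K] W.H Y) = (1 : L) ⊗ₜ[W.K] ψ x := h1
  have h2 : (1 : L) ⊗ₜ[W.K] (φ x - ψ x) = 0 := by
    rw [TensorProduct.tmul_sub, h1', sub_self]
  exact sub_eq_zero.1 (tmul_injective _ h2)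

lemma corr_up (z : (X.prod Y).Cycles) :
    (baseW W L).corr ((baseW W L).cl _ z) = upW L (W.corr (W.cl _ z)) :=
  corrOp_base (L := L) (W.map (fst X Y)) (W.push (snd X Y)) (W.cl _ z)

lemma qop_up {d : ℤ} {φ : W.H X →ₗ[W.K] W.H Y} (h : QOp W X Y d φ) :
    QOp (baseW W L) X Y d (upW L φ) := by
  rcases h with ⟨p, hp, z, hz, rfl⟩ | ⟨hd, rfl⟩
  · exact Or.inl ⟨p, hp, z, hz, corr_up z⟩
  · exact Or.inr ⟨hd, up_zero⟩

lemma qop_down {d : ℤ} {φ : (baseW W L).H X →ₗ[(baseW W L).K] (baseW W L).H Y}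
    (h : QOp (baseW W L) X Y d φ) : ∃ ψ, QOp W X Y d ψ ∧ upW L ψ = φ := by
  rcases h with ⟨p, hp, z, hz, rfl⟩ | ⟨hd, rfl⟩
  · exact ⟨_, QOp.gen hp hz, (corr_up z).symm⟩
  · exact ⟨0, QOp.zero d, up_zero⟩

lemma trace_up (φ : Module.End W.K (W.H X)) :
    LinearMap.trace (baseW W L).K ((baseW W L).H X) (upW L φ) =
      algebraMap W.K L (LinearMap.trace W.K (W.H X) φ) :=
  LinearMap.trace_baseChange φ L

lemma alg_rat (q : ℚ) : algebraMap W.K L (q : W.K) = (q : L) :=
  map_ratCast (algebraMap W.K L) q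

lemma homEqNum_up (h : HomEqNum W X) : HomEqNum (baseW W L) X := fun j hj z hz hnum =>
  base_cl_eq_zero.2 (h j hj z hz hnum)

lemma signStd_up (h : SignStd W X) : SignStd (baseW W L) X := by
  obtain ⟨z, hz, h1⟩ := h
  refine ⟨z, hz, ?_⟩
  intro i (x : L ⊗[W.K] W.H X) hx
  have hx' : x ∈ (W.gr X i).baseChange L := hx
  rw [corr_up]
  have key : ∀ x ∈ (W.gr X i).baseChange L,
      ((W.corr (W.cl _ z)).baseChange L : L ⊗[W.K] W.H X →ₗ[L] L ⊗[W.K] W.H X) x =
        (-1 : L) ^ i • x := by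
    intro x hx
    refine base_induction_mod (P := fun x : L ⊗[W.K] W.H X =>
      ((W.corr (W.cl _ z)).baseChange L : L ⊗[W.K] W.H X →ₗ[L] L ⊗[W.K] W.H X) x =
        (-1 : L) ^ i • x) ?_ ?_ ?_ hx
    · rw [map_zero, smul_zero]
    · intro x y h2 h3
      rw [map_add, h2, h3, smul_add]
    · intro l a ha
      rw [LinearMap.baseChange_tmul, h1 i a ha, TensorProduct.tmul_smul, ← algebraMap_smul L,
        map_pow, map_neg, map_one]
  exact key x hx'

lemma tp_up (π : W.H X →ₗ[W.K] W.H X) : ∀ m, tp (baseW W L) Y (upW L π) m = upW L (tp W Y π m)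
  | 0 => up_id.symm
  | m + 1 => by
    change extHom (baseW W L) (upW L π) (tp (baseW W L) Y (upW L π) m) =
      upW L (extHom W π (tp W Y π m))
    rw [tp_up π m, ext_upW]

lemma isFactor_up {π : Module.End W.K (W.H X)} (h : IsFactor W X π 𝒴 V) :
    IsFactor (baseW W L) X (upW L π) 𝒴 V := by
  obtain ⟨r, m, Y, d, a, b, hY, ha, hb, hab⟩ := h
  refine ⟨r, m, Y, d, fun j => upW L (a j), fun j => upW L (b j), hY, fun j => qop_up (ha j),
    fun j => qop_up (hb j), ?_⟩
  have h1 := congrArg (upW L) hab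
  rw [up_id, up_sum] at h1
  rw [← h1]
  refine Finset.sum_congr rfl fun j _ => ?_
  rw [up_comp, up_comp, tp_up]

lemma isPositivePiece_up {π θ : Module.End W.K (W.H X)} (h : IsPositivePiece W X π θ) :
    IsPositivePiece (baseW W L) X (upW L π) (upW L θ) where
  rat := qop_up h.rat
  idem := by rw [← up_mul, h.idem]
  symm := by
    have key : ∀ ε : W.K, (∀ x y, π x = x → π y = y → W.tr X (x * θ y) =
        ε * W.tr X (y * θ x)) → ∀ x y : L ⊗[W.K] W.H X,
        (π.baseChange L : L ⊗[W.K] W.H X →ₗ[L] L ⊗[W.K] W.H X) x = x →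
        (π.baseChange L : L ⊗[W.K] W.H X →ₗ[L] L ⊗[W.K] W.H X) y = y →
        formBase L (W.tr X) (x * (θ.baseChange L : L ⊗[W.K] W.H X →ₗ[L] L ⊗[W.K] W.H X) y) =
          algebraMap W.K L ε * formBase L (W.tr X)
            (y * (θ.baseChange L : L ⊗[W.K] W.H X →ₗ[L] L ⊗[W.K] W.H X) x) := by
      intro ε h1 x y hx hy
      have h2 : ∀ a b, W.tr X (π a * (θ * π) b) = ε * W.tr X (π b * (θ * π) a) := by
        intro a b
        have h3 : ∀ a, π (π a) = π a := fun a => by
          change (π * π) a = _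
          rw [h.idem]
        exact h1 _ _ (h3 a) (h3 b)
      have h3 := form_base' (L := L) (tr := W.tr X) h2 x y
      rw [LinearMap.baseChange_mul, Module.End.mul_apply, Module.End.mul_apply, hx, hy] at h3
      exact h3
    rcases h.symm with h1 | h1
    · left
      intro x y hx hy
      have h2 := key 1 (fun x y hx hy => by rw [one_mul]; exact h1 x y hx hy) x y hx hy
      rw [map_one, one_mul] at h2
      exact h2
    · right
      intro x y hx hy
      have h2 := key (-1) (fun x y hx hy => by rw [neg_one_mul]; exact h1 x y hx hy) x y hx hy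
      rw [map_neg, map_one, neg_one_mul] at h2
      exact h2
  inv := by
    obtain ⟨d, hθ, θ', hθ', h1⟩ := h.inv
    refine ⟨d, qop_up hθ, upW L θ', qop_up hθ', ?_⟩
    have key : ∀ x z : L ⊗[W.K] W.H X,
        (π.baseChange L : L ⊗[W.K] W.H X →ₗ[L] L ⊗[W.K] W.H X) x = x →
        formBase L (W.tr X) (x * (θ.baseChange L : L ⊗[W.K] W.H X →ₗ[L] L ⊗[W.K] W.H X)
          ((π.baseChange L : L ⊗[W.K] W.H X →ₗ[L] L ⊗[W.K] W.H X)
            ((θ'.baseChange L : L ⊗[W.K] W.H X →ₗ[L] L ⊗[W.K] W.H X) z))) =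
          formBase L (W.tr X) (x * z) := by
      intro x z hx
      set θ₁ : Module.End W.K (W.H X) := θ' with hθ₁
      have h2 : ∀ a b, W.tr X (π a * (θ * (π * θ₁)) b) =
          1 * W.tr X (π a * (1 : Module.End W.K (W.H X)) b) := by
        intro a b
        rw [one_mul]
        refine h1 (π a) b ?_
        change (π * π) a = _
        rw [h.idem]
      have h3 := form_base (L := L) (tr := W.tr X) h2 x z
      rw [map_one, one_mul, LinearMap.baseChange_mul, LinearMap.baseChange_mul,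
        Module.End.mul_apply, Module.End.mul_apply, hx, LinearMap.baseChange_one,
        Module.End.one_apply] at h3
      exact h3
    exact fun x z hx => key x z hx
  pos := by
    rintro φ ⟨hφ, h1, h2⟩ ψ ⟨hψ, h3, h4⟩ hne hadj
    obtain ⟨φ, hφ₀, rfl⟩ := qop_down hφ
    obtain ⟨ψ, hψ₀, rfl⟩ := qop_down hψ
    have hφ' : φ ∈ ratEnd W X π := ⟨hφ₀, up_inj (L := L) (by rw [up_mul]; exact h1),
      up_inj (L := L) (by rw [up_mul]; exact h2)⟩
    have hψ' : ψ ∈ ratEnd W X π := ⟨hψ₀, up_inj (L := L) (by rw [up_mul]; exact h3),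
      up_inj (L := L) (by rw [up_mul]; exact h4)⟩
    have hne' : φ ≠ 0 := by
      rintro rfl
      exact hne up_zero
    have hadj' : IsAdjoint W X π θ φ ψ := by
      intro x y hx hy
      have h5 := hadj ((1 : L) ⊗ₜ[W.K] x : L ⊗[W.K] W.H X) ((1 : L) ⊗ₜ[W.K] y : L ⊗[W.K] W.H X)
        (by rw [upW_tmul, hx]) (by rw [upW_tmul, hy])
      rw [upW_tmul, upW_tmul, upW_tmul, upW_tmul] at h5
      have h6 : ∀ a b : W.H X, ((1 : L) ⊗ₜ[W.K] a : L ⊗[W.K] W.H X) * ((1 : L) ⊗ₜ[W.K] b) =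
          (1 : L) ⊗ₜ[W.K] (a * b) := fun a b => by
        rw [Algebra.TensorProduct.tmul_mul_tmul, mul_one]
      have h7 : formBase L (W.tr X) ((1 : L) ⊗ₜ[W.K] (φ x * θ y)) =
          formBase L (W.tr X) ((1 : L) ⊗ₜ[W.K] (x * θ (ψ y))) := by
        rw [← h6, ← h6]
        exact h5
      rw [formBase_tmul, formBase_tmul, one_mul, one_mul] at h7
      exact (algebraMap W.K L).injective h7
    obtain ⟨q, hq, h5⟩ := h.pos φ hφ' ψ hψ' hne' hadj'
    refine ⟨q, hq, ?_⟩
    rw [← up_mul]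
    exact (trace_up (L := L) (φ * ψ)).trans ((congrArg (algebraMap W.K L) h5).trans (alg_rat q))

lemma projector_up {i : ℕ} {p : W.H V →ₗ[W.K] W.H V}
    (hp : ∀ j, ∀ a ∈ W.gr V j, p a = if j = i then a else 0) :
    upW L p = proj ((baseW W L).isInternal V) i := by
  apply gr_ext ((baseW W L).isInternal V)
  intro j (x : L ⊗[W.K] W.H V) hx
  have key : ∀ x ∈ (W.gr V j).baseChange L,
      (p.baseChange L : L ⊗[W.K] W.H V →ₗ[L] L ⊗[W.K] W.H V) x = if j = i then x else 0 := by
    intro x hx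
    refine base_induction_mod (P := fun x : L ⊗[W.K] W.H V =>
      (p.baseChange L : L ⊗[W.K] W.H V →ₗ[L] L ⊗[W.K] W.H V) x = if j = i then x else 0)
      ?_ ?_ ?_ hx
    · rw [map_zero]
      split_ifs <;> rfl
    · intro x y h2 h3
      rw [map_add, h2, h3]
      split_ifs
      · rfl
      · exact add_zero _
    · intro l a ha
      rw [LinearMap.baseChange_tmul, hp j a ha]
      split_ifs
      · rfl
      · exact TensorProduct.tmul_zero _ _
  refine Eq.trans (key x hx) ?_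
  split_ifs with h2
  · subst h2
    exact (proj_same _ hx).symm
  · exact (proj_ne _ hx h2).symm

lemma proj_qop (h : KunnethStd W V) (i : ℕ) : QOp W V V 0 (proj (W.isInternal V) i) := by
  obtain ⟨P, hP, h1⟩ := h i
  have h2 : proj (W.isInternal V) i = W.corr (W.cl _ P) := by
    apply gr_ext (W.isInternal V)
    intro j a ha
    have h3 := h1 j a ha
    rw [h3]
    split_ifs with h4
    · subst h4
      exact proj_same _ ha
    · exact proj_ne _ ha h4
  rw [h2]
  exact QOp.gen (p := V.dim) (by simp) hP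

lemma proj_qop_up (h : ∀ i, QOp W V V 0 (proj (W.isInternal V) i)) (i : ℕ) :
    QOp (baseW W L) V V 0 (proj ((baseW W L).isInternal V) i) := by
  have h1 : upW L (proj (W.isInternal V) i) = proj ((baseW W L).isInternal V) i := by
    apply projector_up
    intro j a ha
    split_ifs with h4
    · subst h4
      exact proj_same _ ha
    · exact proj_ne _ ha h4
  rw [← h1]
  exact qop_up (h i)

lemma pow_tmul (x : W.H V) (n : ℕ) (a : W.H V) :
    ((LinearMap.mulLeft L ((1 : L) ⊗ₜ[W.K] x)) ^ n) ((1 : L) ⊗ₜ[W.K] a : L ⊗[W.K] W.H V) =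
      (1 : L) ⊗ₜ[W.K] (((LinearMap.mulLeft W.K x) ^ n) a) := by
  induction n with
  | zero => rfl
  | succ n ih =>
    rw [pow_succ', pow_succ', Module.End.mul_apply, Module.End.mul_apply, ih,
      LinearMap.mulLeft_apply, LinearMap.mulLeft_apply, Algebra.TensorProduct.tmul_mul_tmul,
      mul_one]

/-- The Lefschetz standard conjecture descends. -/
lemma lefschetzB_down {E : V.Cycles} (h : LefschetzB (baseW W L) V E) : LefschetzB W V E := by
  obtain ⟨z, hz, h1⟩ := h
  refine ⟨z, hz, ?_⟩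
  intro i hi a ha h0
  have key : ∀ a b : W.H V, ((1 : L) ⊗ₜ[W.K] a : L ⊗[W.K] W.H V) = (1 : L) ⊗ₜ[W.K] b → a = b := by
    intro a b hab
    have h2 : (1 : L) ⊗ₜ[W.K] (a - b) = 0 := by
      rw [TensorProduct.tmul_sub, hab, sub_self]
    exact sub_eq_zero.1 (tmul_injective _ h2)
  have h2 := h1 i hi ((1 : L) ⊗ₜ[W.K] a : L ⊗[W.K] W.H V)
    (Submodule.tmul_mem_baseChange_of_mem _ ha) (by
      have h3 := pow_tmul (L := L) (W.cl V E) (V.dim - i + 1) a
      rw [h0, TensorProduct.tmul_zero] at h3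
      exact h3)
  rw [corr_up] at h2
  constructor
  · apply key
    rw [TensorProduct.tmul_zero]
    exact h2.1
  · intro j hj
    apply key
    have h3 := h2.2 j hj
    have h4 := pow_tmul (L := L) (W.cl V E) (j + 1) a
    have h5 := pow_tmul (L := L) (W.cl V E) j a
    have h6 : upW L (W.corr (W.cl _ z)) (((LinearMap.mulLeft L ((1 : L) ⊗ₜ[W.K] W.cl V E)) ^
        (j + 1)) ((1 : L) ⊗ₜ[W.K] a : L ⊗[W.K] W.H V)) =
        ((LinearMap.mulLeft L ((1 : L) ⊗ₜ[W.K] W.cl V E)) ^ j)
          ((1 : L) ⊗ₜ[W.K] a : L ⊗[W.K] W.H V) := h3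
    rw [h4, h5, upW_tmul] at h6
    exact h6

/-- **The Lefschetz standard conjecture for the tensor category generated by a positive piece.** -/
theorem lefB_positive (hX : SignStd W X) {π θ : Module.End W.K (W.H X)}
    (h : IsPositivePiece W X π θ) (h𝒴 : ∀ Y, IsProductOf 𝒴 Y → HomEqNum W Y)
    (hV : IsFactor W X π 𝒴 V) (hpr : ∀ i, QOp W V V 0 (proj (W.isInternal V) i))
    {E : V.Cycles} (hE : V.IsCyc 1 E) (hHL : HardLefschetz W V E) : LefschetzB W V E := by
  have : IsAlgClosed (baseW W (AlgebraicClosure W.K)).K :=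
    (inferInstance : IsAlgClosed (AlgebraicClosure W.K))
  apply lefschetzB_down (L := AlgebraicClosure W.K)
  have h1 : IsPositivePiece (baseW W (AlgebraicClosure W.K)) X _ _ := isPositivePiece_up h
  obtain ⟨f⟩ := (isFactor_up (L := AlgebraicClosure W.K) hV).fac h1.rat h1.idem
  exact lefB_closed (signStd_up hX) h1 (fun Y hY => homEqNum_up (h𝒴 Y hY)) f
    (proj_qop_up hpr) hE (base_hardLefschetz hE hHL)

end Pool.Agent.V5helper85.AB
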