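import Pool.Agent.V5helper85.AB.Wt

/-!
# Central operators, eigenspaces, duality and Galois averages: linear algebra
-/

open Polynomial Function

set_option linter.unusedSectionVars false

namespace Pool.Agent.V5helper85.AB

section Cent

variable {K : Type*} [Field K] {H : Type*} [AddCommGroup H] [Module K H]

/-- The operators in `𝓐` which are compressed by the projector `π`. -/
def cpr (𝓐 : Submodule K (Module.End K H)) (π : Module.End K H) :
    Submodule K (Module.End K H) where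
  carrier := {y | y ∈ 𝓐 ∧ π * y = y ∧ y * π = y}
  add_mem' := by
    rintro a b ⟨h1, h2, h3⟩ ⟨h4, h5, h6⟩
    exact ⟨Submodule.add_mem _ h1 h4, by rw [mul_add, h2, h5], by rw [add_mul, h3, h6]⟩
  zero_mem' := ⟨Submodule.zero_mem _, mul_zero _, zero_mul _⟩
  smul_mem' := by
    rintro c a ⟨h1, h2, h3⟩
    exact ⟨Submodule.smul_mem _ _ h1, by rw [mul_smul_comm, h2], by rw [smul_mul_assoc, h3]⟩

variable {𝓐 : Submodule K (Module.End K H)} {π : Module.End K H}

lemma mem_cpr {y : Module.End K H} : y ∈ cpr 𝓐 π ↔ y ∈ 𝓐 ∧ π * y = y ∧ y * π = y := Iff.rfl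

lemma mul_mem_cpr (hm : ∀ x ∈ 𝓐, ∀ y ∈ 𝓐, x * y ∈ 𝓐) {x y : Module.End K H}
    (hx : x ∈ cpr 𝓐 π) (hy : y ∈ cpr 𝓐 π) : x * y ∈ cpr 𝓐 π :=
  ⟨hm _ hx.1 _ hy.1, by rw [← mul_assoc, hx.2.1], by rw [mul_assoc, hy.2.2]⟩

lemma compress_mem (hm : ∀ x ∈ 𝓐, ∀ y ∈ 𝓐, x * y ∈ 𝓐) (hπ : π ∈ 𝓐) (hππ : π * π = π)
    {y : Module.End K H} (hy : y ∈ 𝓐) : π * y * π ∈ cpr 𝓐 π :=
  ⟨hm _ (hm _ hπ _ hy) _ hπ, by rw [← mul_assoc, ← mul_assoc, hππ], by rw [mul_assoc, hππ]⟩

variable [Module.Finite K H]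

/-- **The centre.** If the trace form on the algebra `π 𝓐 π` is nondegenerate and the centre of
this algebra consists of the polynomials in `e`, then the traces of the products with an operator
`D`, which acts by scalars on the graded pieces of a filtration preserved by `𝓐`, are the traces
of the products with a polynomial in `e`. -/
theorem exists_cent (hm : ∀ x ∈ 𝓐, ∀ y ∈ 𝓐, x * y ∈ 𝓐)
    {e : Module.End K H}
    (hnd : ∀ y ∈ cpr 𝓐 π, (∀ y' ∈ cpr 𝓐 π, LinearMap.trace K H (y' * y) = 0) → y = 0)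
    (hcen : ∀ y ∈ cpr 𝓐 π, (∀ y' ∈ cpr 𝓐 π, y * y' = y' * y) → ∃ f : K[X], y = aeval e f * π)
    {F : ℝ → Submodule K H} (hF : CF F) (hop : ∀ y ∈ 𝓐, ∀ t, ∀ x ∈ F t, y x ∈ F t)
    {φ : ℝ →+ ℚ} {D : Module.End K H} (hD : ActsBy F φ D) :
    ∃ f : K[X], ∀ y ∈ cpr 𝓐 π, LinearMap.trace K H (y * D) =
      LinearMap.trace K H (y * aeval e f) := by
  obtain ⟨l, a, w, ha⟩ := hF.exists_adapted
  -- commutators with `D` raise the weights
  have hcomm : ∀ y ∈ 𝓐, ∀ t, ∀ x ∈ F t, Up F t ((y * D - D * y) x) := by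
    intro y hy t x hx
    have h1 : (y * D - D * y) x = y (D x - ((φ t : ℚ) : K) • x) +
        -(D (y x) - ((φ t : ℚ) : K) • (y x)) := by
      rw [LinearMap.sub_apply, map_sub, map_smul]
      change y (D x) - D (y x) = _
      abel
    rw [h1]
    exact Up.add hF.anti (Up.map (hop y hy) (hD t x hx)) (Up.neg (hD t _ (hop y hy t x hx)))
  have htr : ∀ y ∈ 𝓐, ∀ y' ∈ 𝓐, LinearMap.trace K H (y * y' * D) =
      LinearMap.trace K H (y' * y * D) := by
    intro y hy y' hy'
    have h1 : LinearMap.trace K H (y * (y' * D - D * y')) = 0 := by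
      apply ha.trace_zero
      intro t x hx
      change Up F t (y ((y' * D - D * y') x))
      exact Up.map (hop y hy) (hcomm y' hy' t x hx)
    rw [mul_sub, map_sub, sub_eq_zero, ← mul_assoc, ← mul_assoc] at h1
    rw [h1, LinearMap.trace_mul_comm, ← mul_assoc]
  -- the operator which represents the traces
  obtain ⟨b, hb, hb1⟩ := Pool.Agent.H447.exists_rep_of_orth
    (LinearMap.mk₂ K (fun x y : Module.End K H => LinearMap.trace K H (x * y))
      (fun x x' y => by rw [add_mul, map_add]) (fun c x y => by rw [smul_mul_assoc, map_smul])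
      (fun x y y' => by rw [mul_add, map_add]) (fun c x y => by rw [mul_smul_comm, map_smul]))
    (cpr 𝓐 π) (cpr 𝓐 π) (LinearMap.trace K H ∘ₗ LinearMap.mulRight K D) (by
      intro γ hγ h0
      rw [hnd γ hγ h0, map_zero])
  have hb2 : ∀ y ∈ cpr 𝓐 π, LinearMap.trace K H (b * y) = LinearMap.trace K H (y * D) :=
    fun y hy => hb1 y hy
  have hbc : ∀ y' ∈ cpr 𝓐 π, b * y' = y' * b := by
    intro y' hy'
    have h1 : y' * b - b * y' = 0 := by
      refine hnd _ (Submodule.sub_mem _ (mul_mem_cpr hm hy' hb) (mul_mem_cpr hm hb hy')) ?_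
      intro y hy
      have h2 := hb2 _ (mul_mem_cpr hm hy hy')
      have h3 := hb2 _ (mul_mem_cpr hm hy' hy)
      rw [htr y hy.1 y' hy'.1, ← h3] at h2
      have e1 : LinearMap.trace K H (y * (y' * b)) = LinearMap.trace K H (b * (y * y')) := by
        rw [← mul_assoc, LinearMap.trace_mul_comm]
      have e2 : LinearMap.trace K H (y * (b * y')) = LinearMap.trace K H (b * (y' * y)) := by
        rw [LinearMap.trace_mul_comm, mul_assoc]
      rw [mul_sub, map_sub, e1, e2, h2, sub_self]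
    exact (sub_eq_zero.1 h1).symm
  obtain ⟨f, hf⟩ := hcen b hb hbc
  refine ⟨f, fun y hy => ?_⟩
  rw [← hb2 y hy, hf, mul_assoc, hy.2.1, LinearMap.trace_mul_comm]

end Cent

section Eigen

variable {K : Type*} [Field K] {H : Type*} [AddCommGroup H] [Module K H] {L : Type*} [Field L]
  [DecidableEq L]

/-- The projector to the eigenspace for the eigenvalue `σ r`, in the factor cut out by `π`. -/
noncomputable def pj (σ : L →+* K) (e π : Module.End K H) (R : Finset L) (r : L) :
    Module.End K H :=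
  aeval e ((Lagrange.basis R id r).map σ) * π

variable {e π : Module.End K H} {R : Finset L}

/-- The operator `e` is killed on the image of `π` by a polynomial with the simple roots `σ r`. -/
def Kills (σ : L →+* K) (e π : Module.End K H) (R : Finset L) : Prop :=
  ∀ g : K[X], (∀ r ∈ R, g.eval (σ r) = 0) → aeval e g * π = 0

lemma eval_basis (σ : L →+* K) {r s : L} (hs : s ∈ R) :
    ((Lagrange.basis R id r).map σ).eval (σ s) = if r = s then 1 else 0 := by
  rw [Polynomial.eval_map_apply]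
  split_ifs with h
  · subst h
    have h1 : (Lagrange.basis R id r).eval r = 1 :=
      Lagrange.eval_basis_self (v := id) Function.injective_id.injOn hs
    rw [h1, map_one]
  · have h1 : (Lagrange.basis R id r).eval s = 0 := Lagrange.eval_basis_of_ne (v := id) h hs
    rw [h1, map_zero]

variable {σ : L →+* K} (hk : Kills σ e π R)

include hk

lemma ev_pj {r : L} (_ : r ∈ R) (g : K[X]) :
    aeval e g * pj σ e π R r = g.eval (σ r) • pj σ e π R r := by
  have h1 := hk (g * (Lagrange.basis R id r).map σ - C (g.eval (σ r)) *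
    (Lagrange.basis R id r).map σ) (by
      intro s hs
      rw [eval_sub, eval_mul, eval_mul, eval_C, eval_basis σ hs]
      split_ifs with h
      · rw [h, sub_self]
      · rw [mul_zero, mul_zero, sub_self])
  rw [map_sub, sub_mul, sub_eq_zero, map_mul, map_mul, aeval_C, mul_assoc, mul_assoc] at h1
  rw [pj, h1, Algebra.smul_def]

lemma sum_pj (g : K[X]) : ∑ r ∈ R, g.eval (σ r) • pj σ e π R r = aeval e g * π := by
  have h1 := hk (g - ∑ r ∈ R, C (g.eval (σ r)) * (Lagrange.basis R id r).map σ) (by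
    intro s hs
    rw [eval_sub, eval_finsetSum, Finset.sum_eq_single s, eval_mul, eval_C, eval_basis σ hs,
      if_pos rfl, mul_one, sub_self]
    · intro r _ hrs
      rw [eval_mul, eval_basis σ hs, if_neg hrs, mul_zero]
    · exact fun h => absurd hs h)
  rw [map_sub, sub_mul, sub_eq_zero, map_sum, Finset.sum_mul] at h1
  rw [h1]
  refine Finset.sum_congr rfl fun r _ => ?_
  rw [map_mul, aeval_C, mul_assoc, ← Algebra.smul_def]
  rfl

lemma sum_pj_one : ∑ r ∈ R, pj σ e π R r = π := by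
  have h1 := sum_pj hk 1
  rw [map_one, one_mul] at h1
  refine Eq.trans (Finset.sum_congr rfl fun r _ => ?_) h1
  rw [eval_one, one_smul]

omit hk in
lemma pj_comm (hπe : e * π = π * e) (g : K[X]) : aeval e g * π = π * aeval e g := by
  induction g using Polynomial.induction_on' with
  | add p q hp hq => rw [map_add, add_mul, mul_add, hp, hq]
  | monomial n a =>
    have h1 : e ^ n * π = π * e ^ n := (Commute.pow_left hπe n).eq
    rw [aeval_monomial, mul_assoc, h1, ← mul_assoc, ← mul_assoc]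
    congr 1
    exact Algebra.commutes _ _

omit hk in
lemma pi_pj (hπe : e * π = π * e) (hππ : π * π = π) (r : L) :
    π * pj σ e π R r = pj σ e π R r := by
  rw [pj, pj_comm hπe, ← mul_assoc, hππ]

omit hk in
lemma pj_pi (hππ : π * π = π) (r : L) : pj σ e π R r * π = pj σ e π R r := by
  rw [pj, mul_assoc, hππ]

lemma pj_mul (hπe : e * π = π * e) (hππ : π * π = π) {r s : L} (hs : s ∈ R) :
    pj σ e π R r * pj σ e π R s = if r = s then pj σ e π R s else 0 := by
  conv_lhs => rw [pj, mul_assoc, pi_pj hπe hππ, ev_pj hk hs, eval_basis σ hs]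
  split_ifs with h
  · rw [one_smul]
  · rw [zero_smul]

lemma pj_idem (hπe : e * π = π * e) (hππ : π * π = π) {r : L} (hr : r ∈ R) :
    pj σ e π R r * pj σ e π R r = pj σ e π R r := by
  rw [pj_mul hk hπe hππ hr, if_pos rfl]

/-- The conjugates of the projectors. -/
lemma pj_conj {g : L ≃+* L} (hR : ∀ r ∈ R, g.symm r ∈ R) (r : L) :
    pj (σ.comp (g : L →+* L)) e π R r = pj σ e π R (g r) := by
  rw [pj, pj, ← sub_eq_zero, ← sub_mul, ← map_sub]
  apply hk
  intro s hs
  have h1 := eval_basis (r := r) (σ.comp (g : L →+* L)) (hR s hs)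
  have h2 : (σ.comp (g : L →+* L)) (g.symm s) = σ s := by
    rw [RingHom.comp_apply]
    congr 1
    exact g.apply_symm_apply s
  rw [h2] at h1
  rw [eval_sub, h1, eval_basis σ hs]
  have h3 : r = g.symm s ↔ g r = s := by
    constructor
    · rintro rfl
      exact g.apply_symm_apply s
    · rintro rfl
      exact (g.symm_apply_apply r).symm
  by_cases h4 : g r = s
  · rw [if_pos h4, if_pos (h3.2 h4), sub_self]
  · rw [if_neg h4, if_neg (fun h => h4 (h3.1 h)), sub_self]

end Eigen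

section Dual

variable {K : Type*} [Field K] {H : Type*} [AddCommGroup H] [Module K H] [Module.Finite K H]
  {L : Type*} [Field L] [DecidableEq L] {σ : L →+* K} {e π : Module.End K H} {R : Finset L}

/-- The eigenspaces. -/
noncomputable def ES (σ : L →+* K) (e π : Module.End K H) (R : Finset L) (r : L) :
    Submodule K H := LinearMap.range (pj σ e π R r)

lemma mem_ES (hk : Kills σ e π R) (hπe : e * π = π * e) (hππ : π * π = π) {r : L} (hr : r ∈ R)
    {x : H} : x ∈ ES σ e π R r ↔ pj σ e π R r x = x :=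
  LinearMap.IsIdempotentElem.mem_range_iff (pj_idem hk hπe hππ hr)

lemma pi_of_mem_ES (hk : Kills σ e π R) (hπe : e * π = π * e) (hππ : π * π = π) {r : L}
    (hr : r ∈ R) {x : H} (hx : x ∈ ES σ e π R r) : π x = x := by
  rw [mem_ES hk hπe hππ hr] at hx
  rw [← hx]
  change (π * pj σ e π R r) x = _
  rw [pi_pj hπe hππ]

lemma ev_of_mem_ES (hk : Kills σ e π R) (hπe : e * π = π * e) (hππ : π * π = π) {r : L}
    (hr : r ∈ R) {x : H} (hx : x ∈ ES σ e π R r) (g : K[X]) : aeval e g x = g.eval (σ r) • x := by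
  rw [mem_ES hk hπe hππ hr] at hx
  have h1 := congrArg (fun G => G x) (ev_pj hk hr g)
  beta_reduce at h1
  rw [Module.End.mul_apply, LinearMap.smul_apply, hx] at h1
  exact h1

/-- The data of a pairing on the factor cut out by `π`, compatible with the filtration, for which
the adjoint of `e` is a polynomial in `e`. -/
structure Pairing (F : ℝ → Submodule K H) (σ : L →+* K) (e π : Module.End K H) (R : Finset L)
    (q : L → L) (B : H →ₗ[K] H →ₗ[K] K) : Prop where
  adj : ∃ Q : K[X], (∀ r ∈ R, Q.eval (σ r) = σ (q r)) ∧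
    ∀ x y, π x = x → π y = y → B (e x) y = B x (aeval e Q y)
  wt : ∀ s t x y, x ∈ F s → y ∈ F t → π x = x → π y = y → B x y ≠ 0 → s + t ≤ 0
  dual : ∀ x t, π x = x → (∀ s, -t < s → ∀ y ∈ F s, π y = y → B x y = 0) → x ∈ F t

namespace Pairing

variable {F : ℝ → Submodule K H} {q : L → L} {B : H →ₗ[K] H →ₗ[K] K}
  (hB : Pairing F σ e π R q B) (hk : Kills σ e π R) (hπe : e * π = π * e) (hππ : π * π = π)

include hB hk hπe hππ in
lemma orth {r s : L} (hr : r ∈ R) (hs : s ∈ R) (hne : s ≠ q r) {x y : H}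
    (hx : x ∈ ES σ e π R s) (hy : y ∈ ES σ e π R r) : B x y = 0 := by
  obtain ⟨Q, hQ, h1⟩ := hB.adj
  have h2 := h1 x y (pi_of_mem_ES hk hπe hππ hs hx) (pi_of_mem_ES hk hπe hππ hr hy)
  have h3 := ev_of_mem_ES hk hπe hππ hs hx X
  rw [aeval_X, eval_X] at h3
  rw [h3, ev_of_mem_ES hk hπe hππ hr hy, hQ r hr, map_smul, LinearMap.smul_apply, map_smul,
    smul_eq_mul, smul_eq_mul, ← sub_eq_zero, ← sub_mul, mul_eq_zero] at h2
  rcases h2 with h2 | h2
  · exact absurd (σ.injective (sub_eq_zero.1 h2)) hne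
  · exact h2

include hk in
omit [Module.Finite K H] in
lemma sum_pj_apply {x : H} (hx : π x = x) : ∑ r ∈ R, pj σ e π R r x = x := by
  have h1 := congrArg (fun G => G x) (sum_pj_one hk)
  beta_reduce at h1
  rw [LinearMap.sum_apply] at h1
  rw [h1, hx]

include hB hk hπe hππ in
lemma right_eq (hinj : Set.InjOn q R) (hq : ∀ r ∈ R, q r ∈ R) {r : L} (hr : r ∈ R) {x y : H}
    (hx : x ∈ ES σ e π R (q r)) (hy : π y = y) : B x y = B x (pj σ e π R r y) := by
  conv_lhs => rw [← sum_pj_apply hk hy, map_sum]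
  refine Finset.sum_eq_single r ?_ (fun h => absurd hr h)
  intro s hs hsr
  refine hB.orth hk hπe hππ hs (hq r hr) ?_ hx ⟨y, rfl⟩
  intro h
  exact hsr (hinj hs hr h.symm)

include hB in
lemma left_nondeg (hF : CF F) {x : H} (hx : π x = x) (h : ∀ y, π y = y → B x y = 0) : x = 0 :=
  hF.eq_zero fun t => hB.dual x t hx fun _ _ y _ hy => h y hy

/-- The pairing of two eigenspaces. -/
noncomputable def pr (B : H →ₗ[K] H →ₗ[K] K) (U' U : Submodule K H) :
    U' →ₗ[K] Module.Dual K U := (LinearMap.lcomp K K U.subtype) ∘ₗ B ∘ₗ U'.subtype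

omit [Module.Finite K H] in
lemma pr_apply (B : H →ₗ[K] H →ₗ[K] K) {U' U : Submodule K H} (x : U') (y : U) :
    pr B U' U x y = B x y := rfl

include hB hk hπe hππ in
lemma pr_inj (hF : CF F) (hinj : Set.InjOn q R) (hq : ∀ r ∈ R, q r ∈ R) {r : L} (hr : r ∈ R) :
    Injective (pr B (ES σ e π R (q r)) (ES σ e π R r)) := by
  rw [injective_iff_map_eq_zero]
  intro x hx
  apply Subtype.ext
  apply hB.left_nondeg hF (pi_of_mem_ES hk hπe hππ (hq r hr) x.2)
  intro y hy
  rw [hB.right_eq hk hπe hππ hinj hq hr x.2 hy]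
  exact congrArg (fun G => G ⟨pj σ e π R r y, ⟨y, rfl⟩⟩) hx

omit [Module.Finite K H] in
lemma image_q (hinj : Set.InjOn q R) (hq : ∀ r ∈ R, q r ∈ R) : R.image q = R := by
  apply Finset.eq_of_subset_of_card_le
  · intro x hx
    obtain ⟨r, hr, rfl⟩ := Finset.mem_image.1 hx
    exact hq r hr
  · rw [Finset.card_image_of_injOn hinj]

include hB hk hπe hππ in
lemma finrank_eq (hF : CF F) (hinj : Set.InjOn q R) (hq : ∀ r ∈ R, q r ∈ R) {r : L}
    (hr : r ∈ R) : Module.finrank K (ES σ e π R (q r)) = Module.finrank K (ES σ e π R r) := by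
  have h1 : ∀ s ∈ R, Module.finrank K (ES σ e π R (q s)) ≤ Module.finrank K (ES σ e π R s) := by
    intro s hs
    have h2 := LinearMap.finrank_le_finrank_of_injective
      (hB.pr_inj hk hπe hππ hF hinj hq hs)
    rwa [Subspace.dual_finrank_eq] at h2
  have h2 : ∑ s ∈ R, Module.finrank K (ES σ e π R (q s)) =
      ∑ s ∈ R, Module.finrank K (ES σ e π R s) := by
    have h3 := Finset.sum_image (f := fun s => Module.finrank K (ES σ e π R s)) hinj
    rw [image_q hinj hq] at h3
    exact h3.symm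
  exact (Finset.sum_eq_sum_iff_of_le h1).1 h2 r hr

include hB hk hπe hππ in
/-- **The total weights of dual eigenspaces are opposite.** -/
theorem sum_eq_zero (hF : CF F) (hop : ∀ t, ∀ x ∈ F t, ∀ r, pj σ e π R r x ∈ F t)
    (hinj : Set.InjOn q R) (hq : ∀ r ∈ R, q r ∈ R) {r : L} (hr : r ∈ R)
    {l l' : ℕ} {a : Module.Basis (Fin l) K (ES σ e π R r)} {w : Fin l → ℝ}
    (ha : Adapted (fun t => (F t).comap (ES σ e π R r).subtype) a w)
    {a' : Module.Basis (Fin l') K (ES σ e π R (q r))} {w' : Fin l' → ℝ}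
    (ha' : Adapted (fun t => (F t).comap (ES σ e π R (q r)).subtype) a' w') :
    ∑ i, w' i + ∑ i, w i = 0 := by
  classical
  have hdim := hB.finrank_eq hk hπe hππ hF hinj hq hr
  obtain rfl : l' = l := by
    have h1 := Module.finrank_eq_card_basis a
    have h2 := Module.finrank_eq_card_basis a'
    rw [Fintype.card_fin] at h1 h2
    omega
  set f := LinearMap.linearEquivOfInjective _ (hB.pr_inj hk hπe hππ hF hinj hq hr)
    (by rw [Subspace.dual_finrank_eq]; exact hdim) with hf
  have hfa : ∀ x y, f x y = B x y := fun x y => rfl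
  apply le_antisymm
  · obtain ⟨ρ, hρ⟩ := exists_perm a' a.dualBasis f
    have h1 : ∀ i, w' i + w (ρ i) ≤ 0 := by
      intro i
      have h2 := hρ i
      rw [Module.Basis.coord_apply, Module.Basis.dualBasis_repr, hfa] at h2
      exact hB.wt _ _ _ _ (ha'.mem i) (ha.mem (ρ i)) (pi_of_mem_ES hk hπe hππ (hq r hr) (a' i).2)
        (pi_of_mem_ES hk hπe hππ hr (a (ρ i)).2) h2
    rw [← Equiv.sum_comp ρ w, ← Finset.sum_add_distrib]
    exact Finset.sum_nonpos fun i _ => h1 i
  · have h1 := ha'.sum_le (a.dualBasis.map f.symm) (c := fun j => - w j) (by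
      intro j
      rw [Module.Basis.map_apply]
      change ((f.symm (a.dualBasis j) : ES σ e π R (q r)) : H) ∈ F (- w j)
      set y := f.symm (a.dualBasis j) with hy
      have hy1 : ∀ z : ES σ e π R r, B (y : H) (z : H) = a.coord j z := by
        intro z
        rw [← hfa, hy, LinearEquiv.apply_symm_apply]
        rw [← Module.Basis.coe_dualBasis]
      apply hB.dual _ _ (pi_of_mem_ES hk hπe hππ (hq r hr) y.2)
      intro s hs z hz hπz
      rw [hB.right_eq hk hπe hππ hinj hq hr y.2 hπz]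
      have h2 := hy1 ⟨pj σ e π R r z, ⟨z, rfl⟩⟩
      rw [h2]
      by_contra hne
      have h3 := ha.coord s ⟨pj σ e π R r z, ⟨z, rfl⟩⟩ (hop s z hz r) j hne
      rw [neg_neg] at hs
      linarith)
    rw [Finset.sum_neg_distrib] at h1
    linarith

end Pairing

end Dual

section Gal

variable {K : Type*} [Field K] [CharZero K] {L : Type*} [Field L] [DecidableEq L] [Algebra ℚ L]
  [FiniteDimensional ℚ L]

/-- **Galois averages.** -/
theorem avg_zero (σ : L →+* K) {R : Finset L} {q : L → L} (hinj : Set.InjOn q R)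
    (hq : ∀ r ∈ R, q r ∈ R) {c : L → ℚ} {ρ : L → L}
    (hρ : ∀ g : L ≃ₐ[ℚ] L, ∀ r ∈ R, ρ (g r) = g (ρ r))
    (hqg : ∀ r ∈ R, ∃ g : L ≃ₐ[ℚ] L, g r = q r) (hc : ∀ r ∈ R, c (q r) = - c r) {s : ℚ}
    (hs : ∑ r ∈ R, ((c r : ℚ) : K) * σ (ρ r) = (s : K)) : s = 0 := by
  classical
  have : CharZero L := algebraRat.charZero L
  set x : L := ∑ r ∈ R, (c r : L) * ρ r with hx
  have h1 : x = (s : L) := by
    apply σ.injective
    rw [hx, map_sum, map_ratCast, ← hs]
    refine Finset.sum_congr rfl fun r _ => ?_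
    rw [map_mul, map_ratCast]
  set Cr : L → L := fun r => ∑ g : L ≃ₐ[ℚ] L, ρ (g r) with hCr
  have h2 : ∀ g : L ≃ₐ[ℚ] L, x = ∑ r ∈ R, (c r : L) * ρ (g r) := by
    intro g
    have h3 : g x = x := by rw [h1, map_ratCast]
    conv_lhs => rw [← h3, hx, map_sum]
    refine Finset.sum_congr rfl fun r hr => ?_
    rw [map_mul, map_ratCast, hρ g r hr]
  have h3 : (Fintype.card (L ≃ₐ[ℚ] L) : L) * x = ∑ r ∈ R, (c r : L) * Cr r := by
    rw [← nsmul_eq_mul, ← Finset.card_univ, ← Finset.sum_const,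
      Finset.sum_congr rfl (fun g _ => h2 g), Finset.sum_comm]
    refine Finset.sum_congr rfl fun r _ => ?_
    rw [hCr, Finset.mul_sum]
  have h4 : ∀ (h : L ≃ₐ[ℚ] L) r, Cr (h r) = Cr r := by
    intro h r
    rw [hCr]
    exact Equiv.sum_comp (Equiv.mulRight h) (fun g : L ≃ₐ[ℚ] L => ρ (g r))
  have h5 : ∑ r ∈ R, (c r : L) * Cr r = - ∑ r ∈ R, (c r : L) * Cr r := by
    have h6 : ∑ r ∈ R, (c r : L) * Cr r = ∑ r ∈ R, (c (q r) : L) * Cr (q r) := by
      conv_lhs => rw [← Pairing.image_q hinj hq]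
      exact Finset.sum_image hinj
    conv_lhs => rw [h6]
    rw [← Finset.sum_neg_distrib]
    refine Finset.sum_congr rfl fun r hr => ?_
    obtain ⟨g, hg⟩ := hqg r hr
    have h7 : Cr (q r) = Cr r := by rw [← hg]; exact h4 g r
    rw [hc r hr, h7, Rat.cast_neg, neg_mul]
  have h6 : (Fintype.card (L ≃ₐ[ℚ] L) : L) * x = 0 := by
    rw [h3]
    have h7 : (2 : L) * ∑ r ∈ R, (c r : L) * Cr r = 0 := by
      rw [two_mul]
      conv_lhs => rw [h5]
      rw [← two_mul]
      conv_lhs => rw [← h5]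
      rw [two_mul]
      nth_rewrite 1 [h5]
      rw [neg_add_cancel]
    exact (mul_eq_zero.1 h7).resolve_left two_ne_zero
  have h7 : x = 0 := by
    rcases mul_eq_zero.1 h6 with h | h
    · exact absurd (Nat.cast_eq_zero.1 h) Fintype.card_ne_zero
    · exact h
  rw [h7] at h1
  exact (Rat.cast_eq_zero.1 h1.symm)

end Gal

end Pool.Agent.V5helper85.AB
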