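import Pool.Agent.V5helper85.AB.Ptr
import Pool.Agent.W534.QOp
import Pool.Agent.R908.ConjDefs
import Pool.Agent.R908.AbDefs

/-!
# Positive pieces of the cohomology, and their tensor categories: definitions
-/

open CategoryTheory AlgebraicGeometry

universe u v

namespace Pool.Agent.V5helper85.AB

open Pool.Agent.H914 Pool.Agent.H914.VarClass Pool.Agent.H914.VarClass.Obj
  Pool.Agent.H914.WeilCohomology Pool.Agent.R908 Pool.Agent.W534

variable {k : Type u} [Field k] {𝒱 : VarClass k} {ops : CycleOps 𝒱}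

/-- There is a cycle with rational coefficients on `X × X` which acts on `H^i(X)` as the
multiplication by `(-1) ^ i`, for all `i`. -/
def SignStd (W : WeilCohomology.{u, v} ops) (X : 𝒱.Obj) : Prop :=
  ∃ z, (X.prod X).IsCyc X.dim z ∧
    ∀ i, ∀ a ∈ W.gr X i, W.corr (W.cl (X.prod X) z) a = (-1 : W.K) ^ i • a

/-- The rational endomorphisms of the piece of `H(X)` cut out by the projector `π`: the operators
`φ` of degree `0` given by cycles with rational coefficients on `X × X` such that
`π φ = φ = φ π`. -/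
def ratEnd (W : WeilCohomology.{u, v} ops) (X : 𝒱.Obj) (π : Module.End W.K (W.H X)) :
    Set (Module.End W.K (W.H X)) :=
  {φ | QOp W X X 0 φ ∧ π * φ = φ ∧ φ * π = φ}

/-- The operator `ψ` is the adjoint of `φ` for the pairing `tr (x · θ y)` on the image of `π`. -/
def IsAdjoint (W : WeilCohomology.{u, v} ops) (X : 𝒱.Obj) (π θ φ ψ : Module.End W.K (W.H X)) :
    Prop :=
  ∀ x y, π x = x → π y = y → W.tr X (φ x * θ y) = W.tr X (x * θ (ψ y))

/-- **Positive pieces.** The operator `π` is a projector given by a cycle with rational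
coefficients, the operator `θ` is given by a cycle with rational coefficients, and on the image
`T` of `π`
* the pairing `tr (x · θ y)` is symmetric or alternating;
* this pairing has an inverse given by a cycle with rational coefficients: there is an operator
  `θ'` of the opposite degree such that `tr (x · θ π θ' z) = tr (x · z)` for all `x` in `T` and all
  `z` in `H(X)`;
* the involution given by the adjoints is positive on the rational endomorphisms of `T`: if `φ` is
  not zero and `ψ` is its adjoint, then the trace of `φ ψ` is a positive rational number. -/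
structure IsPositivePiece (W : WeilCohomology.{u, v} ops) (X : 𝒱.Obj)
    (π θ : Module.End W.K (W.H X)) : Prop where
  rat : QOp W X X 0 π
  idem : π * π = π
  symm : (∀ x y, π x = x → π y = y → W.tr X (x * θ y) = W.tr X (y * θ x)) ∨
    (∀ x y, π x = x → π y = y → W.tr X (x * θ y) = -W.tr X (y * θ x))
  inv : ∃ d : ℤ, QOp W X X d θ ∧ ∃ θ', QOp W X X (-d) θ' ∧
    ∀ x z, π x = x → W.tr X (x * θ (π (θ' z))) = W.tr X (x * z)
  pos : ∀ φ ∈ ratEnd W X π, ∀ ψ ∈ ratEnd W X π, φ ≠ 0 → IsAdjoint W X π θ φ ψ →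
    ∃ q : ℚ, 0 < q ∧ LinearMap.trace W.K (W.H X) (φ * ψ) = (q : W.K)

/-- The cohomology of `V` is a direct factor of a finite sum of (shifted) pieces
`T ⊗ ⋯ ⊗ T ⊗ H(Y)` of the `H(X ^ m × Y)`, where `T` is the image of the projector `π` of `H(X)`
and `Y` is a product of members of `𝒴`: there are operators `a j` from `H(V)` to
`H(X ^ (m j) × Y j)` of degree `d j` and `b j` in the other direction of degree `- d j`, given by
cycles with rational coefficients, such that the sum of the `b j ∘ (π ⊗ ⋯ ⊗ π ⊗ 1) ∘ a j` is the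
identity of `H(V)`. -/
def IsFactor (W : WeilCohomology.{u, v} ops) (X : 𝒱.Obj) (π : Module.End W.K (W.H X))
    (𝒴 : Set 𝒱.Obj) (V : 𝒱.Obj) : Prop :=
  ∃ (r : ℕ) (m : Fin r → ℕ) (Y : Fin r → 𝒱.Obj) (d : Fin r → ℤ)
    (a : ∀ j, W.H V →ₗ[W.K] W.H (pX X (Y j) (m j)))
    (b : ∀ j, W.H (pX X (Y j) (m j)) →ₗ[W.K] W.H V),
    (∀ j, IsProductOf 𝒴 (Y j)) ∧ (∀ j, QOp W V (pX X (Y j) (m j)) (d j) (a j)) ∧
      (∀ j, QOp W (pX X (Y j) (m j)) V (-d j) (b j)) ∧
      ∑ j, b j ∘ₗ tp W (Y j) π (m j) ∘ₗ a j = LinearMap.id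

end Pool.Agent.V5helper85.AB
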