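import Pool.Agent.V5helper85.AB.Pos

/-!
# The centre of an algebra of operators with a positive involution
-/

open Polynomial Function

set_option linter.unusedSectionVars false

namespace Pool.Agent.V5helper85.AB

universe v₁ v₂ v₃

variable {K : Type v₁} [Field K] [CharZero K] {H : Type v₂} [AddCommGroup H] [Module K H]

lemma kills_of_poly {L : Type v₃} [Field L] [Algebra ℚ L] [DecidableEq L] (σ : L →+* K)
    {e π : Module.End K H} {P : ℚ[X]} (hP : Squarefree P)
    (hs : (P.map (algebraMap ℚ L)).Splits)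
    (h0 : aeval e (P.map (algebraMap ℚ K)) * π = 0) :
    Kills σ e π (P.map (algebraMap ℚ L)).roots.toFinset := by
  have hP0 : P ≠ 0 := hP.ne_zero
  have hsep : P.Separable := PerfectField.separable_iff_squarefree.2 hP
  set PL := P.map (algebraMap ℚ L) with hPL
  have hPL0 : PL ≠ 0 := (Polynomial.map_ne_zero_iff (algebraMap ℚ L).injective).2 hP0
  have hnd : PL.roots.Nodup := nodup_roots hsep.map
  have h1 := hs.eq_prod_roots
  have h2 : P.map (algebraMap ℚ K) = C (σ PL.leadingCoeff) *
      ∏ r ∈ PL.roots.toFinset, (X - C (σ r)) := by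
    have h3 : PL.map σ = P.map (algebraMap ℚ K) := by
      rw [hPL, Polynomial.map_map]
      congr 1
      exact RingHom.ext_rat _ _
    rw [← h3]
    conv_lhs => rw [h1]
    rw [Polynomial.map_mul, map_C]
    congr 1
    rw [Finset.prod, Multiset.toFinset_val, hnd.dedup, Polynomial.map_multiset_prod,
      Multiset.map_map]
    congr 1
    apply Multiset.map_congr rfl
    intro r _
    rw [Function.comp_apply, Polynomial.map_sub, map_X, map_C]
  intro g hg
  have h3 : ∏ r ∈ PL.roots.toFinset, (X - C (σ r)) ∣ g := by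
    apply Finset.prod_dvd_of_coprime
    · intro r _ s _ hrs
      exact pairwise_coprime_X_sub_C σ.injective hrs
    · intro r hr
      exact dvd_iff_isRoot.2 (hg r hr)
  obtain ⟨h, rfl⟩ := h3
  have h4 : aeval e (∏ r ∈ PL.roots.toFinset, (X - C (σ r))) * π = 0 := by
    rw [h2, map_mul, aeval_C, mul_assoc, ← Algebra.smul_def] at h0
    refine (smul_eq_zero.1 h0).resolve_left ?_
    exact (_root_.map_ne_zero σ).2 (leadingCoeff_ne_zero.2 hPL0)
  rw [mul_comm, map_mul, mul_assoc, h4, mul_zero]

/-- The set `R` is the set of the eigenvalues of `e` on the image of `π`, and `e` is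
diagonalizable there. -/
def IsSpec [DecidableEq K] (e π : Module.End K H) (R : Finset K) : Prop :=
  Kills (RingHom.id K) e π R ∧ ∀ r ∈ R, pj (RingHom.id K) e π R r ≠ 0

variable [DecidableEq K] {e π : Module.End K H}

open Classical in
lemma spec_filter {R : Finset K} (hk : Kills (RingHom.id K) e π R) :
    IsSpec e π (R.filter fun r => pj (RingHom.id K) e π R r ≠ 0) := by
  have h1 : ∀ g : K[X], aeval e g * π =
      ∑ r ∈ R.filter (fun r => pj (RingHom.id K) e π R r ≠ 0),
        g.eval r • pj (RingHom.id K) e π R r := by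
    intro g
    rw [← sum_pj hk g, Finset.sum_filter]
    refine Finset.sum_congr rfl fun r _ => ?_
    split_ifs with h2
    · rfl
    · rw [not_not.1 h2, smul_zero]
  refine ⟨fun g hg => ?_, fun r hr => ?_⟩
  · rw [h1 g]
    refine Finset.sum_eq_zero fun r hr => ?_
    have h2 : g.eval r = 0 := hg r hr
    rw [h2, zero_smul]
  · have h2 : pj (RingHom.id K) e π (R.filter fun r => pj (RingHom.id K) e π R r ≠ 0) r =
        pj (RingHom.id K) e π R r := by
      rw [pj, h1, Finset.sum_eq_single r]
      · have h3 := eval_basis (r := r) (RingHom.id K) hr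
        rw [if_pos rfl] at h3
        have h4 : ((Lagrange.basis (R.filter fun r => pj (RingHom.id K) e π R r ≠ 0) id r).map
            (RingHom.id K)).eval r = 1 := h3
        rw [h4, one_smul]
      · intro s hs hsr
        have h3 := eval_basis (r := r) (RingHom.id K) hs
        rw [if_neg hsr.symm] at h3
        have h4 : ((Lagrange.basis (R.filter fun r => pj (RingHom.id K) e π R r ≠ 0) id r).map
            (RingHom.id K)).eval s = 0 := h3
        rw [h4, zero_smul]
      · exact fun h => absurd hr h
    rw [h2]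
    exact (Finset.mem_filter.1 hr).2

lemma spec_card [Module.Finite K H] {R : Finset K} (h : IsSpec e π R) (hπe : e * π = π * e)
    (hππ : π * π = π) : R.card ≤ Module.finrank K (Module.End K H) := by
  have h1 : LinearIndependent K (fun r : R => pj (RingHom.id K) e π R (r : K)) := by
    rw [Fintype.linearIndependent_iff]
    intro c hc r
    have h2 := congrArg (fun x => x * pj (RingHom.id K) e π R (r : K)) hc
    beta_reduce at h2
    rw [Finset.sum_mul, zero_mul, Finset.sum_eq_single r, smul_mul_assoc,
      pj_idem h.1 hπe hππ r.2] at h2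
    · exact (smul_eq_zero.1 h2).resolve_right (h.2 r r.2)
    · intro s _ hsr
      rw [smul_mul_assoc, pj_mul h.1 hπe hππ r.2, if_neg (fun h3 => hsr (Subtype.ext h3)),
        smul_zero]
    · exact fun h3 => absurd (Finset.mem_univ r) h3
  have h2 := h1.fintype_card_le_finrank
  rwa [Fintype.card_coe] at h2

/-- Polynomials in an operator, on its eigenspaces. -/
lemma aeval_eig {u x : Module.End K H} {c : K} (h : u * x = c • x) (g : K[X]) :
    aeval u g * x = g.eval c • x := by
  induction g using Polynomial.induction_on' with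
  | add p q hp hq => rw [map_add, add_mul, hp, hq, eval_add, add_smul]
  | monomial n a =>
    have h1 : u ^ n * x = c ^ n • x := by
      induction n with
      | zero => rw [pow_zero, pow_zero, one_mul, one_smul]
      | succ n ih => rw [pow_succ', mul_assoc, ih, mul_smul_comm, h, smul_smul, pow_succ]
    rw [aeval_monomial, mul_assoc, h1, eval_monomial, ← Algebra.smul_def, smul_smul]

/-- A rational number which separates finitely many pairs. -/
lemma exists_sep (S : Finset (K × K)) : ∃ lam : ℚ, Set.InjOn (fun x : K × K =>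
    x.1 + (lam : K) * x.2) S := by
  set bad : Finset K := (S ×ˢ S).image fun p => (p.2.1 - p.1.1) / (p.1.2 - p.2.2) with hbad
  have hinf : (Set.range ((↑) : ℚ → K)).Infinite := Set.infinite_range_of_injective
    Rat.cast_injective
  obtain ⟨_, ⟨lam, rfl⟩, h1⟩ := hinf.exists_notMem_finset bad
  refine ⟨lam, ?_⟩
  rintro ⟨a, b⟩ hx ⟨a', b'⟩ hy hxy
  change a + (lam : K) * b = a' + (lam : K) * b' at hxy
  by_cases hb : b = b'
  · subst hb
    rw [add_left_inj] at hxy
    rw [hxy]
  · exfalso
    apply h1
    rw [hbad, Finset.mem_image]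
    refine ⟨((a, b), (a', b')), Finset.mem_product.2 ⟨hx, hy⟩, ?_⟩
    have hb' : b - b' ≠ 0 := sub_ne_zero.2 hb
    rw [div_eq_iff hb']
    linear_combination -hxy

namespace PosAlg

variable {E : Module.End K H → Prop} {B : H →ₗ[K] H →ₗ[K] K} (hE : PosAlg E π B)
  [Module.Finite K H] [IsAlgClosed K]

include hE

lemma exists_spec {z : Module.End K H} (hz : E z) (hc : ∀ χ, E χ → z * χ = χ * z) :
    ∃ R, IsSpec z π R := by
  obtain ⟨P, hP, h1⟩ := hE.exists_minimal hz hc
  exact ⟨_, spec_filter (kills_of_poly (RingHom.id K) hP (IsAlgClosed.splits _)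
    ((h1 P).2 dvd_rfl))⟩

/-- The central elements are polynomials in an element with the largest number of eigenvalues. -/
lemma poly_of_max {e : Module.End K H} {R : Finset K} (he : E e)
    (hec : ∀ χ, E χ → e * χ = χ * e) (hR : IsSpec e π R)
    (hmax : ∀ u, E u → (∀ χ, E χ → u * χ = χ * u) → ∀ R', IsSpec u π R' → R'.card ≤ R.card)
    {z : Module.End K H} (hz : E z) (hc : ∀ χ, E χ → z * χ = χ * z) :
    ∃ g : K[X], z = aeval e g * π := by
  classical
  obtain ⟨R', hR'⟩ := hE.exists_spec hz hc
  set i := RingHom.id K with hi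
  set p : K → Module.End K H := pj i e π R with hp
  set r : K → Module.End K H := pj i z π R' with hr
  have hππ := hE.idem
  have hπe := hE.comm_pi he
  have hπz := hE.comm_pi hz
  have hez : e * z = z * e := hec z hz
  have hcomm : ∀ g g' : K[X], aeval e g * aeval z g' = aeval z g' * aeval e g := by
    intro g g'
    have h1 : Commute e z := hez
    have h2 : ∀ g : K[X], Commute (aeval e g) z := by
      intro g
      induction g using Polynomial.induction_on' with
      | add p q hp hq => rw [map_add]; exact hp.add_left hq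
      | monomial n a =>
        rw [aeval_monomial]
        exact (Algebra.commute_algebraMap_left a z).mul_left (h1.pow_left n)
    induction g' using Polynomial.induction_on' with
    | add p q hp hq => rw [map_add, mul_add, add_mul, hp, hq]
    | monomial n a =>
      rw [aeval_monomial]
      exact ((Algebra.commute_algebraMap_right a (aeval e g)).mul_right ((h2 g).pow_right n)).eq
  have hpr : ∀ a b, p a * r b = r b * p a := by
    intro a b
    rw [hp, hr, pj, pj, mul_assoc, ← mul_assoc π, ← pj_comm hπz, mul_assoc, hππ, mul_assoc,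
      ← mul_assoc π, ← pj_comm hπe, mul_assoc, hππ, ← mul_assoc, ← mul_assoc, hcomm]
  have hep : ∀ a ∈ R, e * p a = a • p a := by
    intro a ha
    have h1 := ev_pj hR.1 ha X
    rw [aeval_X, eval_X] at h1
    exact h1
  have hzr : ∀ b ∈ R', z * r b = b • r b := by
    intro b hb
    have h1 := ev_pj hR'.1 hb X
    rw [aeval_X, eval_X] at h1
    exact h1
  have hsp : ∑ a ∈ R, p a = π := sum_pj_one hR.1
  have hsr : ∑ b ∈ R', r b = π := sum_pj_one hR'.1
  have hpπ : ∀ a, p a * π = p a := fun a => pj_pi hππ a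
  set S := (R ×ˢ R').filter fun x => p x.1 * r x.2 ≠ 0 with hS
  have hS1 : ∀ x ∈ S, x.1 ∈ R ∧ x.2 ∈ R' ∧ p x.1 * r x.2 ≠ 0 := by
    intro x hx
    rw [hS, Finset.mem_filter, Finset.mem_product] at hx
    exact ⟨hx.1.1, hx.1.2, hx.2⟩
  have hSπ : π = ∑ x ∈ S, p x.1 * r x.2 := by
    rw [hS, Finset.sum_filter_ne_zero, Finset.sum_product]
    have h1 : ∀ a ∈ R, ∑ b ∈ R', p a * r b = p a := by
      intro a _
      rw [← Finset.mul_sum, hsr, hpπ]
    rw [Finset.sum_congr rfl h1, hsp]
  obtain ⟨lam, hlam⟩ := exists_sep S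
  set f : K × K → K := fun x => x.1 + (lam : K) * x.2 with hf
  set u := e + (lam : K) • z with hu
  have huE : E u := hE.add _ _ he (hE.smul _ _ hz)
  have huc : ∀ χ, E χ → u * χ = χ * u := by
    intro χ hχ
    rw [hu, add_mul, mul_add, hec χ hχ, smul_mul_assoc, mul_smul_comm, hc χ hχ]
  have hux : ∀ x ∈ S, u * (p x.1 * r x.2) = f x • (p x.1 * r x.2) := by
    intro x hx
    obtain ⟨h1, h2, -⟩ := hS1 x hx
    rw [hu, add_mul, ← mul_assoc, hep _ h1, smul_mul_assoc, smul_mul_assoc, hpr, ← mul_assoc,
      hzr _ h2, smul_mul_assoc, smul_smul, ← add_smul]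
  have hug : ∀ g : K[X], aeval u g * π = ∑ x ∈ S, g.eval (f x) • (p x.1 * r x.2) := by
    intro g
    conv_lhs => rw [hSπ]
    rw [Finset.mul_sum]
    exact Finset.sum_congr rfl fun x hx => aeval_eig (hux x hx) g
  have hSspec : IsSpec u π (S.image f) := by
    refine ⟨fun g hg => ?_, fun c hcS => ?_⟩
    · rw [hug]
      refine Finset.sum_eq_zero fun x hx => ?_
      have h1 : g.eval (f x) = 0 := hg (f x) (Finset.mem_image_of_mem f hx)
      rw [h1, zero_smul]
    · obtain ⟨x, hx, rfl⟩ := Finset.mem_image.1 hcS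
      have h1 : pj (RingHom.id K) u π (S.image f) (f x) = p x.1 * r x.2 := by
        rw [pj, hug, Finset.sum_eq_single x]
        · have h3 := eval_basis (r := f x) (RingHom.id K) hcS
          rw [if_pos rfl] at h3
          have h4 : ((Lagrange.basis (S.image f) id (f x)).map (RingHom.id K)).eval (f x) = 1 :=
            h3
          rw [h4, one_smul]
        · intro y hy hyx
          have h3 := eval_basis (r := f x) (RingHom.id K) (Finset.mem_image_of_mem f hy)
          rw [if_neg (fun h5 => hyx (hlam hy hx h5.symm))] at h3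
          have h4 : ((Lagrange.basis (S.image f) id (f x)).map (RingHom.id K)).eval (f y) = 0 :=
            h3
          rw [h4, zero_smul]
        · exact fun h => absurd hx h
      rw [h1]
      exact (hS1 x hx).2.2
  have hcard : S.card ≤ R.card := by
    have h1 := hmax u huE huc _ hSspec
    rwa [Finset.card_image_of_injOn hlam] at h1
  have hsurj : ∀ a ∈ R, ∃ b, (a, b) ∈ S := by
    intro a ha
    by_contra hcon
    push Not at hcon
    apply hR.2 a ha
    change p a = 0
    rw [← hpπ a, ← hsr, Finset.mul_sum]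
    refine Finset.sum_eq_zero fun b hb => ?_
    by_contra hne
    exact hcon b (Finset.mem_filter.2 ⟨Finset.mem_product.2 ⟨ha, hb⟩, hne⟩)
  have hfst : Set.InjOn (Prod.fst : K × K → K) S := by
    refine Finset.injOn_of_surjOn_of_card_le (t := R) Prod.fst ?_ ?_ hcard
    · intro x hx
      exact (hS1 x hx).1
    · intro a ha
      obtain ⟨b, hb⟩ := hsurj a ha
      exact ⟨(a, b), hb, rfl⟩
  choose! b hb using hsurj
  have hzp : ∀ a ∈ R, z * p a = b a • p a := by
    intro a ha
    have h1 : p a = p a * r (b a) := by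
      conv_lhs => rw [← hpπ a, ← hsr, Finset.mul_sum]
      refine Finset.sum_eq_single (b a) ?_ ?_
      · intro c hcR hcb
        by_contra hne
        apply hcb
        have h2 : (a, c) ∈ S := Finset.mem_filter.2 ⟨Finset.mem_product.2 ⟨ha, hcR⟩, hne⟩
        have h3 := hfst h2 (hb a ha) rfl
        exact congrArg Prod.snd h3
      · intro h2
        exact absurd (hS1 _ (hb a ha)).2.1 h2
    rw [h1, hpr, ← mul_assoc, hzr _ (hS1 _ (hb a ha)).2.1, smul_mul_assoc]
  refine ⟨∑ a ∈ R, C (b a) * (Lagrange.basis R id a).map i, ?_⟩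
  rw [map_sum, Finset.sum_mul]
  have h1 : z = ∑ a ∈ R, b a • p a := by
    conv_lhs => rw [← hE.right z hz, ← hsp, Finset.mul_sum]
    exact Finset.sum_congr rfl hzp
  conv_lhs => rw [h1]
  refine Finset.sum_congr rfl fun a _ => ?_
  rw [map_mul, aeval_C, mul_assoc, ← Algebra.smul_def]
  rfl

/-- **Generators of the centre.** -/
theorem exists_gen : ∃ e, E e ∧ (∀ χ, E χ → e * χ = χ * e) ∧
    ∀ z, E z → (∀ χ, E χ → z * χ = χ * z) → ∃ g : K[X], z = aeval e g * π := by
  classical
  set S : Set ℕ := {n | ∃ e R, E e ∧ (∀ χ, E χ → e * χ = χ * e) ∧ IsSpec e π R ∧ R.card = n}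
    with hS
  have hππ := hE.idem
  have hne : S.Nonempty := by
    have h1 : ∀ χ, E χ → π * χ = χ * π := fun χ hχ => by rw [hE.left χ hχ, hE.right χ hχ]
    obtain ⟨R, hR⟩ := hE.exists_spec hE.one h1
    exact ⟨_, π, R, hE.one, h1, hR, rfl⟩
  have hbdd : BddAbove S := by
    refine ⟨Module.finrank K (Module.End K H), ?_⟩
    rintro n ⟨e, R, he, -, hR, rfl⟩
    exact spec_card hR (hE.comm_pi he) hππ
  obtain ⟨e, R, he, hec, hR, hcard⟩ := Nat.sSup_mem hne hbdd
  refine ⟨e, he, hec, fun z hz hc => hE.poly_of_max he hec hR ?_ hz hc⟩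
  intro u hu huc R' hR'
  rw [hcard]
  exact le_csSup hbdd ⟨u, R', hu, huc, hR', rfl⟩

/-- **The adjoint of the generator is a polynomial with rational coefficients**, which preserves
the irreducible factors of the minimal polynomial. -/
theorem exists_data : ∃ (e : Module.End K H) (P Q : ℚ[X]), E e ∧ Squarefree P ∧
    aeval e (P.map (algebraMap ℚ K)) * π = 0 ∧
    Adj π B e (aeval e (Q.map (algebraMap ℚ K)) * π) ∧
    (∀ p : ℚ[X], Irreducible p → p ∣ P → p ∣ p.comp Q) ∧
    (∀ y ∈ Submodule.span K {x | E x}, (∀ χ, E χ → y * χ = χ * y) →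
      ∃ g : K[X], y = aeval e g * π) := by
  obtain ⟨e, he, hec, hgen⟩ := hE.exists_gen
  obtain ⟨P, hP, hdvd⟩ := hE.exists_minimal he hec
  obtain ⟨e', he', hadj⟩ := hE.adj e he
  have hec' := hE.adj_central he he' hadj hec
  obtain ⟨g, hg⟩ := hgen e' he' hec'
  -- rational coefficients
  obtain ⟨lam, hlam⟩ : ∃ lam : K →ₗ[ℚ] ℚ, lam 1 ≠ 0 := by
    by_contra hcon
    push Not at hcon
    exact one_ne_zero ((Module.forall_dual_apply_eq_zero_iff ℚ (1 : K)).1 hcon)
  have hpow : ∀ i, E (e ^ i * π) := by
    intro i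
    have h3 := hE.aeval_mem he (X ^ i)
    rwa [Polynomial.map_pow, map_X, map_pow, aeval_X] at h3
  have h1 : ∑ i ∈ Finset.range (g.natDegree + 1), g.coeff i • (e ^ i * π) = e' := by
    rw [hg, aeval_eq_sum_range, Finset.sum_mul]
    refine Finset.sum_congr rfl fun i _ => ?_
    rw [smul_mul_assoc]
  set c : Option ℕ → K := fun o => o.elim (-1) g.coeff with hc
  set χ : Option ℕ → Module.End K H := fun o => o.elim e' (fun i => e ^ i * π) with hχ
  set s : Finset (Option ℕ) := insert none ((Finset.range (g.natDegree + 1)).map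
    Embedding.some) with hs
  have hnone : (none : Option ℕ) ∉ (Finset.range (g.natDegree + 1)).map Embedding.some := by
    simp
  have h2 : ∑ o ∈ s, c o • χ o = 0 := by
    rw [hs, Finset.sum_insert hnone, Finset.sum_map]
    change (-1 : K) • e' + ∑ i ∈ Finset.range (g.natDegree + 1), g.coeff i • (e ^ i * π) = 0
    rw [h1, neg_smul, one_smul, neg_add_cancel]
  have h3 := hE.ind (s := s) (c := c) (χ := χ) (by
    intro o _
    cases o with
    | none => exact he'
    | some i => exact hpow i) (fun y _ => by rw [h2, mul_zero, map_zero]) lam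
  rw [hs, Finset.sum_insert hnone, Finset.sum_map] at h3
  change ((lam (-1) : ℚ) : K) • e' + ∑ i ∈ Finset.range (g.natDegree + 1),
    ((lam (g.coeff i) : ℚ) : K) • (e ^ i * π) = 0 at h3
  set Q : ℚ[X] := ∑ i ∈ Finset.range (g.natDegree + 1),
    monomial i ((lam 1)⁻¹ * lam (g.coeff i)) with hQ
  have hQe : e' = aeval e (Q.map (algebraMap ℚ K)) * π := by
    have h4 : aeval e (Q.map (algebraMap ℚ K)) * π = (((lam 1)⁻¹ : ℚ) : K) •
        ∑ i ∈ Finset.range (g.natDegree + 1), ((lam (g.coeff i) : ℚ) : K) • (e ^ i * π) := by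
      rw [hQ, Polynomial.map_sum, map_sum, Finset.sum_mul, Finset.smul_sum]
      refine Finset.sum_congr rfl fun i _ => ?_
      rw [Polynomial.map_monomial, aeval_monomial, mul_assoc, ← Algebra.smul_def, smul_smul,
        ← Rat.cast_mul]
      rfl
    have h5 : ∑ i ∈ Finset.range (g.natDegree + 1), ((lam (g.coeff i) : ℚ) : K) •
        (e ^ i * π) = ((lam 1 : ℚ) : K) • e' := by
      rw [map_neg, Rat.cast_neg, neg_smul, neg_add_eq_zero] at h3
      exact h3.symm
    rw [h4, h5, smul_smul, ← Rat.cast_mul, inv_mul_cancel₀ hlam, Rat.cast_one, one_smul]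
  refine ⟨e, P, Q, he, hP, (hdvd P).2 dvd_rfl, hQe ▸ hadj, ?_, ?_⟩
  · intro p hp hpP
    obtain ⟨q, hq⟩ := hpP
    have hq0 : q ≠ 0 := by
      rintro rfl
      rw [mul_zero] at hq
      exact hP.ne_zero hq
    -- the operator `(p(e))† q(e)`
    have hcp : ∀ g : ℚ[X], E (aeval e (g.map (algebraMap ℚ K)) * π) := fun g => hE.aeval_mem he g
    set y := aeval e (((p.comp Q) * q).map (algebraMap ℚ K)) * π with hy
    have e1 : aeval e' (p.map (algebraMap ℚ K)) * π =
        aeval e ((p.comp Q).map (algebraMap ℚ K)) * π := by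
      rw [hQe, hE.aeval_comp he, Polynomial.map_comp]
    have ha := hE.adj_aeval he he' hadj p
    have hb := hE.adj_aeval he he' hadj q
    have hadj' := hE.adj_symm he he' hadj
    rw [e1] at ha
    have ha' := hE.adj_symm (hcp p) (hcp _) ha
    set b' := aeval e' (q.map (algebraMap ℚ K)) * π with hb'
    have hb'E : E b' := hE.aeval_mem he' q
    have h6 : Adj π B y (b' * (aeval e (p.map (algebraMap ℚ K)) * π)) := by
      have h7 := hE.adj_mul (hcp q) (hcp p) ha' hb
      rw [← hE.aeval_mul he, ← Polynomial.map_mul] at h7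
      exact h7
    have h7 : y = 0 := by
      apply hE.eq_zero (hcp _) (hE.mul _ _ hb'E (hcp p)) h6
      have h8 : ∀ χ, E χ → y * χ = χ * y := by
        intro χ hχ
        have h1 : ∀ g : K[X], aeval e g * χ = χ * aeval e g := by
          intro g
          induction g using Polynomial.induction_on' with
          | add p q hp hq => rw [map_add, add_mul, mul_add, hp, hq]
          | monomial n a =>
            have h1 : e ^ n * χ = χ * e ^ n := (Commute.pow_left (hec χ hχ) n).eq
            rw [aeval_monomial, mul_assoc, h1, ← mul_assoc, ← mul_assoc]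
            congr 1
            exact Algebra.commutes _ _
        rw [hy, mul_assoc, hE.left χ hχ, h1, ← mul_assoc, ← h1, mul_assoc, hE.right χ hχ]
      have h9 : y * (b' * (aeval e (p.map (algebraMap ℚ K)) * π)) = 0 := by
        rw [← mul_assoc, h8 b' hb'E, mul_assoc, hy, ← hE.aeval_mul he, ← Polynomial.map_mul]
        have h10 : aeval e (((p.comp Q) * q * p).map (algebraMap ℚ K)) * π = 0 := by
          rw [hdvd, hq]
          exact ⟨p.comp Q, by ring⟩
        rw [h10, mul_zero]
      rw [h9, map_zero]
    rw [hy, hdvd, hq] at h7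
    exact (mul_dvd_mul_iff_right hq0).1 h7
  · intro y hy hyc
    exact hE.span_centre hgen hy hyc

end PosAlg

end Pool.Agent.V5helper85.AB
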