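import Pool.Agent.V5helper85.AB.Core
import Pool.Agent.V5helper85.AB.Pos2
import Pool.Agent.V5helper85.AB.Defs

/-!
# Positive pieces, over an algebraically closed coefficient field
-/

open CategoryTheory AlgebraicGeometry Function Polynomial

universe u v w w'

set_option linter.unusedSectionVars false

namespace Pool.Agent.V5helper85.AB

open Pool.Agent.H914 Pool.Agent.H914.VarClass Pool.Agent.H914.VarClass.Obj
  Pool.Agent.H914.WeilCohomology Pool.Agent.R908 Pool.Agent.H447 Pool.Agent.N180.Cf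
  Pool.Agent.W534

/-- Splitting fields. -/
lemma exists_field (P : ℚ[X]) : ∃ (L : Type) (_ : Field L) (_ : Algebra ℚ L),
    FiniteDimensional ℚ L ∧ Normal ℚ L ∧ (P.map (algebraMap ℚ L)).Splits := by
  have h := Polynomial.IsSplittingField.splittingField P
  exact ⟨P.SplittingField, inferInstance, _,
    @Polynomial.IsSplittingField.finiteDimensional _ _ _ _ _ P h,
    @Normal.of_isSplittingField _ _ _ _ _ P h,
    SplittingField.splits P⟩

variable {k : Type u} [Field k] {𝒱 : VarClass k} {ops : CycleOps 𝒱}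
  {W : WeilCohomology.{u, v} ops} {X V : 𝒱.Obj} {𝒴 : Set 𝒱.Obj}

/-- Rational adjoints. -/
lemma qop_adjoint {φ : W.H X →ₗ[W.K] W.H X} (hφ : QOp W X X 0 φ) :
    ∃ ψ, QOp W X X 0 ψ ∧ ∀ a b, W.tr X (φ a * b) = W.tr X (a * ψ b) := by
  obtain ⟨z, hz, rfl⟩ := hφ.exists_cyc (p := X.dim) (by simp)
  refine ⟨W.corr (W.cl _ (ops.pull (swap X X) z)), QOp.gen (p := X.dim) (by simp)
    (ops.pull_mem _ hz), fun a b => ?_⟩
  rw [W.cl_pull]
  exact tr_corr_swap (W.cl_mem hz) a b

lemma qop_sub {d : ℤ} {φ ψ : W.H X →ₗ[W.K] W.H X} (h : QOp W X X d φ) (h' : QOp W X X d ψ) :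
    QOp W X X d (φ - ψ) := by
  rw [sub_eq_add_neg]
  exact h.add (qop_neg h')

lemma SignStd.qop (h : SignStd W X) : QOp W X X 0 (par (W.isInternal X)) := by
  obtain ⟨z, hz, h1⟩ := h
  have h2 : par (W.isInternal X) = W.corr (W.cl _ z) := by
    apply gr_ext (W.isInternal X)
    intro i a ha
    rw [h1 i a ha]
    exact scal_apply (W.isInternal X) _ ha
  rw [h2]
  exact QOp.gen (p := X.dim) (by simp) hz

lemma SignStd.isSign (h : SignStd W X) : IsSign W X (par (W.isInternal X)) :=
  ⟨h.qop.kop, fun _ _ ha => scal_apply (W.isInternal X) _ ha⟩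

/-- The pairing of a positive piece. -/
noncomputable def bf (W : WeilCohomology.{u, v} ops) (X : 𝒱.Obj) (θ : Module.End W.K (W.H X)) :
    W.H X →ₗ[W.K] W.H X →ₗ[W.K] W.K :=
  LinearMap.mk₂ W.K (fun x y => W.tr X (x * θ y))
    (fun x x' y => by rw [add_mul, map_add]) (fun c x y => by rw [smul_mul_assoc, map_smul])
    (fun x y y' => by rw [map_add, mul_add, map_add])
    (fun c x y => by rw [map_smul, mul_smul_comm, map_smul])

lemma bf_apply (θ : Module.End W.K (W.H X)) (x y : W.H X) :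
    bf W X θ x y = W.tr X (x * θ y) := rfl

lemma qop_mul' {d e : ℤ} {x y : Module.End W.K (W.H X)} (hx : QOp W X X d x)
    (hy : QOp W X X e y) : QOp W X X (e + d) (x * y) := QOp.comp hx hy

lemma qop_mul0 {x y : Module.End W.K (W.H X)} (hx : QOp W X X 0 x) (hy : QOp W X X 0 y) :
    QOp W X X 0 (x * y) := (qop_mul' hx hy).cast (add_zero 0)

/-- The rational endomorphisms of a positive piece form an algebra with a positive involution. -/
lemma IsPositivePiece.posAlg {π θ : Module.End W.K (W.H X)} (h : IsPositivePiece W X π θ)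
    (hX : SignStd W X) : PosAlg (fun φ => φ ∈ ratEnd W X π) π (bf W X θ) where
  one := ⟨h.rat, h.idem, h.idem⟩
  left := fun x hx => hx.2.1
  right := fun x hx => hx.2.2
  mul := by
    rintro x y ⟨h1, h2, h3⟩ ⟨h4, h5, h6⟩
    exact ⟨qop_mul0 h1 h4, by rw [← mul_assoc, h2], by rw [mul_assoc, h6]⟩
  add := by
    rintro x y ⟨h1, h2, h3⟩ ⟨h4, h5, h6⟩
    exact ⟨h1.add h4, by rw [mul_add, h2, h5], by rw [add_mul, h3, h6]⟩
  smul := by
    rintro q x ⟨h1, h2, h3⟩
    exact ⟨h1.smul q, by rw [mul_smul_comm, h2], by rw [smul_mul_assoc, h3]⟩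
  tr := by
    rintro x ⟨h1, -, -⟩
    obtain ⟨q, hq⟩ := qop_trace (qop_mul0 hX.qop h1)
    refine ⟨q, ?_⟩
    rw [← hq, ← mul_assoc, par_mul_par, one_mul]
  nondeg := by
    intro x hx h0
    obtain ⟨d, -, θ', -, h3⟩ := h.inv
    apply W.nondeg
    intro z
    rw [← h3 x z hx]
    apply h0
    change (π * π) _ = _
    rw [h.idem]
  symm := by
    rcases h.symm with h1 | h1
    · exact ⟨1, one_ne_zero, fun x y hx hy => by rw [one_mul]; exact h1 x y hx hy⟩
    · exact ⟨-1, neg_ne_zero.2 one_ne_zero, fun x y hx hy => by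
        rw [neg_one_mul]; exact h1 x y hx hy⟩
  adj := by
    rintro φ ⟨h1, h2, h3⟩
    obtain ⟨φ', hφ', h4⟩ := qop_adjoint h1
    obtain ⟨d, hθ, θ', hθ', h5⟩ := h.inv
    refine ⟨π * (θ' * (φ' * (θ * π))), ⟨?_, ?_, ?_⟩, ?_⟩
    · have h6 := qop_mul' h.rat (qop_mul' hθ' (qop_mul' hφ' (qop_mul' hθ h.rat)))
      exact h6.cast (by ring)
    · rw [← mul_assoc, h.idem]
    · simp only [mul_assoc, h.idem]
    · intro x y hx hy
      rw [bf_apply, bf_apply, h4, ← h5 x _ hx]
      change _ = W.tr X (x * θ (π (θ' (φ' (θ (π y))))))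
      rw [hy]
  pos := fun φ ψ hφ hψ hne hadj => h.pos φ hφ ψ hψ hne hadj

/-- **The Lefschetz standard conjecture for the tensor category generated by a positive piece**,
over an algebraically closed coefficient field. -/
theorem lefB_closed [IsAlgClosed W.K] (hX : SignStd W X) {π θ : Module.End W.K (W.H X)}
    (h : IsPositivePiece W X π θ) (h𝒴 : ∀ Y, IsProductOf 𝒴 Y → HomEqNum W Y)
    (f : Fac W X 𝒴 π V) (hpr : ∀ i, QOp W V V 0 (proj (W.isInternal V) i))
    {E : V.Cycles} (hE : V.IsCyc 1 E) (hHL : HardLefschetz W V E) : LefschetzB W V E := by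
  classical
  have hP := h.posAlg hX
  obtain ⟨e, P, Q, he, hPsq, hPe, hadj, hirr, hcen⟩ := hP.exists_data
  obtain ⟨L, _, _, hfin, hnor, hspl⟩ := exists_field P
  set σ : L →+* W.K := ((IsAlgClosed.lift : L →ₐ[ℚ] W.K) : L →+* W.K) with hσ
  set R := (P.map (algebraMap ℚ L)).roots.toFinset with hR
  have hP0 : P.map (algebraMap ℚ L) ≠ 0 :=
    (Polynomial.map_ne_zero_iff (algebraMap ℚ L).injective).2 hPsq.ne_zero
  have hmem : ∀ r : L, r ∈ R ↔ aeval r P = 0 := by
    intro r
    rw [hR, Multiset.mem_toFinset, mem_roots hP0, IsRoot.def, eval_map_algebraMap]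
  have hk := kills_of_poly σ hPsq hspl hPe
  have hRg : ∀ g : L ≃ₐ[ℚ] L, ∀ r ∈ R, g r ∈ R := by
    intro g r hr
    rw [hmem] at hr ⊢
    have h1 : aeval (g r) P = g (aeval r P) :=
      Polynomial.aeval_algHom_apply (g : L →ₐ[ℚ] L) _ _
    rw [h1, hr, map_zero]
  have hqg : ∀ r ∈ R, ∃ g : L ≃ₐ[ℚ] L, g r = aeval r Q := by
    intro r hr
    rw [hmem] at hr
    have hint : IsIntegral ℚ r := Algebra.IsIntegral.isIntegral r
    have h1 := hirr (minpoly ℚ r) (minpoly.irreducible hint) (minpoly.dvd ℚ r hr)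
    obtain ⟨c, hc⟩ := h1
    have h2 : aeval (aeval r Q) (minpoly ℚ r) = 0 := by
      rw [← aeval_comp, hc, map_mul, minpoly.aeval, zero_mul]
    have h3 : minpoly ℚ r = minpoly ℚ (aeval r Q) :=
      minpoly.eq_of_irreducible_of_monic (minpoly.irreducible hint) h2 (minpoly.monic hint)
    exact isConjRoot_iff_exists_algEquiv.1 (isConjRoot_def.2 h3.symm)
  have hinj : Set.InjOn (fun r : L => aeval r Q) R := by
    refine Finset.injOn_of_surjOn_of_card_le (t := R) _ ?_ ?_ le_rfl
    · intro r hr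
      obtain ⟨g, hg⟩ := hqg r hr
      change aeval r Q ∈ R
      rw [← hg]
      exact hRg g r hr
    · intro s hs
      obtain ⟨g, hg⟩ := hqg s hs
      refine ⟨g.symm s, hRg g.symm s hs, ?_⟩
      change aeval (g.symm s) Q = s
      have h1 : aeval (g.symm s) Q = g.symm (aeval s Q) :=
        Polynomial.aeval_algHom_apply (g.symm : L →ₐ[ℚ] L) _ _
      rw [h1, ← hg, AlgEquiv.symm_apply_apply]
  -- the span of the rational endomorphisms
  have hspan : cpr (KOp W X X 0) π ≤ Submodule.span W.K {x | x ∈ ratEnd W X π} := by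
    rintro y ⟨hy, hy1, hy2⟩
    have h1 : ∀ y ∈ KOp W X X 0, π * y * π ∈ Submodule.span W.K {x | x ∈ ratEnd W X π} := by
      intro y hy
      induction hy using Submodule.span_induction with
      | mem y hy =>
        obtain ⟨p, hp, z, hz, rfl⟩ := hy
        refine Submodule.subset_span ⟨?_, ?_, ?_⟩
        · exact qop_mul0 (qop_mul0 h.rat (QOp.gen hp hz)) h.rat
        · rw [← mul_assoc, ← mul_assoc, h.idem]
        · rw [mul_assoc, h.idem]
      | zero => rw [mul_zero, zero_mul]; exact Submodule.zero_mem _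
      | add a b _ _ ha hb => rw [mul_add, add_mul]; exact Submodule.add_mem _ ha hb
      | smul c a _ ha =>
        rw [mul_smul_comm, smul_mul_assoc]
        exact Submodule.smul_mem _ _ ha
    have h2 := h1 y hy
    rwa [hy1, hy2] at h2
  have hrat : ∀ x ∈ ratEnd W X π, x ∈ cpr (KOp W X X 0) π := fun x hx =>
    ⟨hx.1.kop, hx.2.1, hx.2.2⟩
  have hdual : DualData W X π e Q := by
    obtain ⟨d, hθ, θ', hθ', h5⟩ := h.inv
    refine ⟨θ * π, Submodule.mem_iSup_of_mem _ (qop_mul' hθ h.rat).kop, θ',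
      Submodule.mem_iSup_of_mem _ hθ'.kop, ?_, ?_, ?_⟩
    · intro x y hx hy
      have h6 := hadj x y hx hy
      rw [bf_apply, bf_apply] at h6
      have h7 : aeval e (Q.map (algebraMap ℚ W.K)) y =
          π (aeval e (Q.map (algebraMap ℚ W.K)) y) := by
        have h8 := pj_comm (hP.comm_pi he) (Q.map (algebraMap ℚ W.K))
        have h9 := congrArg (fun G => G y) h8
        beta_reduce at h9
        rw [Module.End.mul_apply, Module.End.mul_apply, hy] at h9
        exact h9
      rw [Module.End.mul_apply, Module.End.mul_apply, ← h7, hy, h6]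
      rw [Module.End.mul_apply, hy]
    · intro x y hx
      change W.tr X (x * θ (π y)) = W.tr X (x * θ ((π * π) y))
      rw [h.idem]
    · intro x z hx
      exact h5 x z hx
  refine lefB_core h𝒴 h.rat h.idem he.1 (hP.comm_pi he) hk (Q := Q) hRg hinj hqg hdual ?_ ?_
    hX.isSign f hpr hE hHL
  · intro y hy h0
    exact hP.span_nondeg (hspan hy) fun y' hy' => h0 y' (hrat y' hy')
  · intro y hy hc
    exact hcen y (hspan hy) fun χ hχ => hc χ (hrat χ hχ)

/-- The data of a direct factor. -/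
theorem IsFactor.fac {π : Module.End W.K (W.H X)} (hπ : QOp W X X 0 π)
    (hππ : π * π = π) (h : IsFactor W X π 𝒴 V) : Nonempty (Fac W X 𝒴 π V) := by
  obtain ⟨r, m, Y, d, a, b, hY, ha, hb, hab⟩ := h
  have htp : ∀ (Y : 𝒱.Obj) (m : ℕ), QOp W (pX X Y m) (pX X Y m) 0 (tp W Y π m) := by
    intro Y m
    induction m with
    | zero => exact qop_id _
    | succ m ih => exact (qop_extHom hπ ih).cast (add_zero 0)
  have htt : ∀ (Y : 𝒱.Obj) (m : ℕ), tp W Y π m ∘ₗ tp W Y π m = tp W Y π m := by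
    intro Y m
    induction m with
    | zero => rfl
    | succ m ih =>
      change extHom W π (tp W Y π m) ∘ₗ extHom W π (tp W Y π m) = extHom W π (tp W Y π m)
      rw [extHom_comp, ih]
      congr 1
  exact ⟨{
    J := Fin r
    fin := inferInstance
    m := m
    Y := Y
    hY := hY
    d := d
    a := fun j => tp W (Y j) π (m j) ∘ₗ a j
    b := fun j => b j ∘ₗ tp W (Y j) π (m j)
    ha := fun j => (QOp.comp (htp _ _) (ha j)).cast (add_zero _)
    hb := fun j => (QOp.comp (hb j) (htp _ _)).cast (zero_add _)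
    hab := by
      rw [← hab]
      refine Finset.sum_congr rfl fun j _ => ?_
      rw [LinearMap.comp_assoc, ← LinearMap.comp_assoc (a j), htt]
    hπa := fun j => by rw [← LinearMap.comp_assoc, htt]
    hπb := fun j => by rw [LinearMap.comp_assoc, htt] }⟩

end Pool.Agent.V5helper85.AB
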