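import Pool.Agent.V5helper85.AB.LefB

/-!
# Vanishing of the total weights
-/

open CategoryTheory AlgebraicGeometry Function Polynomial

universe u v w w'

set_option linter.unusedSectionVars false

namespace Pool.Agent.V5helper85.AB

open Pool.Agent.H914 Pool.Agent.H914.VarClass Pool.Agent.H914.VarClass.Obj
  Pool.Agent.H914.WeilCohomology Pool.Agent.R908 Pool.Agent.H447 Pool.Agent.N180.Cf
  Pool.Agent.W534

variable {k : Type u} [Field k] {𝒱 : VarClass k} {ops : CycleOps 𝒱}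
  {W : WeilCohomology.{u, v} ops} {X V : 𝒱.Obj} {𝒴 : Set 𝒱.Obj}

/-- The factor of `H(X)` cut out by `π` has a pairing `tr (x · θ y)` given by algebraic
correspondences, for which the adjoint of `e` is the polynomial `Q` in `e`. -/
structure DualData (W : WeilCohomology.{u, v} ops) (X : 𝒱.Obj) (π e : Module.End W.K (W.H X))
    (Q : ℚ[X]) : Prop where
  ex : ∃ θ ∈ ⨆ d, KOp W X X d, ∃ θ' ∈ ⨆ d, KOp W X X d,
    (∀ x y, π x = x → π y = y → W.tr X (e x * θ y) =
      W.tr X (x * θ (aeval e (Q.map (algebraMap ℚ W.K)) y))) ∧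
    (∀ x y, π x = x → W.tr X (x * θ y) = W.tr X (x * θ (π y))) ∧
    (∀ x z, π x = x → W.tr X (x * θ (θ' z)) = W.tr X (x * z))

lemma kop_mul {d e : ℤ} {x y : Module.End W.K (W.H X)} (hx : x ∈ KOp W X X d)
    (hy : y ∈ KOp W X X e) : x * y ∈ KOp W X X (e + d) := KOp.comp hx hy

lemma kop_mul0 : ∀ x ∈ KOp W X X 0, ∀ y ∈ KOp W X X 0, x * y ∈ KOp W X X 0 :=
  fun _ hx _ hy => KOp.cast (kop_mul hx hy) (add_zero 0)

lemma kop_aeval {e : Module.End W.K (W.H X)} (he : e ∈ KOp W X X 0) (g : W.K[X]) :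
    aeval e g ∈ KOp W X X 0 := by
  induction g using Polynomial.induction_on' with
  | add p q hp hq => rw [map_add]; exact Submodule.add_mem _ hp hq
  | monomial n a =>
    rw [aeval_monomial, ← Algebra.smul_def]
    refine Submodule.smul_mem _ _ ?_
    induction n with
    | zero => rw [pow_zero]; exact KOp.id X
    | succ n ih => rw [pow_succ]; exact kop_mul0 _ ih _ he

lemma sup_mem {U : ℝ → Submodule W.K (W.H X)} (h : ∀ (δ : ℤ) (φ : W.H X →ₗ[W.K] W.H X),
    φ ∈ KOp W X X δ → ∀ t, ∀ x ∈ U t, φ x ∈ U t) {θ : Module.End W.K (W.H X)}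
    (hθ : θ ∈ ⨆ d, KOp W X X d) (t : ℝ) : ∀ x ∈ U t, θ x ∈ U t := by
  refine Submodule.iSup_induction (fun d => KOp W X X d)
    (motive := fun θ => ∀ x ∈ U t, θ x ∈ U t) hθ (fun d φ hφ => h d φ hφ t)
    (fun x _ => Submodule.zero_mem _) ?_
  intro a b ha hb x hx
  exact Submodule.add_mem _ (ha x hx) (hb x hx)

lemma sign_eq_par {κ : W.H X →ₗ[W.K] W.H X} (hκ : IsSign W X κ) :
    par (W.isInternal X) = κ := by
  apply gr_ext (W.isInternal X)
  intro i a ha
  rw [hκ.apply i a ha]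
  exact scal_apply (W.isInternal X) _ ha

/-- A homogeneous operator which acts by the weights. -/
lemma exists_D {N : ℕ} {U : ℝ → Submodule W.K (W.H X)} (hU : Good W X 𝒴 N U) (φ : ℝ →+ ℚ) :
    ∃ D : W.H X →ₗ[W.K] W.H X, IsHom (W.gr X) 0 D ∧ ActsBy U φ D := by
  obtain ⟨l, e, w, he, hw⟩ := Pool.Agent.N180.Cf.exists_adapted U hU.jumps
  have A : Adapted U e w := ⟨he, hw⟩
  set D₀ := dg e w φ with hD₀
  have hpr : ∀ i t, ∀ x ∈ U t, proj (W.isInternal X) i x ∈ U t := fun i t =>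
    proj_stable (fun x hx => hU.symm (gSym W (two_ne_zero : (2 : W.K) ≠ 0)) t x hx) i
  have hsum : ∀ x, ∑ i ∈ Finset.range (2 * X.dim + 1), proj (W.isInternal X) i x = x := by
    intro x
    have h3 := sum_proj (W.isInternal X) (N := 2 * X.dim + 1) W_hbd
    have h4 := congrArg (fun F : Module.End W.K (W.H X) => F x) h3
    beta_reduce at h4
    rw [LinearMap.sum_apply, Module.End.one_apply] at h4
    exact h4
  refine ⟨∑ i ∈ Finset.range (2 * X.dim + 1), proj (W.isInternal X) i ∘ₗ D₀ ∘ₗ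
    proj (W.isInternal X) i, ?_, ?_⟩
  · intro i a ha
    rw [add_zero]
    by_cases hi : 0 ≤ i
    · lift i to ℕ using hi
      rw [grZ_natCast] at ha ⊢
      rw [LinearMap.sum_apply]
      refine Submodule.sum_mem _ fun j _ => ?_
      rw [LinearMap.comp_apply, LinearMap.comp_apply]
      by_cases hij : i = j
      · subst hij
        exact H914.proj_mem _ _ _
      · rw [proj_ne _ ha hij, map_zero, map_zero]
        exact Submodule.zero_mem _
    · rw [grZ_of_neg (by omega)] at ha ⊢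
      rw [(Submodule.mem_bot _).1 ha, map_zero]
      exact Submodule.zero_mem _
  · intro t x hx
    have h1 : (∑ i ∈ Finset.range (2 * X.dim + 1), proj (W.isInternal X) i ∘ₗ D₀ ∘ₗ
        proj (W.isInternal X) i) x - ((φ t : ℚ) : W.K) • x =
        ∑ i ∈ Finset.range (2 * X.dim + 1), proj (W.isInternal X) i
          (D₀ (proj (W.isInternal X) i x) - ((φ t : ℚ) : W.K) • proj (W.isInternal X) i x) := by
      have h2 : ((φ t : ℚ) : W.K) • x = ∑ i ∈ Finset.range (2 * X.dim + 1),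
          ((φ t : ℚ) : W.K) • proj (W.isInternal X) i x := by
        rw [← Finset.smul_sum, hsum]
      rw [h2, LinearMap.sum_apply, ← Finset.sum_sub_distrib]
      refine Finset.sum_congr rfl fun i _ => ?_
      rw [map_sub, map_smul, proj_same _ (H914.proj_mem (W.isInternal X) i x)]
      rfl
    rw [h1]
    refine Up.sum hU.anti fun i _ => ?_
    exact Up.map (hpr i) (A.dg_acts hU.anti φ t _ (hpr i t x hx))

/-- A vector of total weight with zero image under all additive maps to the rational numbers. -/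
lemma real_zero {x : ℝ} (h : ∀ φ : ℝ →+ ℚ, φ x = 0) : x = 0 := by
  rw [← Module.forall_dual_apply_eq_zero_iff ℚ]
  intro φ
  exact h φ.toAddMonoidHom

variable {L : Type w} [Field L] [DecidableEq L] [Algebra ℚ L] [FiniteDimensional ℚ L]

/-- **The total weights vanish.** -/
theorem totalZero {π e : Module.End W.K (W.H X)} (hπ : QOp W X X 0 π) (hππ : π * π = π)
    (he : QOp W X X 0 e) (hπe : e * π = π * e) {σ : L →+* W.K} {R : Finset L}
    (hk : Kills σ e π R) {Q : ℚ[X]} (hRg : ∀ g : L ≃ₐ[ℚ] L, ∀ r ∈ R, g r ∈ R)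
    (hinj : Set.InjOn (fun r : L => aeval r Q) R)
    (hqg : ∀ r ∈ R, ∃ g : L ≃ₐ[ℚ] L, g r = aeval r Q)
    (hdual : DualData W X π e Q)
    (hnd : ∀ y ∈ cpr (KOp W X X 0) π, (∀ y' ∈ cpr (KOp W X X 0) π,
      LinearMap.trace W.K (W.H X) (y' * y) = 0) → y = 0)
    (hcen : ∀ y ∈ cpr (KOp W X X 0) π, (∀ y' ∈ cpr (KOp W X X 0) π, y * y' = y' * y) →
      ∃ f : W.K[X], y = aeval e f * π)
    {κ : W.H X →ₗ[W.K] W.H X} (hκ : IsSign W X κ) {U : ℝ → Submodule W.K (W.H X)} {N : ℕ}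
    (hU : Good W X 𝒴 N U) (f : Fac W X 𝒴 π V) (hN : ∀ i j, f.m i + f.m j ≤ N)
    (hpr : ∀ i, QOp W V V 0 (proj (W.isInternal V) i)) :
    TotalZero W V (f.F U) := by
  classical
  have hUcf : CF U := by
    obtain ⟨l, e, w, he, hw⟩ := Pool.Agent.N180.Cf.exists_adapted U hU.jumps
    have A : Adapted U e w := ⟨he, hw⟩
    refine ⟨Fin l, inferInstance, fun i => LinearMap.ker (e.coord i), w, fun t x => ?_,
      fun x hx => ?_⟩
    · rw [A.mem_iff hU.anti]
      rfl
    · exact (Module.Basis.forall_coord_eq_zero_iff e).1 fun i => hx i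
  obtain ⟨l₁, e₁, w₁, A₁⟩ := hUcf.exists_adapted
  have hcf : CF (f.F U) := f.cf e₁ A₁
  have hop0 : ∀ y ∈ KOp W X X 0, ∀ t, ∀ x ∈ U t, y x ∈ U t := fun y hy t x hx =>
    hU.kop 0 y hy t x hx
  have hπ0 := hop0 π hπ.kop
  have hpjK : ∀ r, pj σ e π R r ∈ KOp W X X 0 := fun r =>
    kop_mul0 _ (kop_aeval he.kop _) _ hπ.kop
  have hpjc : ∀ r, pj σ e π R r ∈ cpr (KOp W X X 0) π := fun r =>
    ⟨hpjK r, pi_pj hπe hππ r, pj_pi hππ r⟩
  -- the pairing
  obtain ⟨θ, hθ, θ', hθ', h1, h2, h3⟩ := hdual.ex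
  set B : W.H X →ₗ[W.K] W.H X →ₗ[W.K] W.K := LinearMap.mk₂ W.K (fun x y => W.tr X (x * θ y))
    (fun x x' y => by rw [add_mul, map_add]) (fun c x y => by rw [smul_mul_assoc, map_smul])
    (fun x y y' => by rw [map_add, mul_add, map_add])
    (fun c x y => by rw [map_smul, mul_smul_comm, map_smul]) with hBdef
  have hBa : ∀ x y, B x y = W.tr X (x * θ y) := fun x y => rfl
  have hev : ∀ r : L, (Q.map (algebraMap ℚ W.K)).eval (σ r) = σ (aeval r Q) := by
    intro r
    rw [aeval_def, hom_eval₂, Polynomial.eval_map]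
    congr 1
    exact RingHom.ext_rat _ _
  have hP : Pairing U σ e π R (fun r => aeval r Q) B := by
    refine ⟨⟨Q.map (algebraMap ℚ W.K), fun r _ => hev r, fun x y hx hy => h1 x y hx hy⟩, ?_, ?_⟩
    · intro s t x y hx hy _ _ hne
      by_contra hcon
      push Not at hcon
      apply hne
      rw [hBa, hκ.tr_comm]
      have h4 := (hU.dual s (κ x)).1 (hU.kop 0 κ hκ.mem s x hx) t (by linarith) (θ y)
        (sup_mem hU.kop hθ t y hy)
      exact h4
    · intro x t hx h4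
      rw [hU.dual]
      intro s hs z hz
      rw [hκ.tr_comm, ← h3 x (κ z) hx, h2 x _ hx]
      refine h4 s hs _ (hπ0 s _ (sup_mem hU.kop hθ' s _ (hU.kop 0 κ hκ.mem s z hz))) ?_
      change (π * π) _ = _
      rw [hππ]
  -- permutation of the roots
  have hq : ∀ r ∈ R, aeval r Q ∈ R := by
    intro r hr
    obtain ⟨g, hg⟩ := hqg r hr
    rw [← hg]
    exact hRg g r hr
  intro i l a w ha
  apply real_zero
  intro φ
  obtain ⟨D, hD0, hD⟩ := exists_D hU φ
  set Pi : W.H V →ₗ[W.K] W.H V := proj (W.isInternal V) i with hPi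
  -- the traces
  set S : (W.H X →ₗ[W.K] W.H X) → W.K := fun y => str W V (Pi ∘ₗ f.R y) with hS
  have hSD : S D = (-1 : W.K) ^ i * ((φ (∑ j, w j) : ℚ) : W.K) := by
    have h4 : par (W.isInternal V) ∘ₗ Pi = (-1 : W.K) ^ i • Pi := by
      apply LinearMap.ext
      intro x
      rw [LinearMap.comp_apply, LinearMap.smul_apply]
      exact scal_apply (W.isInternal V) _ (H914.proj_mem (W.isInternal V) i x)
    have h5 := trace_proj (F := f.F U) (p := Pi) (proj_mul_proj (W.isInternal V) i)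
      (f.kop_mem hκ hU hN (hpr i).kop) (U := W.gr V i) (fun x => ⟨fun h => proj_same _ h, fun h => by
        rw [← h]; exact H914.proj_mem _ _ _⟩) ha (f.R_acts hκ hU hN hD hcf)
    rw [hS]
    change LinearMap.trace W.K (W.H V) (par (W.isInternal V) ∘ₗ (Pi ∘ₗ f.R D)) = _
    rw [← LinearMap.comp_assoc, h4, LinearMap.smul_comp, map_smul, smul_eq_mul]
    congr 1
    rw [map_sum, Rat.cast_sum]
    exact h5
  obtain ⟨z, hz, hzS⟩ := f.exists_z hππ (KOp.isHom hπ.kop) (hpr i).kop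
  set z' : Module.End W.K (W.H X) := π * (κ * z) * π with hz'
  have hz'c : z' ∈ cpr (KOp W X X 0) π :=
    compress_mem kop_mul0 hπ.kop hππ (kop_mul0 _ hκ.mem _ hz)
  have hSz : ∀ y : W.H X →ₗ[W.K] W.H X, IsHom (W.gr X) 0 y → S y =
      LinearMap.trace W.K (W.H X) (z' * y) := by
    intro y hy
    rw [hS]
    change str W V (Pi ∘ₗ f.R y) = _
    rw [hzS y hy, str, sign_eq_par hκ]
    change LinearMap.trace W.K (W.H X) (κ * (z * (π * (y * π)))) = _
    rw [show κ * (z * (π * (y * π))) = (κ * z * π * y) * π by simp only [mul_assoc],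
      LinearMap.trace_mul_comm, hz']
    simp only [mul_assoc]
  -- the central operator
  obtain ⟨g, hg⟩ := exists_cent kop_mul0 hnd hcen hUcf hop0 hD
  have hSg : S D = ∑ r ∈ R, g.eval (σ r) * S (pj σ e π R r) := by
    rw [hSz D hD0, hg z' hz'c]
    have h4 : z' * aeval e g = ∑ r ∈ R, g.eval (σ r) • (z' * pj σ e π R r) := by
      have h5 : z' * aeval e g = z' * (aeval e g * π) := by
        rw [pj_comm hπe, ← mul_assoc, hz'c.2.2]
      rw [h5, ← sum_pj hk g, Finset.mul_sum]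
      refine Finset.sum_congr rfl fun r _ => ?_
      rw [mul_smul_comm]
    rw [h4, map_sum]
    refine Finset.sum_congr rfl fun r _ => ?_
    rw [map_smul, smul_eq_mul, hSz _ (KOp.isHom (hpjK r))]
  -- the weights of the eigenspaces
  choose l' a' w' ha' using fun r => (hUcf.comap (f := (ES σ e π R r).subtype)
    Subtype.val_injective).exists_adapted
  set n' : L → ℕ := fun r => Module.finrank W.K (ES σ e π R r) with hn'
  set c : L → ℚ := fun r => φ (∑ j, w' r j) / (n' r : ℚ) with hc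
  have hgr : ∀ r ∈ R, g.eval (σ r) * (n' r : W.K) = ((φ (∑ j, w' r j) : ℚ) : W.K) := by
    intro r hr
    have hid := pj_idem hk hπe hππ hr
    have h4 := hg _ (hpjc r)
    have h5 := trace_proj (F := U) hid (hop0 _ (hpjK r)) (U := ES σ e π R r)
      (fun x => mem_ES hk hπe hππ hr) (ha' r) hD
    rw [h5] at h4
    have h6 : pj σ e π R r * aeval e g = g.eval (σ r) • pj σ e π R r := by
      rw [← ev_pj hk hr g, pj, ← mul_assoc, ← map_mul, mul_assoc, ← pj_comm hπe, ← mul_assoc,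
        ← map_mul, mul_comm]
    have h7 : LinearMap.trace W.K (W.H X) (pj σ e π R r) = (n' r : W.K) := by
      have h8 : LinearMap.IsProj (ES σ e π R r) (pj σ e π R r) :=
        ⟨fun x => ⟨x, rfl⟩, fun x hx => (mem_ES hk hπe hππ hr).1 hx⟩
      exact h8.trace
    rw [h6, map_smul, smul_eq_mul, h7] at h4
    rw [← h4, map_sum, Rat.cast_sum]
  have hopj : ∀ t, ∀ x ∈ U t, ∀ r, pj σ e π R r x ∈ U t := fun t x hx r => hop0 _ (hpjK r) t x hx
  have hcq : ∀ r ∈ R, c (aeval r Q) = - c r := by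
    intro r hr
    have h4 := hP.sum_eq_zero hk hπe hππ hUcf hopj hinj hq hr (ha' r) (ha' (aeval r Q))
    have h5 : n' (aeval r Q) = n' r := hP.finrank_eq hk hπe hππ hUcf hinj hq hr
    rw [hc]
    change φ (∑ j, w' (aeval r Q) j) / (n' (aeval r Q) : ℚ) = - (φ (∑ j, w' r j) / (n' r : ℚ))
    rw [h5, ← neg_div]
    congr 1
    rw [← map_neg]
    congr 1
    linarith
  -- the families
  have hfam : (fun τ : L →+* W.K => (pj τ e π R · : L → Module.End W.K (W.H X))) = fun τ =>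
      (pj τ e π R · : L → Module.End W.K (W.H X)) := rfl
  have hρ0 : ∀ r : L, ∃ ρ : L, ∀ τ : L →+* W.K, S (pj τ e π R r) = τ ρ := by
    intro r
    have h4 : (fun τ : L →+* W.K => (pj τ e π R r : W.H X →ₗ[W.K] W.H X)) ∈ LFam L W X X 0 :=
      LFam.cast (LFam.comp (LFam.aeval he (Lagrange.basis R id r)) (LFam.rat hπ)) (add_zero 0)
    have h5 := LFam.cast (LFam.comp (LFam.rat (L := L) (hpr i)) (f.R_family h4)) (add_zero 0)
    exact LFam.trace h5
  choose ρ hρ using hρ0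
  have hρg : ∀ g : L ≃ₐ[ℚ] L, ∀ r ∈ R, ρ (g r) = g (ρ r) := by
    intro g r hr
    apply σ.injective
    rw [← hρ (g r) σ]
    have h4 := hρ r (σ.comp ((g : L ≃+* L) : L →+* L))
    rw [pj_conj hk (g := (g : L ≃+* L)) (fun s hs => hRg g.symm s hs) r] at h4
    exact h4
  have hfin : ∑ r ∈ R, ((c r : ℚ) : W.K) * σ (ρ r) =
      (((-1) ^ i * φ (∑ j, w j) : ℚ) : W.K) := by
    rw [Rat.cast_mul, Rat.cast_pow, Rat.cast_neg, Rat.cast_one, ← hSD, hSg]
    refine Finset.sum_congr rfl fun r hr => ?_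
    rw [← hρ r σ]
    by_cases hn0 : n' r = 0
    · have h4 : pj σ e π R r = 0 := by
        have h5 : ES σ e π R r = ⊥ := Submodule.finrank_eq_zero.1 hn0
        exact LinearMap.range_eq_bot.1 h5
      have h5 : S (pj σ e π R r) = 0 := by
        rw [hSz _ (KOp.isHom (hpjK r)), h4, mul_zero, map_zero]
      rw [h5, mul_zero, mul_zero]
    · congr 1
      have h4 := hgr r hr
      have h5 : (n' r : W.K) ≠ 0 := Nat.cast_ne_zero.2 hn0
      change ((φ (∑ j, w' r j) / (n' r : ℚ) : ℚ) : W.K) = _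
      rw [Rat.cast_div, Rat.cast_natCast, ← h4, mul_div_cancel_right₀ _ h5]
  have h4 := avg_zero σ hinj hq hρg hqg hcq hfin
  exact (mul_eq_zero.1 h4).resolve_left (pow_ne_zero _ (by norm_num))

/-- **The Lefschetz standard conjecture for the direct factors.** -/
theorem lefB_core (h𝒴 : ∀ Y, IsProductOf 𝒴 Y → HomEqNum W Y)
    {π e : Module.End W.K (W.H X)} (hπ : QOp W X X 0 π) (hππ : π * π = π)
    (he : QOp W X X 0 e) (hπe : e * π = π * e) {σ : L →+* W.K} {R : Finset L}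
    (hk : Kills σ e π R) {Q : ℚ[X]} (hRg : ∀ g : L ≃ₐ[ℚ] L, ∀ r ∈ R, g r ∈ R)
    (hinj : Set.InjOn (fun r : L => aeval r Q) R)
    (hqg : ∀ r ∈ R, ∃ g : L ≃ₐ[ℚ] L, g r = aeval r Q)
    (hdual : DualData W X π e Q)
    (hnd : ∀ y ∈ cpr (KOp W X X 0) π, (∀ y' ∈ cpr (KOp W X X 0) π,
      LinearMap.trace W.K (W.H X) (y' * y) = 0) → y = 0)
    (hcen : ∀ y ∈ cpr (KOp W X X 0) π, (∀ y' ∈ cpr (KOp W X X 0) π, y * y' = y' * y) →
      ∃ f : W.K[X], y = aeval e f * π)
    {κ : W.H X →ₗ[W.K] W.H X} (hκ : IsSign W X κ) (f : Fac W X 𝒴 π V)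
    (hpr : ∀ i, QOp W V V 0 (proj (W.isInternal V) i))
    {E : V.Cycles} (hE : V.IsCyc 1 E) (hHL : HardLefschetz W V E) : LefschetzB W V E := by
  classical
  set M := Finset.univ.sup f.m with hM
  have hN : ∀ i j, f.m i + f.m j ≤ M + M := fun i j =>
    Nat.add_le_add (Finset.le_sup (Finset.mem_univ i)) (Finset.le_sup (Finset.mem_univ j))
  obtain ⟨U, hU, -⟩ := exists_good hκ h𝒴 (M + M)
  obtain ⟨l, a, w, ha, hw⟩ := Pool.Agent.N180.Cf.exists_adapted U hU.jumps
  have hcf : CF (f.F U) := f.cf a ⟨ha, hw⟩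
  exact lefB_of_weights ⟨hcf, fun d φ hφ => f.kop_mem hκ hU hN hφ,
    fun d φ hφ => f.nt_raise hκ hU hN hφ hcf⟩ (fun i => (hpr i).kop)
    (totalZero hπ hππ he hπe hk hRg hinj hqg hdual hnd hcen hκ hU f hN hpr) hE hHL

end Pool.Agent.V5helper85.AB
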