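import Pool.Agent.W534.QOp
import Pool.Agent.R908.KoB

/-!
# Algebraic operators with coefficients in a number field, and all their realisations
-/

open CategoryTheory AlgebraicGeometry

universe u v w

namespace Pool.Agent.V5helper85.AB

open Pool.Agent.H914 Pool.Agent.H914.VarClass Pool.Agent.H914.VarClass.Obj
  Pool.Agent.H914.WeilCohomology Pool.Agent.W534 Pool.Agent.R908

variable {k : Type u} [Field k] {𝒱 : VarClass k} {ops : CycleOps 𝒱}
  {W : WeilCohomology.{u, v} ops} {X Y Z X' Y' : 𝒱.Obj}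

lemma qop_extHom {d e : ℤ} {φ : W.H X →ₗ[W.K] W.H X'} {ψ : W.H Y →ₗ[W.K] W.H Y'}
    (hφ : QOp W X X' d φ) (hψ : QOp W Y Y' e ψ) :
    QOp W (X.prod Y) (X'.prod Y') (d + e) (extHom W φ ψ) := by
  by_cases hde : ((X.prod Y).dim : ℤ) + (d + e) < 0
  · refine Or.inr ⟨hde, ?_⟩
    rcases hφ with ⟨p, hp, z, hz, rfl⟩ | ⟨_, rfl⟩
    · rcases hψ with ⟨p', hp', w, hw, rfl⟩ | ⟨_, rfl⟩
      · rw [dim_prod] at hde
        push_cast at hde
        omega
      · exact extHom_zero_right _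
    · exact extHom_zero_left _
  · rcases hφ with ⟨p, hp, z, hz, rfl⟩ | ⟨_, rfl⟩
    · rcases hψ with ⟨p', hp', w, hw, rfl⟩ | ⟨_, rfl⟩
      · have hcyc := ops.mul_mem (ops.pull_mem (r1 X Y X' Y') hz)
          (ops.pull_mem (r2 X Y X' Y') hw)
        have e1 : extHom W (W.corr (W.cl _ z)) (W.corr (W.cl _ w)) =
            W.corr (W.cl _ (ops.mul (ops.pull (r1 X Y X' Y') z)
              (ops.pull (r2 X Y X' Y') w))) := by
          apply ext_kunneth_lin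
          intro a b
          rw [extHom_tmul, W.cl_mul, W.cl_pull, W.cl_pull, corr_ext' _ (W.cl_mem hw)]
        rw [e1]
        exact QOp.gen (by rw [dim_prod]; push_cast; omega) hcyc
      · rw [extHom_zero_right]
        exact QOp.zero _
    · rw [extHom_zero_left]
      exact QOp.zero _

lemma qop_id (X : 𝒱.Obj) : QOp W X X 0 LinearMap.id := by
  obtain ⟨q, hq, z, hz, hY⟩ | ⟨hd, _⟩ := Realized.one (ops := ops) (X := X)
  · exact Or.inl ⟨q, hq, z, hz, (hY W).symm⟩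
  · omega

lemma qop_mul {p : ℕ} {z : X.Cycles} (hz : X.IsCyc p z) :
    QOp W X X p (LinearMap.mulLeft W.K (W.cl X z)) := by
  obtain ⟨q, hq, z, hz, hY⟩ | ⟨hd, _⟩ := Realized.mulLeft (ops := ops) hz
  · exact Or.inl ⟨q, hq, z, hz, (hY W).symm⟩
  · omega

lemma qop_neg {d : ℤ} {φ : W.H X →ₗ[W.K] W.H Y} (h : QOp W X Y d φ) : QOp W X Y d (-φ) := by
  have h1 := h.smul (-1)
  have h2 : ((-1 : ℚ) : W.K) • φ = -φ := by
    apply LinearMap.ext
    intro a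
    rw [LinearMap.smul_apply, LinearMap.neg_apply, Rat.cast_neg, Rat.cast_one, neg_smul, one_smul]
  rwa [h2] at h1

lemma qop_pow {φ : W.H X →ₗ[W.K] W.H X} (h : QOp W X X 0 φ) (n : ℕ) : QOp W X X 0 (φ ^ n) := by
  induction n with
  | zero => rw [pow_zero]; exact qop_id X
  | succ n ih => rw [pow_succ]; exact QOp.cast (QOp.comp ih h) (add_zero 0)

/-- The rational trace of a rational correspondence of degree `0`. -/
lemma qop_trace {φ : W.H X →ₗ[W.K] W.H X} (h : QOp W X X 0 φ) :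
    ∃ q : ℚ, LinearMap.trace W.K (W.H X) (par (W.isInternal X) * φ) = (q : W.K) := by
  obtain ⟨z, hz, rfl⟩ := h.exists_cyc (p := X.dim) (by simp)
  refine ⟨X.V.degCycle (ops.pull (diag X) z), ?_⟩
  rw [trace_par_corr, ← cl_pull, tr_cl _ (ops.pull_mem _ hz)]

variable {L : Type w} [Field L]

/-- The families of operators, indexed by the embeddings of `L` in the coefficient field, given by
algebraic correspondences of degree `d` with coefficients in `L`. -/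
def LFam (L : Type w) [Field L] (W : WeilCohomology.{u, v} ops) (X Y : 𝒱.Obj) (d : ℤ) :
    AddSubmonoid ((L →+* W.K) → (W.H X →ₗ[W.K] W.H Y)) :=
  AddSubmonoid.closure {Φ | ∃ (c : L) (γ : W.H X →ₗ[W.K] W.H Y), QOp W X Y d γ ∧
    Φ = fun τ => τ c • γ}

namespace LFam

variable {d e : ℤ}

lemma gen (c : L) {γ : W.H X →ₗ[W.K] W.H Y} (h : QOp W X Y d γ) :
    (fun τ : L →+* W.K => τ c • γ) ∈ LFam L W X Y d :=
  AddSubmonoid.subset_closure ⟨c, γ, h, rfl⟩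

lemma rat {γ : W.H X →ₗ[W.K] W.H Y} (h : QOp W X Y d γ) :
    (fun _ : L →+* W.K => γ) ∈ LFam L W X Y d := by
  have h1 := gen (L := L) 1 h
  have h2 : (fun τ : L →+* W.K => τ 1 • γ) = fun _ => γ := by
    funext τ
    rw [map_one, one_smul]
  rwa [h2] at h1

lemma cast {Φ : (L →+* W.K) → (W.H X →ₗ[W.K] W.H Y)} (h : Φ ∈ LFam L W X Y d) (hde : d = e) :
    Φ ∈ LFam L W X Y e := hde ▸ h

lemma smul (c : L) {Φ : (L →+* W.K) → (W.H X →ₗ[W.K] W.H Y)} (h : Φ ∈ LFam L W X Y d) :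
    (fun τ => τ c • Φ τ) ∈ LFam L W X Y d := by
  induction h using AddSubmonoid.closure_induction with
  | mem Φ hΦ =>
    obtain ⟨c', γ, hγ, rfl⟩ := hΦ
    have h1 := gen (L := L) (c * c') hγ
    have h2 : (fun τ : L →+* W.K => τ (c * c') • γ) = fun τ => τ c • τ c' • γ := by
      funext τ
      rw [map_mul, mul_smul]
    rwa [h2] at h1
  | zero =>
    have h2 : (fun τ : L →+* W.K => τ c • (0 : (L →+* W.K) → (W.H X →ₗ[W.K] W.H Y)) τ) = 0 := by
      funext τ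
      exact smul_zero _
    rw [h2]
    exact AddSubmonoid.zero_mem _
  | add Φ Ψ _ _ h1 h2 =>
    have h3 : (fun τ : L →+* W.K => τ c • (Φ + Ψ) τ) =
        (fun τ => τ c • Φ τ) + fun τ => τ c • Ψ τ := by
      funext τ
      exact smul_add _ _ _
    rw [h3]
    exact AddSubmonoid.add_mem _ h1 h2

lemma sum {ι : Type*} {s : Finset ι} {Φ : ι → (L →+* W.K) → (W.H X →ₗ[W.K] W.H Y)}
    (h : ∀ i ∈ s, Φ i ∈ LFam L W X Y d) : (fun τ => ∑ i ∈ s, Φ i τ) ∈ LFam L W X Y d := by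
  have h1 : (fun τ => ∑ i ∈ s, Φ i τ) = ∑ i ∈ s, Φ i := by
    funext τ
    rw [Finset.sum_apply]
  rw [h1]
  exact AddSubmonoid.sum_mem _ h

lemma add {Φ Ψ : (L →+* W.K) → (W.H X →ₗ[W.K] W.H Y)} (h : Φ ∈ LFam L W X Y d)
    (h' : Ψ ∈ LFam L W X Y d) : (fun τ => Φ τ + Ψ τ) ∈ LFam L W X Y d :=
  AddSubmonoid.add_mem _ h h'

/-- A bilinear operation on operators which preserves rational correspondences preserves families. -/
lemma bilin {X₁ Y₁ X₂ Y₂ X₃ Y₃ : 𝒱.Obj} {d₁ d₂ d₃ : ℤ}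
    (B : (W.H X₁ →ₗ[W.K] W.H Y₁) →ₗ[W.K] (W.H X₂ →ₗ[W.K] W.H Y₂) →ₗ[W.K]
      (W.H X₃ →ₗ[W.K] W.H Y₃))
    (hB : ∀ γ δ, QOp W X₁ Y₁ d₁ γ → QOp W X₂ Y₂ d₂ δ → QOp W X₃ Y₃ d₃ (B γ δ))
    {Φ : (L →+* W.K) → (W.H X₁ →ₗ[W.K] W.H Y₁)} (h : Φ ∈ LFam L W X₁ Y₁ d₁)
    {Ψ : (L →+* W.K) → (W.H X₂ →ₗ[W.K] W.H Y₂)} (h' : Ψ ∈ LFam L W X₂ Y₂ d₂) :
    (fun τ => B (Φ τ) (Ψ τ)) ∈ LFam L W X₃ Y₃ d₃ := by
  induction h using AddSubmonoid.closure_induction with
  | mem Φ hΦ =>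
    obtain ⟨c, γ, hγ, rfl⟩ := hΦ
    induction h' using AddSubmonoid.closure_induction with
    | mem Ψ hΨ =>
      obtain ⟨c', δ, hδ, rfl⟩ := hΨ
      have h1 := gen (L := L) (c * c') (hB γ δ hγ hδ)
      have h2 : (fun τ : L →+* W.K => τ (c * c') • B γ δ) =
          fun τ => B (τ c • γ) (τ c' • δ) := by
        funext τ
        rw [map_mul, mul_smul, map_smul (B (τ c • γ)), map_smul B, LinearMap.smul_apply,
          smul_comm]
      rwa [h2] at h1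
    | zero =>
      have h2 : (fun τ : L →+* W.K => B ((fun τ => τ c • γ) τ)
          ((0 : (L →+* W.K) → (W.H X₂ →ₗ[W.K] W.H Y₂)) τ)) = 0 := by
        funext τ
        exact map_zero _
      rw [h2]
      exact AddSubmonoid.zero_mem _
    | add Ψ Ψ' _ _ h1 h2 =>
      have h3 : (fun τ : L →+* W.K => B ((fun τ => τ c • γ) τ) ((Ψ + Ψ') τ)) =
          (fun τ => B ((fun τ => τ c • γ) τ) (Ψ τ)) + fun τ => B ((fun τ => τ c • γ) τ) (Ψ' τ) := by
        funext τ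
        exact map_add _ _ _
      rw [h3]
      exact AddSubmonoid.add_mem _ h1 h2
  | zero =>
    have h2 : (fun τ : L →+* W.K => B ((0 : (L →+* W.K) → (W.H X₁ →ₗ[W.K] W.H Y₁)) τ) (Ψ τ)) =
        0 := by
      funext τ
      change B 0 (Ψ τ) = 0
      rw [map_zero]
      rfl
    rw [h2]
    exact AddSubmonoid.zero_mem _
  | add Φ Φ' _ _ h1 h2 =>
    have h3 : (fun τ : L →+* W.K => B ((Φ + Φ') τ) (Ψ τ)) =
        (fun τ => B (Φ τ) (Ψ τ)) + fun τ => B (Φ' τ) (Ψ τ) := by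
      funext τ
      change B (Φ τ + Φ' τ) (Ψ τ) = _
      rw [map_add]
      rfl
    rw [h3]
    exact AddSubmonoid.add_mem _ h1 h2

lemma comp {Φ : (L →+* W.K) → (W.H X →ₗ[W.K] W.H Y)} {Ψ : (L →+* W.K) → (W.H Y →ₗ[W.K] W.H Z)}
    (hΨ : Ψ ∈ LFam L W Y Z e) (hΦ : Φ ∈ LFam L W X Y d) :
    (fun τ => Ψ τ ∘ₗ Φ τ) ∈ LFam L W X Z (d + e) :=
  bilin (d₃ := d + e) (LinearMap.llcomp W.K (W.H X) (W.H Y) (W.H Z))
    (fun _ _ h1 h2 => QOp.comp h1 h2) hΨ hΦ

/-- The external product as a bilinear map. -/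
noncomputable def extLin (W : WeilCohomology.{u, v} ops) (X X' Y Y' : 𝒱.Obj) :
    (W.H X →ₗ[W.K] W.H X') →ₗ[W.K] (W.H Y →ₗ[W.K] W.H Y') →ₗ[W.K]
      (W.H (X.prod Y) →ₗ[W.K] W.H (X'.prod Y')) :=
  LinearMap.mk₂ W.K (fun φ ψ => R908.extHom W φ ψ) extHom_add_left extHom_smul_left
    (fun φ ψ ψ' => extHom_add_right φ ψ ψ') (fun c φ ψ => extHom_smul_right c φ ψ)

lemma ext {Φ : (L →+* W.K) → (W.H X →ₗ[W.K] W.H X')} {Ψ : (L →+* W.K) → (W.H Y →ₗ[W.K] W.H Y')}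
    (hΦ : Φ ∈ LFam L W X X' d) (hΨ : Ψ ∈ LFam L W Y Y' e) :
    (fun τ => R908.extHom W (Φ τ) (Ψ τ)) ∈ LFam L W (X.prod Y) (X'.prod Y') (d + e) :=
  bilin (d₃ := d + e) (extLin W X X' Y Y') (fun _ _ h1 h2 => qop_extHom h1 h2) hΦ hΨ

/-- The traces of a family are the conjugates of one element of `L`. -/
lemma trace {Φ : (L →+* W.K) → (W.H X →ₗ[W.K] W.H X)} (h : Φ ∈ LFam L W X X 0) :
    ∃ ρ : L, ∀ τ, LinearMap.trace W.K (W.H X) (par (W.isInternal X) * Φ τ) = τ ρ := by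
  induction h using AddSubmonoid.closure_induction with
  | mem Φ hΦ =>
    obtain ⟨c, γ, hγ, rfl⟩ := hΦ
    obtain ⟨q, hq⟩ := qop_trace hγ
    by_cases hτ : Nonempty (L →+* W.K)
    · obtain ⟨τ₀⟩ := hτ
      have : CharZero L := (RingHom.charZero_iff τ₀.injective).2 inferInstance
      refine ⟨c * (q : L), fun τ => ?_⟩
      rw [mul_smul_comm, map_smul, hq, smul_eq_mul, map_mul, map_ratCast]
    · exact ⟨0, fun τ => absurd ⟨τ⟩ hτ⟩
  | zero =>
    refine ⟨0, fun τ => ?_⟩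
    rw [Pi.zero_apply, mul_zero, map_zero, map_zero]
  | add Φ Φ' _ _ h1 h2 =>
    obtain ⟨ρ, h1⟩ := h1
    obtain ⟨ρ', h2⟩ := h2
    refine ⟨ρ + ρ', fun τ => ?_⟩
    rw [Pi.add_apply, mul_add, map_add, h1, h2, map_add]

lemma aeval {e : W.H X →ₗ[W.K] W.H X} (he : QOp W X X 0 e) (p : Polynomial L) :
    (fun τ : L →+* W.K => (Polynomial.aeval e (p.map τ) : W.H X →ₗ[W.K] W.H X)) ∈
      LFam L W X X 0 := by
  induction p using Polynomial.induction_on' with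
  | add p q hp hq =>
    have h1 := add hp hq
    refine (congrArg (· ∈ LFam L W X X 0) ?_).mp h1
    funext τ
    rw [Polynomial.map_add, map_add]
  | monomial n a =>
    have h1 := gen (L := L) a (qop_pow he n)
    refine (congrArg (· ∈ LFam L W X X 0) ?_).mp h1
    funext τ
    rw [Polynomial.map_monomial, Polynomial.aeval_monomial, Algebra.smul_def]

end LFam

end Pool.Agent.V5helper85.AB
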