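import Mathlib

/-!
# Filtrations of vector spaces indexed by real numbers: adapted bases, traces and total weights
-/

open Module

namespace Pool.Agent.V5helper85.AB

variable {K : Type*} [Field K] {V : Type*} [AddCommGroup V] [Module K V]
  {V' : Type*} [AddCommGroup V'] [Module K V']

/-- The element `x` has weight bigger than `t`. -/
def Up (F : ℝ → Submodule K V) (t : ℝ) (x : V) : Prop := ∃ t' > t, x ∈ F t'

section Up

variable {F : ℝ → Submodule K V} (hF : Antitone F) {t : ℝ} {x y : V}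

lemma Up.zero : Up F t 0 := ⟨t + 1, by linarith, Submodule.zero_mem _⟩

lemma Up.smul (c : K) (h : Up F t x) : Up F t (c • x) := by
  obtain ⟨t', ht, hx⟩ := h
  exact ⟨t', ht, Submodule.smul_mem _ _ hx⟩

lemma Up.neg (h : Up F t x) : Up F t (-x) := by
  obtain ⟨t', ht, hx⟩ := h
  exact ⟨t', ht, Submodule.neg_mem _ hx⟩

include hF in
lemma Up.add (h : Up F t x) (h' : Up F t y) : Up F t (x + y) := by
  obtain ⟨t1, ht1, hx⟩ := h
  obtain ⟨t2, ht2, hy⟩ := h'
  refine ⟨min t1 t2, lt_min ht1 ht2, Submodule.add_mem _ (hF (min_le_left _ _) hx)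
    (hF (min_le_right _ _) hy)⟩

include hF in
lemma Up.sum {ι : Type*} {s : Finset ι} {f : ι → V} (h : ∀ i ∈ s, Up F t (f i)) :
    Up F t (∑ i ∈ s, f i) := by
  classical
  induction s using Finset.induction_on with
  | empty => rw [Finset.sum_empty]; exact Up.zero
  | insert a s ha ih =>
    rw [Finset.sum_insert ha]
    exact Up.add hF (h a (by simp)) (ih (fun i hi => h i (by simp [hi])))

include hF in
lemma Up.mem (h : Up F t x) : x ∈ F t := by
  obtain ⟨t', ht, hx⟩ := h
  exact hF ht.le hx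

lemma Up.of_mem {s : ℝ} (hs : t < s) (hx : x ∈ F s) : Up F t x := ⟨s, hs, hx⟩

lemma Up.map {F' : ℝ → Submodule K V'} {f : V → V'} (hf : ∀ t, ∀ x ∈ F t, f x ∈ F' t)
    (h : Up F t x) : Up F' t (f x) := by
  obtain ⟨t', ht, hx⟩ := h
  exact ⟨t', ht, hf _ _ hx⟩

end Up

/-- The basis `e` is adapted to the filtration `F`, with the weights `w`. -/
structure Adapted {ι : Type*} (F : ℝ → Submodule K V) (e : Basis ι K V) (w : ι → ℝ) : Prop where
  mem : ∀ i, e i ∈ F (w i)
  coord : ∀ t, ∀ x ∈ F t, ∀ i, e.coord i x ≠ 0 → t ≤ w i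

namespace Adapted

variable {ι : Type*} {F : ℝ → Submodule K V} {e : Basis ι K V} {w : ι → ℝ}

lemma coord_up (A : Adapted F e w) {i : ι} {x : V} (h : Up F (w i) x) : e.coord i x = 0 := by
  obtain ⟨t, ht, hx⟩ := h
  by_contra hne
  have := A.coord t x hx i hne
  linarith

lemma mem_iff [Fintype ι] (A : Adapted F e w) (hF : Antitone F) {t : ℝ} {x : V} :
    x ∈ F t ↔ ∀ i, e.coord i x ≠ 0 → t ≤ w i := by
  refine ⟨fun h i => A.coord t x h i, fun h => ?_⟩
  rw [← e.sum_repr x]
  refine Submodule.sum_mem _ fun i _ => ?_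
  by_cases h0 : e.coord i x = 0
  · have h1 : e.repr x i = 0 := h0
    rw [h1, zero_smul]
    exact Submodule.zero_mem _
  · exact Submodule.smul_mem _ _ (hF (h i h0) (A.mem i))

/-- The diagonal operator with the weights. -/
noncomputable def _root_.Pool.Agent.V5helper85.AB.dg [Fintype ι] (e : Basis ι K V) (w : ι → ℝ)
    (φ : ℝ →+ ℚ) : Module.End K V :=
  ∑ i, ((φ (w i) : ℚ) : K) • (e.coord i).smulRight (e i)

lemma dg_apply [Fintype ι] (e : Basis ι K V) (w : ι → ℝ) (φ : ℝ →+ ℚ) (x : V) :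
    dg e w φ x = ∑ i, (((φ (w i) : ℚ) : K) * e.coord i x) • e i := by
  rw [dg, LinearMap.sum_apply]
  refine Finset.sum_congr rfl fun i _ => ?_
  rw [LinearMap.smul_apply, LinearMap.smulRight_apply, smul_smul]

/-- The operator `R` acts as the scalar `φ t` on the part of weight `t`. -/
def _root_.Pool.Agent.V5helper85.AB.ActsBy (F : ℝ → Submodule K V) (φ : ℝ →+ ℚ)
    (R : V →ₗ[K] V) : Prop :=
  ∀ t, ∀ x ∈ F t, Up F t (R x - ((φ t : ℚ) : K) • x)

lemma dg_acts [Fintype ι] (A : Adapted F e w) (hF : Antitone F) (φ : ℝ →+ ℚ) :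
    ActsBy F φ (dg e w φ) := by
  intro t x hx
  have h1 : dg e w φ x - ((φ t : ℚ) : K) • x =
      ∑ i, ((((φ (w i) : ℚ) : K) - ((φ t : ℚ) : K)) * e.coord i x) • e i := by
    conv_lhs => rw [dg_apply, ← e.sum_repr x]
    rw [Finset.smul_sum, ← Finset.sum_sub_distrib]
    refine Finset.sum_congr rfl fun i _ => ?_
    rw [smul_smul, ← sub_smul, sub_mul, e.sum_repr]
    rfl
  rw [h1]
  refine Up.sum hF fun i _ => ?_
  by_cases h0 : e.coord i x = 0
  · rw [h0, mul_zero, zero_smul]
    exact Up.zero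
  · rcases (A.coord t x hx i h0).lt_or_eq with h2 | h2
    · exact Up.smul _ ⟨w i, h2, A.mem i⟩
    · rw [h2, sub_self, zero_mul, zero_smul]
      exact Up.zero

/-- The trace of an operator which acts by scalars on the graded pieces. -/
lemma trace_eq [Fintype ι] (A : Adapted F e w) {φ : ℝ →+ ℚ} {R : V →ₗ[K] V}
    (h : ActsBy F φ R) : LinearMap.trace K V R = ∑ i, ((φ (w i) : ℚ) : K) := by
  classical
  rw [LinearMap.trace_eq_matrix_trace K e, Matrix.trace]
  refine Finset.sum_congr rfl fun i _ => ?_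
  rw [Matrix.diag_apply, LinearMap.toMatrix_apply]
  have h1 := A.coord_up (h (w i) (e i) (A.mem i))
  rw [map_sub, map_smul, Basis.coord_apply, Basis.coord_apply, Basis.repr_self,
    Finsupp.single_eq_same, smul_eq_mul, mul_one, sub_eq_zero] at h1
  exact h1

/-- An operator which raises the weights has trace zero. -/
lemma trace_zero [Fintype ι] (A : Adapted F e w) {R : V →ₗ[K] V}
    (h : ∀ t, ∀ x ∈ F t, Up F t (R x)) : LinearMap.trace K V R = 0 := by
  have h1 : ActsBy F 0 R := by
    intro t x hx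
    have h2 : (((0 : ℝ →+ ℚ) t : ℚ) : K) = 0 := by
      rw [AddMonoidHom.zero_apply, Rat.cast_zero]
    rw [h2, zero_smul, sub_zero]
    exact h t x hx
  rw [A.trace_eq h1]
  refine Finset.sum_eq_zero fun i _ => ?_
  rw [AddMonoidHom.zero_apply, Rat.cast_zero]

end Adapted

/-- A non-zero product in the determinant of an isomorphism. -/
lemma exists_perm {ι : Type*} [Fintype ι] (e : Basis ι K V) (e' : Basis ι K V') (f : V ≃ₗ[K] V') :
    ∃ σ : Equiv.Perm ι, ∀ i, e'.coord (σ i) (f (e i)) ≠ 0 := by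
  classical
  have h1 : (LinearMap.toMatrix e e' f.toLinearMap).det ≠ 0 := by
    intro h0
    have h2 : LinearMap.toMatrix e' e f.symm.toLinearMap * LinearMap.toMatrix e e' f.toLinearMap =
        1 := by
      rw [← LinearMap.toMatrix_comp, ← LinearEquiv.coe_trans, LinearEquiv.self_trans_symm]
      exact LinearMap.toMatrix_id e
    have h3 := congrArg Matrix.det h2
    rw [Matrix.det_mul, h0, mul_zero, Matrix.det_one] at h3
    exact zero_ne_one h3
  rw [Matrix.det_apply] at h1
  obtain ⟨σ, -, hσ⟩ := Finset.exists_ne_zero_of_sum_ne_zero h1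
  refine ⟨σ, fun i hi => hσ ?_⟩
  have h4 : ∏ i, LinearMap.toMatrix e e' f.toLinearMap (σ i) i = 0 := by
    apply Finset.prod_eq_zero (Finset.mem_univ i)
    rw [LinearMap.toMatrix_apply]
    exact hi
  rw [h4, smul_zero]

/-- The total weight is at least the sum of the weights of the members of any basis. -/
lemma Adapted.sum_le {ι : Type*} [Fintype ι] {F : ℝ → Submodule K V} {e : Basis ι K V}
    {w : ι → ℝ} (A : Adapted F e w) (y : Basis ι K V) {c : ι → ℝ} (hy : ∀ i, y i ∈ F (c i)) :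
    ∑ i, c i ≤ ∑ i, w i := by
  obtain ⟨σ, hσ⟩ := exists_perm y e (LinearEquiv.refl K V)
  calc ∑ i, c i ≤ ∑ i, w (σ i) := Finset.sum_le_sum fun i _ => A.coord _ _ (hy i) _ (hσ i)
    _ = ∑ i, w i := Equiv.sum_comp σ w

lemma Adapted.finrank {ι : Type*} [Fintype ι] {F : ℝ → Submodule K V} {e : Basis ι K V}
    {w : ι → ℝ} (A : Adapted F e w) (hF : Antitone F) (t : ℝ) :
    Module.finrank K (F t) = Fintype.card {i // t ≤ w i} := by
  classical
  have h1 : F t = Submodule.span K (Set.range fun i : {i // t ≤ w i} => e i) := by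
    apply le_antisymm
    · intro x hx
      rw [← e.sum_repr x]
      refine Submodule.sum_mem _ fun i _ => ?_
      by_cases h0 : e.coord i x = 0
      · have h1 : e.repr x i = 0 := h0
        rw [h1, zero_smul]
        exact Submodule.zero_mem _
      · exact Submodule.smul_mem _ _ (Submodule.subset_span ⟨⟨i, A.coord t x hx i h0⟩, rfl⟩)
    · refine Submodule.span_le.2 ?_
      rintro _ ⟨i, rfl⟩
      exact hF i.2 (A.mem i)
  rw [h1]
  exact finrank_span_eq_card (e.linearIndependent.comp _ Subtype.val_injective)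

/-- A filtered isomorphism between spaces of the same total weight is strict. -/
lemma strict_of_sum {ι : Type*} [Fintype ι] {F : ℝ → Submodule K V} {e : Basis ι K V}
    {w : ι → ℝ} (A : Adapted F e w) (hF : Antitone F) {F' : ℝ → Submodule K V'}
    {e' : Basis ι K V'} {w' : ι → ℝ} (A' : Adapted F' e' w') (hF' : Antitone F')
    (f : V ≃ₗ[K] V') (hf : ∀ t, ∀ x ∈ F t, f x ∈ F' t) (hsum : ∑ i, w' i ≤ ∑ i, w i) (t : ℝ)
    {y : V'} (hy : y ∈ F' t) : f.symm y ∈ F t := by
  classical
  obtain ⟨σ, hσ⟩ := exists_perm e e' f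
  have h1 : ∀ i, w i ≤ w' (σ i) := fun i => A'.coord _ _ (hf _ _ (A.mem i)) _ (hσ i)
  have h2 : ∑ i, w i = ∑ i, w' (σ i) := by
    apply le_antisymm (Finset.sum_le_sum fun i _ => h1 i)
    rw [Equiv.sum_comp σ w']
    exact hsum
  have h3 : ∀ i, w i = w' (σ i) := fun i =>
    (Finset.sum_eq_sum_iff_of_le fun i _ => h1 i).1 h2 i (Finset.mem_univ i)
  have h4 : Module.finrank K (F t) = Module.finrank K (F' t) := by
    rw [A.finrank hF, A'.finrank hF']
    refine Fintype.card_congr (Equiv.subtypeEquiv σ fun i => ?_)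
    rw [h3 i]
  have : Module.Finite K V' := Module.Finite.of_basis e'
  have : Module.Finite K V := Module.Finite.of_basis e
  have h5 : (F t).map f.toLinearMap = F' t := by
    apply Submodule.eq_of_le_of_finrank_eq
    · rintro _ ⟨x, hx, rfl⟩
      exact hf t x hx
    · rw [← h4]
      exact LinearEquiv.finrank_map_eq f (F t)
  rw [← h5] at hy
  obtain ⟨x, hx, rfl⟩ := hy
  have h6 : f.symm (f.toLinearMap x) = x := f.symm_apply_apply x
  rw [h6]
  exact hx

end Pool.Agent.V5helper85.AB
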