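import Pool.Agent.N180.CfL
import Pool.Agent.V5helper85.AB.La

/-!
# Algebraic operators between products respect the filtration
-/

open CategoryTheory AlgebraicGeometry TensorProduct Function

universe u v w w'

set_option linter.unusedSectionVars false

namespace Pool.Agent.V5helper85.AB

open Pool.Agent.H914 Pool.Agent.H914.VarClass Pool.Agent.H914.VarClass.Obj
  Pool.Agent.H914.WeilCohomology Pool.Agent.R908 Pool.Agent.R908.Km
  Pool.Agent.H281R3.HT Pool.Agent.N180.Cf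

variable {k : Type u} [Field k] {𝒱 : VarClass k} {ops : CycleOps 𝒱}
  {W : WeilCohomology.{u, v} ops} {X Y Z X' Y' Z' : 𝒱.Obj} {𝒴 : Set 𝒱.Obj}

lemma prodFil_anti (U : ℝ → Submodule W.K (W.H X)) (n : ℕ) : Antitone (prodFil W U Y n) := by
  intro s t hst
  apply Submodule.span_mono
  rintro c ⟨x, s', y, hx, hs, h⟩
  exact ⟨x, s', y, hx, hst.trans hs, h⟩

/-- The sum over the two parts of the slots. -/
lemma sum_slots {m n : ℕ} (s : Fin m → ℝ) (s' : Fin n → ℝ) :
    ∑ i : Fin (n + m), (if h : (i : ℕ) < m then s ⟨i, h⟩ else s' ⟨i - m, by omega⟩) =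
      ∑ i, s i + ∑ i, s' i := by
  rw [← (finCongr (add_comm m n)).sum_comp, Fin.sum_univ_add]
  congr 1
  · refine Finset.sum_congr rfl fun i _ => ?_
    have h1 : ((finCongr (add_comm m n) (Fin.castAdd n i) : Fin (n + m)) : ℕ) < m := i.2
    rw [dif_pos h1]
    rfl
  · refine Finset.sum_congr rfl fun i _ => ?_
    have h1 : ¬ ((finCongr (add_comm m n) (Fin.natAdd m i) : Fin (n + m)) : ℕ) < m := by
      simp
    rw [dif_neg h1]
    congr 1
    apply Fin.ext
    simp

/-- The weights of the values of an algebraic class on a product. -/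
lemma value {κ : W.H X →ₗ[W.K] W.H X} (hκ : IsSign W X κ)
    {U : ℝ → Submodule W.K (W.H X)} {N : ℕ} (hU : Good W X 𝒴 N U) {m n : ℕ} (hmn : n + m ≤ N)
    (hY : IsProductOf 𝒴 Y) (hY' : IsProductOf 𝒴 Y') {j : ℤ}
    {γ : W.H ((pX X Y m).prod (pX X Y' n))} (hγ : γ ∈ spanCycles W _ j)
    {x : Fin m → W.H X} {s : Fin m → ℝ} (hx : ∀ i, x i ∈ U (s i)) {p : ℕ} {y : W.H Y}
    (hy : y ∈ W.gr Y p) {z : Fin n → W.H X} {s' : Fin n → ℝ} (hz : ∀ i, z i ∈ U (s' i)) {q : ℕ}
    {g : W.H Y' →ₗ[W.K] W.K} (hg : Par W q g)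
    (hne : tens W (msl W m (fun i => bil W X (x i)) (bil W Y y))
      (msl W n (fun i => bil W X (z i)) g) γ ≠ 0) :
    ∑ i, s i + ∑ i, s' i ≤ 0 ∧ (NumTriv W _ γ → ∑ i, s i + ∑ i, s' i < 0) := by
  obtain ⟨Φ, hΦ, h⟩ := exists_prodP hκ Y Y' p n m
  set v : Fin (n + m) → W.H X :=
    fun i => if h : (i : ℕ) < m then x ⟨i, h⟩ else z ⟨i - m, by omega⟩ with hv
  set t : Fin (n + m) → ℝ :=
    fun i => if h : (i : ℕ) < m then s ⟨i, h⟩ else s' ⟨i - m, by omega⟩ with ht
  have hvt : ∀ i, v i ∈ U (t i) := by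
    intro i
    rw [hv, ht]
    beta_reduce
    split_ifs with h1
    · exact hx _
    · exact hz _
  have hpY : Par W p (bil W Y y) := par_bil hy
  have h1 := h (fun i => bil W X (v i)) (bil W Y y) g hpY
  have e1 : (fun i : Fin m => bil W X (v ⟨i, by omega⟩)) = fun i => bil W X (x i) := by
    funext i
    have h2 : ((⟨i, by omega⟩ : Fin (n + m)) : ℕ) < m := i.2
    rw [hv]
    beta_reduce
    rw [dif_pos h2]
  have e2 : (fun j : Fin n => bil W X (v ⟨m + j, by omega⟩)) = fun j => bil W X (z j) := by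
    funext j
    have h2 : ¬ ((⟨m + j, by omega⟩ : Fin (n + m)) : ℕ) < m := by
      change ¬ (m + (j : ℕ) < m)
      omega
    rw [hv]
    beta_reduce
    rw [dif_neg h2]
    congr 2
    apply Fin.ext
    change m + (j : ℕ) - m = j
    omega
  rw [e1, e2] at h1
  have h3 := congrArg (fun G => G γ) h1
  beta_reduce at h3
  rw [LinearMap.comp_apply] at h3
  rw [← h3] at hne
  have hsp := KOp.map_span hΦ hγ
  have hpar := Par.tens hpY hg
  rw [← sum_slots s s']
  constructor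
  · exact hU.fform (n + m) hmn _ (GF_gen ⟨Y.prod Y', p + q, tens W (bil W Y y) g, _, Φ γ,
      IsProductOf.prod hY hY', hpar, hsp, fun h => h.elim, rfl⟩) v t hvt hne
  · intro hnum
    exact hU.tform (n + m) hmn _ (GF_gen ⟨Y.prod Y', p + q, tens W (bil W Y y) g, _, Φ γ,
      IsProductOf.prod hY hY', hpar, hsp, fun _ => NumTriv.op hΦ hnum, rfl⟩) v t hvt hne

/-- The values of an algebraic operator, in terms of the class. -/
lemma tens_corr {P Q : 𝒱.Obj} {j : ℤ} {γ : W.H (P.prod Q)} (hγ : γ ∈ spanCycles W _ j) (c : W.H P)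
    (g : W.H Q →ₗ[W.K] W.K) : tens W (bil W P c) g γ = g (W.corr γ c) := by
  rw [tens, LinearMap.comp_apply, sl_bil, ← span_comm hγ]
  rfl

lemma msl_tv {m : ℕ} (x : Fin m → W.H X) (y : W.H Y) :
    bil W (pX X Y m) (tv W m x y) = msl W m (fun i => bil W X (x i)) (bil W Y y) := by
  apply LinearMap.ext
  intro β
  exact tr_tv m x y β

/-- The weights of the image of an elementary class. -/
lemma image_tv {κ : W.H X →ₗ[W.K] W.H X} (hκ : IsSign W X κ)
    {U : ℝ → Submodule W.K (W.H X)} {N : ℕ} (hU : Good W X 𝒴 N U) {m n : ℕ} (hmn : n + m ≤ N)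
    (hY : IsProductOf 𝒴 Y) (hY' : IsProductOf 𝒴 Y') {j : ℤ}
    {γ : W.H ((pX X Y m).prod (pX X Y' n))} (hγ : γ ∈ spanCycles W _ j)
    {x : Fin m → W.H X} {s : Fin m → ℝ} (hx : ∀ i, x i ∈ U (s i)) {p : ℕ} {y : W.H Y}
    (hy : y ∈ W.gr Y p) {t : ℝ} (ht : t ≤ ∑ i, s i) :
    W.corr γ (tv W m x y) ∈ prodFil W U Y' n t ∧
      (NumTriv W _ γ → Up (prodFil W U Y' n) t (W.corr γ (tv W m x y))) := by
  obtain ⟨l, e, w, he, hw⟩ := exists_adapted U hU.jumps
  choose u hu hbu using exists_dual hκ hU e w hw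
  have key : ∀ I : Fin n → Fin l,
      msr W n (fun i => e.coord (I i)) (W.corr γ (tv W m x y)) ≠ 0 →
        t ≤ ∑ i, w (I i) ∧ (NumTriv W _ γ → 0 < ∑ i, w (I i) - t) := by
    intro I hI
    obtain ⟨q, g, hq, hg⟩ := exists_par hI
    have h2 : (fun i => bil W X (u (I i))) = fun i => e.coord (I i) := by
      funext i
      exact hbu _
    have h1 := value hκ hU hmn hY hY' hγ hx hy (z := fun i => u (I i))
      (s' := fun i => - w (I i)) (fun i => hu (I i)) hq (by
        rw [h2, ← msl_tv, tens_corr hγ, msl_msr]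
        exact hg)
    rw [Finset.sum_neg_distrib] at h1
    refine ⟨by linarith [h1.1], fun hnum => ?_⟩
    have h3 := h1.2 hnum
    linarith
  refine ⟨mem_prodFil e w he n t _ fun I hI => (key I hI).1, fun hnum => ?_⟩
  obtain ⟨r, hr, hr1⟩ := exists_pos_le (fun I : Fin n → Fin l => ∑ i, w (I i) - t)
  refine ⟨t + r, by linarith, mem_prodFil e w he n (t + r) _ fun I hI => ?_⟩
  have h1 := hr1 I ((key I hI).2 hnum)
  linarith

/-- **Algebraic operators respect the filtration, and numerically trivial ones raise the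
weights.** -/
theorem corr_fil {κ : W.H X →ₗ[W.K] W.H X} (hκ : IsSign W X κ)
    {U : ℝ → Submodule W.K (W.H X)} {N : ℕ} (hU : Good W X 𝒴 N U) {m n : ℕ} (hmn : n + m ≤ N)
    (hY : IsProductOf 𝒴 Y) (hY' : IsProductOf 𝒴 Y') {j : ℤ}
    {γ : W.H ((pX X Y m).prod (pX X Y' n))} (hγ : γ ∈ spanCycles W _ j) {t : ℝ}
    {z : W.H (pX X Y m)} (hz : z ∈ prodFil W U Y m t) :
    W.corr γ z ∈ prodFil W U Y' n t ∧
      (NumTriv W _ γ → Up (prodFil W U Y' n) t (W.corr γ z)) := by
  have hanti := prodFil_anti (Y := Y') U n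
  induction hz using Submodule.span_induction with
  | mem z hz =>
    obtain ⟨x, s, y, hx, hs, rfl⟩ := hz
    have h1 := box_mem hκ hU m x s y hx
    generalize box W m x y = b0 at h1
    induction h1 using Submodule.span_induction with
    | mem c hc =>
      obtain ⟨x', p, y', hx', hy', rfl⟩ := hc
      exact image_tv hκ hU hmn hY hY' hγ hx' hy' hs
    | zero =>
      rw [map_zero]
      exact ⟨Submodule.zero_mem _, fun _ => Up.zero⟩
    | add a b _ _ ha hb =>
      rw [map_add]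
      exact ⟨Submodule.add_mem _ ha.1 hb.1, fun h => Up.add hanti (ha.2 h) (hb.2 h)⟩
    | smul c a _ ha =>
      rw [map_smul]
      exact ⟨Submodule.smul_mem _ _ ha.1, fun h => Up.smul _ (ha.2 h)⟩
  | zero =>
    rw [map_zero]
    exact ⟨Submodule.zero_mem _, fun _ => Up.zero⟩
  | add a b _ _ ha hb =>
    rw [map_add]
    exact ⟨Submodule.add_mem _ ha.1 hb.1, fun h => Up.add hanti (ha.2 h) (hb.2 h)⟩
  | smul c a _ ha =>
    rw [map_smul]
    exact ⟨Submodule.smul_mem _ _ ha.1, fun h => Up.smul _ (ha.2 h)⟩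

end Pool.Agent.V5helper85.AB
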