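import Pool.Agent.V5helper85.AB.Alg

/-!
# The Lefschetz standard conjecture from the vanishing of the total weights
-/

open CategoryTheory AlgebraicGeometry Function

universe u v w w'

set_option linter.unusedSectionVars false

namespace Pool.Agent.V5helper85.AB

open Pool.Agent.H914 Pool.Agent.H914.VarClass Pool.Agent.H914.VarClass.Obj
  Pool.Agent.H914.WeilCohomology Pool.Agent.R908 Pool.Agent.H447

variable {k : Type u} [Field k] {𝒱 : VarClass k} {ops : CycleOps 𝒱}
  {W : WeilCohomology.{u, v} ops} {V : 𝒱.Obj}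

/-- A filtration of `H(V)` which is preserved by all algebraic correspondences, and for which the
numerically trivial ones raise the weights. -/
structure NumFil (W : WeilCohomology.{u, v} ops) (V : 𝒱.Obj) (F : ℝ → Submodule W.K (W.H V)) :
    Prop where
  cf : CF F
  op : ∀ (d : ℤ) (φ : W.H V →ₗ[W.K] W.H V), φ ∈ KOp W V V d → ∀ t, ∀ x ∈ F t, φ x ∈ F t
  nt : ∀ (d : ℤ) (φ : W.H V →ₗ[W.K] W.H V), NTOp W V V d φ → ∀ t, ∀ x ∈ F t, Up F t (φ x)

/-- The total weight of `H^i(V)` is zero, for all `i`. -/
def TotalZero (W : WeilCohomology.{u, v} ops) (V : 𝒱.Obj) (F : ℝ → Submodule W.K (W.H V)) :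
    Prop :=
  ∀ (i l : ℕ) (e : Module.Basis (Fin l) W.K (W.gr V i)) (w : Fin l → ℝ),
    Adapted (fun t => (F t).comap (W.gr V i).subtype) e w → ∑ j, w j = 0

/-- **Vanishing of the total weights implies the Lefschetz standard conjecture.** -/
theorem lefB_of_weights {F : ℝ → Submodule W.K (W.H V)} (hF : NumFil W V F)
    (hpr : ∀ i, proj (W.isInternal V) i ∈ KOp W V V 0) (hw : TotalZero W V F)
    {E : V.Cycles} (hE : V.IsCyc 1 E) (hHL : HardLefschetz W V E) : LefschetzB W V E := by
  refine ((num_tfae hE hHL).out 3 0).1 ?_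
  intro c h1 hc τ hτ γ hγ horth
  have hLh : IsHom (W.gr V) 2 (LinearMap.mulLeft W.K (W.cl V E)) := by
    simpa using rop_opAlg.hom (rop_mulLeft (W := W) hE)
  set L : Module.End W.K (W.H V) := LinearMap.mulLeft W.K (W.cl V E) with hL
  set n := V.dim with hn
  -- the powers of the Lefschetz operator as isomorphisms
  have hmem : ∀ x ∈ W.gr V (n - c), (L ^ c) x ∈ W.gr V (n + c) := by
    intro x hx
    have h2 := pow_L_mem hLh hx c
    rwa [show n - c + 2 * c = n + c by omega] at h2
  set Lc : W.gr V (n - c) →ₗ[W.K] W.gr V (n + c) := (L ^ c).restrict hmem with hLc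
  have hinj : Injective Lc := by
    rw [injective_iff_map_eq_zero]
    intro x hx
    apply Subtype.ext
    have h2 := (hHL (n - c) (by omega)).1 x x.2
    rw [show V.dim - (n - c) = c by omega] at h2
    exact h2 (congrArg Subtype.val hx)
  have hsurj : Surjective Lc := by
    rintro ⟨y, hy⟩
    obtain ⟨x, hx, h2⟩ := surj_pow hHL hc hy
    exact ⟨⟨x, hx⟩, Subtype.ext h2⟩
  set f := LinearEquiv.ofBijective Lc ⟨hinj, hsurj⟩ with hf
  have hfa : ∀ x, ((f x : W.gr V (n + c)) : W.H V) = (L ^ c) (x : W.H V) := fun x => rfl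
  obtain ⟨l, e, w, he⟩ := (hF.cf.comap (f := (W.gr V (n - c)).subtype)
    Subtype.val_injective).exists_adapted
  obtain ⟨l', e', w', he'⟩ := (hF.cf.comap (f := (W.gr V (n + c)).subtype)
    Subtype.val_injective).exists_adapted
  obtain rfl : l' = l := by
    have h2 := Module.finrank_eq_card_basis e
    have h3 := Module.finrank_eq_card_basis e'
    have h4 := f.finrank_eq
    rw [Fintype.card_fin] at h2 h3
    omega
  have hLop : ∀ m t, ∀ x ∈ F t, (L ^ m) x ∈ F t := by
    intro m
    induction m with
    | zero => exact fun t x hx => hx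
    | succ m ih =>
      intro t x hx
      rw [pow_succ']
      exact hF.op 1 L (qop_mul hE).kop t _ (ih t x hx)
  have hstrict : ∀ t, ∀ y : W.gr V (n + c), (y : W.H V) ∈ F t →
      ((f.symm y : W.gr V (n - c)) : W.H V) ∈ F t := by
    intro t y hy
    exact strict_of_sum he (hF.cf.comap (f := (W.gr V (n - c)).subtype)
      Subtype.val_injective).anti he' (hF.cf.comap (f := (W.gr V (n + c)).subtype)
      Subtype.val_injective).anti f (fun t x hx => hLop c t _ hx)
      (by rw [hw _ _ _ _ he, hw _ _ _ _ he']) t hy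
  -- the inverse operator preserves the filtration
  have hT : ∀ t, ∀ x ∈ F t, W.corr τ x ∈ F t := by
    intro t x hx
    set y := proj (W.isInternal V) (n + c) x with hy
    have hy1 : y ∈ F t := hF.op 0 _ (hpr (n + c)) t x hx
    have hy2 : y ∈ W.gr V (n + c) := H914.proj_mem _ _ _
    have h2 : W.corr τ x = W.corr τ y := by
      have h3 := sum_proj (W.isInternal V) (N := 2 * n + 1) W_hbd
      have h4 := congrArg (fun G : Module.End W.K (W.H V) => W.corr τ (G x)) h3
      beta_reduce at h4
      rw [LinearMap.sum_apply, map_sum, Module.End.one_apply,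
        Finset.sum_eq_single (n + c)] at h4
      · exact h4.symm
      · intro i _ hi
        exact hτ.2.2 i hi _ (H914.proj_mem _ _ _)
      · intro hni
        rw [Finset.mem_range, not_lt] at hni
        have h5 : proj (W.isInternal V) (n + c) x = 0 := by
          have h6 := H914.proj_mem (W.isInternal V) (n + c) x
          rw [W_hbd _ hni] at h6
          exact (Submodule.mem_bot _).1 h6
        rw [h5, map_zero]
    have h3 : W.corr τ y = ((f.symm ⟨y, hy2⟩ : W.gr V (n - c)) : W.H V) := by
      have h4 := hτ.2.1 _ (f.symm ⟨y, hy2⟩).2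
      have h5 : (L ^ c) ((f.symm ⟨y, hy2⟩ : W.gr V (n - c)) : W.H V) = y := by
        rw [← hfa, LinearEquiv.apply_symm_apply]
      rw [h5] at h4
      exact h4
    rw [h2, h3]
    exact hstrict t ⟨y, hy2⟩ hy1
  -- numerical triviality
  have hnum : NumTriv W (V.prod V) γ := by
    intro j g hg
    induction hg using Submodule.span_induction with
    | mem g hg =>
      obtain ⟨p, hp, z, hz, rfl⟩ := hg
      by_cases hpd : p = n - c
      · subst hpd
        have h2 := horth z hz
        rw [inter_def] at h2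
        rw [span_comm hγ]
        exact h2
      · have hγ' : γ ∈ W.gr (V.prod V) (2 * (n + c)) := H914.span_gr hγ
        refine W.tr_eq_zero (W.mul_mem hγ' (W.cl_mem hz)) ?_
        rw [dim_prod]
        omega
    | zero => rw [mul_zero, map_zero]
    | add a b _ _ ha hb => rw [mul_add, map_add, ha, hb, add_zero]
    | smul r a _ ha => rw [mul_smul_comm, map_smul, ha, smul_zero]
  have hu : NTOp W V V c (W.corr (W.map (swap V V) γ)) := by
    refine ⟨_, ?_, NumTriv.op (KOp.mapHom (W := W) (swap V V)) hnum, rfl⟩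
    have h2 := span_map (swap V V) hγ
    rwa [show ((V.dim + c : ℕ) : ℤ) = (V.dim : ℤ) + (c : ℤ) by push_cast; rfl] at h2
  rw [inter_def, tr_mul_eq_trace hτ.1, mul_assoc,
    IsInv.str_eq (W.isInternal V) hHL hc hτ.2]
  obtain ⟨l₀, e₀, w₀, h₀⟩ := hF.cf.exists_adapted
  rw [h₀.trace_zero, mul_zero]
  intro t x hx
  change Up F t (W.corr τ (W.corr (W.map (swap V V) γ) x))
  exact Up.map hT (hF.nt c _ hu t x hx)

end Pool.Agent.V5helper85.AB
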