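import Pool.Agent.V5helper85.AB.Alg

/-!
# Algebras of operators with a positive involution
-/

open Polynomial Function

set_option linter.unusedSectionVars false

namespace Pool.Agent.V5helper85.AB

universe v₁ v₂

variable {K : Type v₁} [Field K] [CharZero K] {H : Type v₂} [AddCommGroup H] [Module K H]

/-- The operators in `E`, which live on the image of the projector `π`, form an algebra over the
rational numbers with a positive involution, given by the pairing `B`. -/
structure PosAlg (E : Module.End K H → Prop) (π : Module.End K H) (B : H →ₗ[K] H →ₗ[K] K) :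
    Prop where
  one : E π
  left : ∀ x, E x → π * x = x
  right : ∀ x, E x → x * π = x
  mul : ∀ x y, E x → E y → E (x * y)
  add : ∀ x y, E x → E y → E (x + y)
  smul : ∀ (q : ℚ) x, E x → E ((q : K) • x)
  tr : ∀ x, E x → ∃ q : ℚ, LinearMap.trace K H x = q
  nondeg : ∀ x, π x = x → (∀ y, π y = y → B x y = 0) → x = 0
  symm : ∃ ε : K, ε ≠ 0 ∧ ∀ x y, π x = x → π y = y → B x y = ε * B y x
  adj : ∀ φ, E φ → ∃ ψ, E ψ ∧ ∀ x y, π x = x → π y = y → B (φ x) y = B x (ψ y)
  pos : ∀ φ ψ, E φ → E ψ → φ ≠ 0 → (∀ x y, π x = x → π y = y → B (φ x) y = B x (ψ y)) →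
    ∃ q : ℚ, 0 < q ∧ LinearMap.trace K H (φ * ψ) = q

/-- The operator `ψ` is the adjoint of `φ`. -/
def Adj (π : Module.End K H) (B : H →ₗ[K] H →ₗ[K] K) (φ ψ : Module.End K H) : Prop :=
  ∀ x y, π x = x → π y = y → B (φ x) y = B x (ψ y)

namespace PosAlg

variable {E : Module.End K H → Prop} {π : Module.End K H} {B : H →ₗ[K] H →ₗ[K] K}
  (hE : PosAlg E π B)

include hE

lemma idem : π * π = π := hE.left _ hE.one

lemma zero : E 0 := by
  have h1 := hE.smul 0 _ hE.one
  rwa [Rat.cast_zero, zero_smul] at h1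

lemma neg {x : Module.End K H} (hx : E x) : E (-x) := by
  have h1 := hE.smul (-1) _ hx
  rwa [Rat.cast_neg, Rat.cast_one, neg_smul, one_smul] at h1

lemma sub {x y : Module.End K H} (hx : E x) (hy : E y) : E (x - y) := by
  rw [sub_eq_add_neg]
  exact hE.add _ _ hx (hE.neg hy)

lemma sum {ι : Type*} {s : Finset ι} {F : ι → Module.End K H} (h : ∀ i ∈ s, E (F i)) :
    E (∑ i ∈ s, F i) := Finset.sum_induction F E hE.add hE.zero h

lemma apply_mem {φ : Module.End K H} (hφ : E φ) (x : H) : π (φ x) = φ x := by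
  change (π * φ) x = _
  rw [hE.left φ hφ]

lemma adj_unique {φ ψ ψ' : Module.End K H} (hψ : E ψ) (hψ' : E ψ') (h : Adj π B φ ψ)
    (h' : Adj π B φ ψ') : ψ = ψ' := by
  obtain ⟨ε, hε, hs⟩ := hE.symm
  have key : ∀ y, π y = y → ψ y = ψ' y := by
    intro y hy
    rw [← sub_eq_zero]
    have h0 : π (ψ y - ψ' y) = ψ y - ψ' y := by
      rw [map_sub, hE.apply_mem hψ, hE.apply_mem hψ']
    apply hE.nondeg _ h0
    intro x hx
    have h1 := hs x (ψ y - ψ' y) hx h0
    rw [map_sub, ← h x y hx hy, ← h' x y hx hy, sub_self] at h1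
    exact (mul_eq_zero.1 h1.symm).resolve_left hε
  apply LinearMap.ext
  intro y
  have h1 := key (π y) (by change (π * π) y = _; rw [hE.idem])
  have h2 : ψ (π y) = ψ y := by
    change (ψ * π) y = _
    rw [hE.right ψ hψ]
  have h3 : ψ' (π y) = ψ' y := by
    change (ψ' * π) y = _
    rw [hE.right ψ' hψ']
  rwa [h2, h3] at h1

lemma adj_symm {φ ψ : Module.End K H} (hφ : E φ) (hψ : E ψ) (h : Adj π B φ ψ) :
    Adj π B ψ φ := by
  obtain ⟨ε, hε, hs⟩ := hE.symm
  intro x y hx hy
  rw [hs _ _ (hE.apply_mem hψ x) hy, hs _ _ hx (hE.apply_mem hφ y), h y x hy hx]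

lemma adj_mul {φ ψ φ' ψ' : Module.End K H} (hφ' : E φ') (hψ : E ψ) (h : Adj π B φ ψ)
    (h' : Adj π B φ' ψ') : Adj π B (φ * φ') (ψ' * ψ) := by
  intro x y hx hy
  rw [Module.End.mul_apply, Module.End.mul_apply, h _ _ (hE.apply_mem hφ' x) hy,
    h' _ _ hx (hE.apply_mem hψ y)]

lemma eq_zero {φ ψ : Module.End K H} (hφ : E φ) (hψ : E ψ) (h : Adj π B φ ψ)
    (h0 : LinearMap.trace K H (φ * ψ) = 0) : φ = 0 := by
  by_contra hne
  obtain ⟨q, hq, h1⟩ := hE.pos φ ψ hφ hψ hne h
  rw [h0] at h1
  exact hq.ne' (Rat.cast_eq_zero.1 h1.symm)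

/-- The adjoint of a central operator is central. -/
lemma adj_central {φ ψ : Module.End K H} (hφ : E φ) (hψ : E ψ) (h : Adj π B φ ψ)
    (hc : ∀ χ, E χ → φ * χ = χ * φ) : ∀ χ, E χ → ψ * χ = χ * ψ := by
  intro χ hχ
  obtain ⟨χ', hχ', h1⟩ := hE.adj χ hχ
  have h1' := hE.adj_symm hχ hχ' h1
  have h2 := hE.adj_mul hφ hχ h1' h
  have h3 := hE.adj_mul hχ' hψ h h1'
  rw [hc χ' hχ'] at h3
  exact hE.adj_unique (hE.mul _ _ hψ hχ) (hE.mul _ _ hχ hψ) h2 h3

lemma sq_zero {z : Module.End K H} (hz : E z) (hc : ∀ χ, E χ → z * χ = χ * z)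
    (h0 : z * z = 0) : z = 0 := by
  obtain ⟨z', hz', h1⟩ := hE.adj z hz
  have h1' := hE.adj_symm hz hz' h1
  have h2 := hE.adj_mul hz' hz' h1 h1'
  have hw : E (z * z') := hE.mul _ _ hz hz'
  have h3 : z * z' = 0 := by
    apply hE.eq_zero hw hw h2
    have h4 : z * z' * (z * z') = 0 := by
      calc z * z' * (z * z') = z * (z' * z) * z' := by simp only [mul_assoc]
        _ = z * (z * z') * z' := by rw [hc z' hz']
        _ = (z * z) * (z' * z') := by simp only [mul_assoc]
        _ = 0 := by rw [h0, zero_mul]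
    rw [h4, map_zero]
  apply hE.eq_zero hz hz' h1
  rw [h3, map_zero]

/-- **Independence over `K`.** -/
lemma ind {ι : Type*} {s : Finset ι} {c : ι → K} {χ : ι → Module.End K H}
    (hχ : ∀ i ∈ s, E (χ i)) (h0 : ∀ y, E y → LinearMap.trace K H (y * ∑ i ∈ s, c i • χ i) = 0)
    (lam : K →ₗ[ℚ] ℚ) : ∑ i ∈ s, ((lam (c i) : ℚ) : K) • χ i = 0 := by
  have hy : E (∑ i ∈ s, ((lam (c i) : ℚ) : K) • χ i) := hE.sum fun i hi => hE.smul _ _ (hχ i hi)
  obtain ⟨ψ, hψ, h1⟩ := hE.adj _ hy
  apply hE.eq_zero hy hψ h1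
  choose q hq using fun i : s => hE.tr (ψ * χ i) (hE.mul _ _ hψ (hχ i i.2))
  have h2 := h0 ψ hψ
  rw [Finset.mul_sum, map_sum, ← Finset.sum_coe_sort] at h2
  have h3 : ∀ i : s, LinearMap.trace K H (ψ * c i • χ i) = q i • c i := by
    intro i
    rw [mul_smul_comm, map_smul, hq i, smul_eq_mul, mul_comm, Rat.smul_def]
  rw [Finset.sum_congr rfl fun i _ => h3 i] at h2
  have h4 := congrArg lam h2
  rw [map_sum, map_zero] at h4
  rw [LinearMap.trace_mul_comm, Finset.mul_sum, map_sum, ← Finset.sum_coe_sort]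
  have h5 : ∀ i : s, LinearMap.trace K H (ψ * ((lam (c i) : ℚ) : K) • χ i) =
      ((lam (q i • c i) : ℚ) : K) := by
    intro i
    rw [mul_smul_comm, map_smul, hq i, smul_eq_mul, map_smul, smul_eq_mul, Rat.cast_mul, mul_comm]
  rw [Finset.sum_congr rfl fun i _ => h5 i, ← Rat.cast_sum, h4, Rat.cast_zero]

omit hE in
/-- Finitely many elements of `K` in terms of a basis over the rational numbers. -/
lemma basis_exp {ι : Type*} (s : Finset ι) (c : ι → K) :
    ∃ (κ : Type v₁) (F : Finset κ) (b : κ → K) (lam : κ → (K →ₗ[ℚ] ℚ)),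
      ∀ i ∈ s, c i = ∑ k ∈ F, ((lam k (c i) : ℚ) : K) * b k := by
  classical
  set B := Module.Basis.ofVectorSpace ℚ K with hB
  refine ⟨_, s.biUnion fun i => (B.repr (c i)).support, B, fun k => B.coord k, fun i hi => ?_⟩
  have h1 := B.linearCombination_repr (c i)
  rw [Finsupp.linearCombination_apply, Finsupp.sum] at h1
  conv_lhs => rw [← h1]
  rw [Finset.sum_subset (Finset.subset_biUnion_of_mem (fun i => (B.repr (c i)).support) hi)]
  · refine Finset.sum_congr rfl fun k _ => ?_
    rw [Rat.smul_def]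
    rfl
  · intro k _ hk
    rw [Finsupp.notMem_support_iff] at hk
    rw [hk, zero_smul]

/-- **Nondegeneracy of the trace form on the span.** -/
lemma span_nondeg {y : Module.End K H} (hy : y ∈ Submodule.span K {x | E x})
    (h0 : ∀ y', E y' → LinearMap.trace K H (y' * y) = 0) : y = 0 := by
  obtain ⟨s, c, χ, hχ, rfl⟩ : ∃ (s : Finset (Module.End K H)) (c : Module.End K H → K)
      (χ : Module.End K H → Module.End K H), (∀ i ∈ s, E (χ i)) ∧ y = ∑ i ∈ s, c i • χ i := by
    obtain ⟨c, hc, h1⟩ := Submodule.mem_span_set.1 hy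
    refine ⟨c.support, c, id, fun i hi => hc hi, ?_⟩
    rw [← h1]
    rfl
  obtain ⟨κ, F, b, lam, hb⟩ := basis_exp s c
  have h1 : ∑ i ∈ s, c i • χ i = ∑ k ∈ F, b k • ∑ i ∈ s, ((lam k (c i) : ℚ) : K) • χ i := by
    simp only [Finset.smul_sum]
    rw [Finset.sum_comm]
    refine Finset.sum_congr rfl fun i hi => ?_
    conv_lhs => rw [hb i hi, Finset.sum_smul]
    refine Finset.sum_congr rfl fun k _ => ?_
    rw [smul_smul, mul_comm]
  rw [h1]
  refine Finset.sum_eq_zero fun k _ => ?_
  rw [hE.ind hχ h0, smul_zero]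

/-- **The centre of the span.** -/
lemma span_centre {e : Module.End K H}
    (hgen : ∀ z, E z → (∀ χ, E χ → z * χ = χ * z) → ∃ g : K[X], z = aeval e g * π)
    {y : Module.End K H} (hy : y ∈ Submodule.span K {x | E x})
    (hc : ∀ χ, E χ → y * χ = χ * y) : ∃ g : K[X], y = aeval e g * π := by
  obtain ⟨s, c, χ, hχ, rfl⟩ : ∃ (s : Finset (Module.End K H)) (c : Module.End K H → K)
      (χ : Module.End K H → Module.End K H), (∀ i ∈ s, E (χ i)) ∧ y = ∑ i ∈ s, c i • χ i := by
    obtain ⟨c, hc, h1⟩ := Submodule.mem_span_set.1 hy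
    refine ⟨c.support, c, id, fun i hi => hc hi, ?_⟩
    rw [← h1]
    rfl
  obtain ⟨κ, F, b, lam, hb⟩ := basis_exp s c
  have h1 : ∑ i ∈ s, c i • χ i = ∑ k ∈ F, b k • ∑ i ∈ s, ((lam k (c i) : ℚ) : K) • χ i := by
    simp only [Finset.smul_sum]
    rw [Finset.sum_comm]
    refine Finset.sum_congr rfl fun i hi => ?_
    conv_lhs => rw [hb i hi, Finset.sum_smul]
    refine Finset.sum_congr rfl fun k _ => ?_
    rw [smul_smul, mul_comm]
  have h2 : ∀ k, ∃ g : K[X], ∑ i ∈ s, ((lam k (c i) : ℚ) : K) • χ i = aeval e g * π := by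
    intro k
    apply hgen _ (hE.sum fun i hi => hE.smul _ _ (hχ i hi))
    intro ψ hψ
    have h3 : ∑ i ∈ s, c i • (χ i * ψ - ψ * χ i) = 0 := by
      have h4 := hc ψ hψ
      rw [Finset.sum_mul, Finset.mul_sum, ← sub_eq_zero, ← Finset.sum_sub_distrib] at h4
      rw [← h4]
      refine Finset.sum_congr rfl fun i _ => ?_
      rw [smul_sub, smul_mul_assoc, mul_smul_comm]
    have h5 := hE.ind (s := s) (c := c) (χ := fun i => χ i * ψ - ψ * χ i)
      (fun i hi => hE.sub (hE.mul _ _ (hχ i hi) hψ) (hE.mul _ _ hψ (hχ i hi)))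
      (fun y _ => by rw [h3, mul_zero, map_zero]) (lam k)
    rw [Finset.sum_mul, Finset.mul_sum, ← sub_eq_zero, ← Finset.sum_sub_distrib, ← h5]
    refine Finset.sum_congr rfl fun i _ => ?_
    rw [smul_sub, smul_mul_assoc, mul_smul_comm]
  choose g hg using h2
  refine ⟨∑ k ∈ F, C (b k) * g k, ?_⟩
  rw [h1, map_sum, Finset.sum_mul]
  refine Finset.sum_congr rfl fun k _ => ?_
  rw [hg k, map_mul, aeval_C, mul_assoc, ← Algebra.smul_def]

/-! ### Polynomials -/

lemma comm_pi {e : Module.End K H} (he : E e) : e * π = π * e := by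
  rw [hE.left e he, hE.right e he]

lemma aeval_mem {e : Module.End K H} (he : E e) (g : ℚ[X]) :
    E (aeval e (g.map (algebraMap ℚ K)) * π) := by
  induction g using Polynomial.induction_on' with
  | add p q hp hq =>
    rw [Polynomial.map_add, map_add, add_mul]
    exact hE.add _ _ hp hq
  | monomial n a =>
    rw [Polynomial.map_monomial, aeval_monomial, mul_assoc, ← Algebra.smul_def]
    have h1 : E (e ^ n * π) := by
      induction n with
      | zero => rw [pow_zero, one_mul]; exact hE.one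
      | succ n ih => rw [pow_succ', mul_assoc]; exact hE.mul _ _ he ih
    exact hE.smul a _ h1

lemma aeval_mul {e : Module.End K H} (he : E e) (g g' : K[X]) :
    aeval e (g * g') * π = (aeval e g * π) * (aeval e g' * π) := by
  rw [map_mul, mul_assoc, mul_assoc, ← mul_assoc π, ← pj_comm (hE.comm_pi he) g', mul_assoc,
    hE.idem]

lemma adj_aeval {e e' : Module.End K H} (he : E e) (he' : E e') (h : Adj π B e e') (g : ℚ[X]) :
    Adj π B (aeval e (g.map (algebraMap ℚ K)) * π) (aeval e' (g.map (algebraMap ℚ K)) * π) := by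
  induction g using Polynomial.induction_on' with
  | add p q hp hq =>
    intro x y hx hy
    rw [Polynomial.map_add, map_add, map_add, add_mul, add_mul, LinearMap.add_apply,
      LinearMap.add_apply, map_add, LinearMap.add_apply, map_add, hp x y hx hy, hq x y hx hy]
  | monomial n a =>
    have h1 : Adj π B (e ^ n * π) (e' ^ n * π) := by
      induction n with
      | zero =>
        rw [pow_zero, pow_zero, one_mul]
        intro x y hx hy
        rw [hx, hy]
      | succ n ih =>
        have h2 : E (e ^ n * π) := by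
          have h3 := hE.aeval_mem he (X ^ n)
          rwa [Polynomial.map_pow, map_X, map_pow, aeval_X] at h3
        have h3 := hE.adj_mul h2 he' h ih
        have e1 : e * (e ^ n * π) = e ^ (n + 1) * π := by rw [← mul_assoc, ← pow_succ']
        have e2 : e' ^ n * π * e' = e' ^ (n + 1) * π := by
          rw [mul_assoc, ← hE.comm_pi he', ← mul_assoc, ← pow_succ]
        rwa [e1, e2] at h3
    intro x y hx hy
    rw [Polynomial.map_monomial, aeval_monomial, aeval_monomial, mul_assoc, mul_assoc,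
      ← Algebra.smul_def, ← Algebra.smul_def, LinearMap.smul_apply, LinearMap.smul_apply,
      map_smul, LinearMap.smul_apply, map_smul, h1 x y hx hy]

/-- Polynomials in a polynomial in `e`. -/
lemma aeval_comp {e : Module.End K H} (he : E e) (q g : K[X]) :
    aeval (aeval e q * π) g * π = aeval e (g.comp q) * π := by
  induction g using Polynomial.induction_on' with
  | add p r hp hr => rw [map_add, add_mul, hp, hr, add_comp, map_add, add_mul]
  | monomial n a =>
    have h1 : (aeval e q * π) ^ n * π = aeval e (q ^ n) * π := by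
      induction n with
      | zero => rw [pow_zero, pow_zero, map_one]
      | succ n ih =>
        rw [pow_succ', mul_assoc, ih, pow_succ', hE.aeval_mul he]
    rw [aeval_monomial, mul_assoc, h1, monomial_comp, map_mul, aeval_C, mul_assoc]

variable [Module.Finite K H]

/-- A monic rational polynomial kills `e`. -/
lemma exists_poly {e : Module.End K H} (he : E e) :
    ∃ P : ℚ[X], P ≠ 0 ∧ aeval e (P.map (algebraMap ℚ K)) * π = 0 := by
  obtain ⟨lam, hlam⟩ : ∃ lam : K →ₗ[ℚ] ℚ, lam 1 ≠ 0 := by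
    by_contra hcon
    push Not at hcon
    exact one_ne_zero ((Module.forall_dual_apply_eq_zero_iff ℚ (1 : K)).1 hcon)
  set p := minpoly K e with hp
  have hm : p.Monic := minpoly.monic (Algebra.IsIntegral.isIntegral e)
  have h1 : ∑ i ∈ Finset.range (p.natDegree + 1), p.coeff i • (e ^ i * π) = 0 := by
    have h2 := minpoly.aeval K e
    rw [aeval_eq_sum_range, ← hp] at h2
    have h3 := congrArg (fun x => x * π) h2
    beta_reduce at h3
    rw [zero_mul, Finset.sum_mul] at h3
    rw [← h3]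
    refine Finset.sum_congr rfl fun i _ => ?_
    rw [smul_mul_assoc]
  have hpow : ∀ i, E (e ^ i * π) := by
    intro i
    have h3 := hE.aeval_mem he (X ^ i)
    rwa [Polynomial.map_pow, map_X, map_pow, aeval_X] at h3
  have h2 := hE.ind (s := Finset.range (p.natDegree + 1)) (c := p.coeff)
    (χ := fun i => e ^ i * π) (fun i _ => hpow i)
    (fun y _ => by rw [h1, mul_zero, map_zero]) lam
  refine ⟨∑ i ∈ Finset.range (p.natDegree + 1), monomial i (lam (p.coeff i)), ?_, ?_⟩
  · intro h0
    have h3 := congrArg (fun q : ℚ[X] => q.coeff p.natDegree) h0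
    beta_reduce at h3
    rw [finsetSum_coeff, Finset.sum_eq_single p.natDegree, coeff_monomial_same, coeff_zero] at h3
    · have h4 : p.coeff p.natDegree = 1 := hm
      rw [h4] at h3
      exact hlam h3
    · intro i _ hi
      exact coeff_monomial_of_ne _ hi.symm
    · intro h4
      exact absurd (Finset.mem_range.2 (Nat.lt_succ_self _)) h4
  · rw [Polynomial.map_sum, map_sum, Finset.sum_mul, ← h2]
    refine Finset.sum_congr rfl fun i _ => ?_
    rw [Polynomial.map_monomial, aeval_monomial, mul_assoc, ← Algebra.smul_def]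
    rfl

omit hE [Module.Finite K H] in
/-- The ideal of the rational polynomials which kill `e`. -/
def kill (e π : Module.End K H) : Ideal ℚ[X] where
  carrier := {P | aeval e (P.map (algebraMap ℚ K)) * π = 0}
  add_mem' := by
    intro a b ha hb
    change aeval e ((a + b).map (algebraMap ℚ K)) * π = 0
    rw [Polynomial.map_add, map_add, add_mul, ha, hb, add_zero]
  zero_mem' := by
    change aeval e ((0 : ℚ[X]).map (algebraMap ℚ K)) * π = 0
    rw [Polynomial.map_zero, map_zero, zero_mul]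
  smul_mem' := by
    intro c a ha
    change aeval e ((c * a).map (algebraMap ℚ K)) * π = 0
    rw [Polynomial.map_mul, map_mul, mul_assoc]
    have : aeval e (a.map (algebraMap ℚ K)) * π = 0 := ha
    rw [this, mul_zero]

/-- **The polynomial of a central operator.** -/
lemma exists_minimal {e : Module.End K H} (he : E e) (hc : ∀ χ, E χ → e * χ = χ * e) :
    ∃ P : ℚ[X], Squarefree P ∧ ∀ g : ℚ[X], aeval e (g.map (algebraMap ℚ K)) * π = 0 ↔ P ∣ g := by
  obtain ⟨P₀, hP₀, h0⟩ := hE.exists_poly he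
  set P := Submodule.IsPrincipal.generator (kill e π) with hP
  have hdvd : ∀ g : ℚ[X], aeval e (g.map (algebraMap ℚ K)) * π = 0 ↔ P ∣ g := by
    intro g
    rw [← Submodule.IsPrincipal.mem_iff_generator_dvd (kill e π)]
    rfl
  have hPne : P ≠ 0 := by
    intro h1
    have h2 := (hdvd P₀).1 h0
    rw [h1, zero_dvd_iff] at h2
    exact hP₀ h2
  refine ⟨P, ?_, hdvd⟩
  intro a ha
  obtain ⟨b, hb⟩ := ha
  have hab : aeval e ((a * b).map (algebraMap ℚ K)) * π = 0 := by
    apply hE.sq_zero (hE.aeval_mem he _)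
    · intro χ hχ
      have h1 : ∀ g : K[X], aeval e g * χ = χ * aeval e g := by
        intro g
        induction g using Polynomial.induction_on' with
        | add p q hp hq => rw [map_add, add_mul, mul_add, hp, hq]
        | monomial n a =>
          have h1 : e ^ n * χ = χ * e ^ n := (Commute.pow_left (hc χ hχ) n).eq
          rw [aeval_monomial, mul_assoc, h1, ← mul_assoc, ← mul_assoc]
          congr 1
          exact Algebra.commutes _ _
      rw [mul_assoc, hE.left χ hχ, h1, ← mul_assoc, ← h1, mul_assoc, hE.right χ hχ]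
    · rw [← hE.aeval_mul he, ← Polynomial.map_mul, hdvd, hb]
      exact ⟨b, by ring⟩
  rw [hdvd, hb] at hab
  have hb0 : a * b ≠ 0 := by
    intro h1
    apply hPne
    rw [hb, mul_assoc, h1, mul_zero]
  have h2 : a ∣ 1 := by
    have h3 : (a * b) * a ∣ (a * b) * 1 := by
      rw [mul_one]
      exact (dvd_of_eq (by ring)).trans hab
    exact (mul_dvd_mul_iff_left hb0).1 h3
  exact isUnit_of_dvd_one h2

end PosAlg

end Pool.Agent.V5helper85.AB
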