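import Pool.Agent.V5helper85.AB.Fil
import Pool.Agent.H447R3.NumB

/-!
# Partial traces of algebraic correspondences are algebraic
-/

open CategoryTheory AlgebraicGeometry TensorProduct Function

universe u v w w'

set_option linter.unusedSectionVars false

namespace Pool.Agent.V5helper85.AB

open Pool.Agent.H914 Pool.Agent.H914.VarClass Pool.Agent.H914.VarClass.Obj
  Pool.Agent.H914.WeilCohomology Pool.Agent.R908 Pool.Agent.R908.Km
  Pool.Agent.H281R3.HT Pool.Agent.N180.Cf Pool.Agent.H447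

variable {k : Type u} [Field k] {𝒱 : VarClass k} {ops : CycleOps 𝒱}
  {W : WeilCohomology.{u, v} ops} {X Y Z P Q X' Y' Z' : 𝒱.Obj} {𝒴 : Set 𝒱.Obj}

/-- The super trace of an operator on the cohomology. -/
noncomputable def str (W : WeilCohomology.{u, v} ops) (X : 𝒱.Obj) (φ : W.H X →ₗ[W.K] W.H X) :
    W.K :=
  LinearMap.trace W.K (W.H X) (par (W.isInternal X) ∘ₗ φ)

lemma str_add (φ ψ : W.H X →ₗ[W.K] W.H X) : str W X (φ + ψ) = str W X φ + str W X ψ := by
  rw [str, LinearMap.comp_add, map_add]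
  rfl

lemma str_smul (c : W.K) (φ : W.H X →ₗ[W.K] W.H X) : str W X (c • φ) = c * str W X φ := by
  rw [str, LinearMap.comp_smul, map_smul, smul_eq_mul]
  rfl

lemma str_zero : str W X 0 = 0 := by
  rw [str, LinearMap.comp_zero, map_zero]

lemma str_sum {ι : Type*} (s : Finset ι) (f : ι → (W.H X →ₗ[W.K] W.H X)) :
    str W X (∑ i ∈ s, f i) = ∑ i ∈ s, str W X (f i) := by
  classical
  induction s using Finset.induction_on with
  | empty => rw [Finset.sum_empty, Finset.sum_empty, str_zero]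
  | insert a s ha ih => rw [Finset.sum_insert ha, Finset.sum_insert ha, str_add, ih]

/-- Algebraic operators commute with the sign operator. -/
lemma par_comp {d : ℤ} {φ : W.H X →ₗ[W.K] W.H Y} (hφ : φ ∈ KOp W X Y d) :
    par (W.isInternal Y) ∘ₗ φ = φ ∘ₗ par (W.isInternal X) := by
  apply gr_ext (W.isInternal X)
  intro i a ha
  rw [LinearMap.comp_apply, LinearMap.comp_apply]
  have h1 : par (W.isInternal X) a = (-1 : W.K) ^ i • a := scal_apply (W.isInternal X) _ ha
  rw [h1, map_smul]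
  have h2 := KOp.isHom hφ (i : ℤ) a (by rw [grZ_natCast]; exact ha)
  by_cases hm : ∃ m : ℕ, (m : ℤ) = (i : ℤ) + 2 * d
  · obtain ⟨m, hm⟩ := hm
    rw [← hm, grZ_natCast] at h2
    have h3 : par (W.isInternal Y) (φ a) = (-1 : W.K) ^ m • φ a :=
      scal_apply (W.isInternal Y) _ h2
    rw [h3]
    congr 1
    rcases Nat.even_or_odd i with hi | hi
    · have hm2 : Even m := by
        rw [← Int.even_coe_nat, hm]
        exact ((Int.even_coe_nat i).2 hi).add (even_two_mul d)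
      rw [hi.neg_one_pow, hm2.neg_one_pow]
    · have hm2 : Odd m := by
        rw [← Int.odd_coe_nat, hm]
        exact ((Int.odd_coe_nat i).2 hi).add_even (even_two_mul d)
      rw [hi.neg_one_pow, hm2.neg_one_pow]
  · push Not at hm
    by_cases hneg : (i : ℤ) + 2 * d < 0
    · rw [grZ_of_neg hneg] at h2
      rw [(Submodule.mem_bot _).1 h2, map_zero, smul_zero]
    · exact absurd (Int.toNat_of_nonneg (by omega)) (hm _)

lemma str_comm {d : ℤ} {φ : W.H X →ₗ[W.K] W.H Y} (hφ : φ ∈ KOp W X Y d)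
    (ψ : W.H Y →ₗ[W.K] W.H X) : str W X (ψ ∘ₗ φ) = str W Y (φ ∘ₗ ψ) := by
  rw [str, str, ← LinearMap.comp_assoc, LinearMap.trace_comp_comm', ← LinearMap.comp_assoc,
    ← par_comp hφ]
  rfl

lemma par_par : par (W.isInternal X) ∘ₗ par (W.isInternal X) = LinearMap.id := by
  apply gr_ext (W.isInternal X)
  intro i a ha
  have h1 : par (W.isInternal X) a = (-1 : W.K) ^ i • a := scal_apply (W.isInternal X) _ ha
  rw [LinearMap.comp_apply, h1, map_smul, h1, smul_smul, ← pow_add, ← two_mul, pow_mul,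
    neg_one_sq, one_pow, one_smul, LinearMap.id_apply]

lemma r1_fst (a : W.H X) :
    W.map (r1 X Y X' Y') (W.map (fst X X') a) = W.map (fst _ _) (W.map (fst X Y) a) := by
  have e1 : r1 X Y X' Y' ≫ fst X X' = fst (X.prod Y) (X'.prod Y') ≫ fst X Y := Obj.lift_fst _ _
  rw [← W.map_comp, e1, W.map_comp]

lemma r1_snd (a : W.H X') :
    W.map (r1 X Y X' Y') (W.map (snd X X') a) = W.map (snd _ _) (W.map (fst X' Y') a) := by
  have e1 : r1 X Y X' Y' ≫ snd X X' = snd (X.prod Y) (X'.prod Y') ≫ fst X' Y' := Obj.lift_snd _ _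
  rw [← W.map_comp, e1, W.map_comp]

lemma r2_fst (a : W.H Y) :
    W.map (r2 X Y X' Y') (W.map (fst Y Y') a) = W.map (fst _ _) (W.map (snd X Y) a) := by
  have e1 : r2 X Y X' Y' ≫ fst Y Y' = fst (X.prod Y) (X'.prod Y') ≫ snd X Y := Obj.lift_fst _ _
  rw [← W.map_comp, e1, W.map_comp]

lemma r2_snd (a : W.H Y') :
    W.map (r2 X Y X' Y') (W.map (snd Y Y') a) = W.map (snd _ _) (W.map (snd X' Y') a) := by
  have e1 : r2 X Y X' Y' ≫ snd Y Y' = snd (X.prod Y) (X'.prod Y') ≫ snd X' Y' := Obj.lift_snd _ _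
  rw [← W.map_comp, e1, W.map_comp]

lemma map_swap_fst (a : W.H X) : W.map (swap Y X) (W.map (fst X Y) a) = W.map (snd Y X) a := by
  rw [← W.map_comp, swap_fst]

lemma map_swap_snd (a : W.H Y) : W.map (swap Y X) (W.map (snd X Y) a) = W.map (fst Y X) a := by
  rw [← W.map_comp, swap_snd]

lemma swap_r1 (c : W.H (X.prod X)) :
    W.map (swap (X.prod P) (X.prod P)) (W.map (r1 X P X P) c) =
      W.map (r1 X P X P) (W.map (swap X X) c) := by
  refine W.kunneth_induction (p := fun c => W.map (swap (X.prod P) (X.prod P))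
    (W.map (r1 X P X P) c) = W.map (r1 X P X P) (W.map (swap X X) c)) ?_ ?_ c
  · intro a b ha hb
    rw [map_add, map_add, ha, hb, map_add, map_add]
  · intro i j a _ b _
    rw [map_mul (W.map (r1 X P X P)), map_mul (W.map (swap _ _)), r1_fst, r1_snd, map_swap_fst,
      map_swap_snd, map_mul (W.map (swap X X)), map_swap_fst, map_swap_snd,
      map_mul (W.map (r1 X P X P)), r1_snd, r1_fst]

lemma swap_r2 (c : W.H (P.prod P)) :
    W.map (swap (X.prod P) (X.prod P)) (W.map (r2 X P X P) c) =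
      W.map (r2 X P X P) (W.map (swap P P) c) := by
  refine W.kunneth_induction (p := fun c => W.map (swap (X.prod P) (X.prod P))
    (W.map (r2 X P X P) c) = W.map (r2 X P X P) (W.map (swap P P) c)) ?_ ?_ c
  · intro a b ha hb
    rw [map_add, map_add, ha, hb, map_add, map_add]
  · intro i j a _ b _
    rw [map_mul (W.map (r2 X P X P)), map_mul (W.map (swap _ _)), r2_fst, r2_snd, map_swap_fst,
      map_swap_snd, map_mul (W.map (swap P P)), map_swap_fst, map_swap_snd,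
      map_mul (W.map (r2 X P X P)), r2_snd, r2_fst]

/-- The class of the external product of two operators. -/
lemma corr_ext {c : W.H (X.prod X')} {p : ℕ} {d : W.H (Y.prod Y')} (hd : d ∈ W.gr _ (2 * p)) :
    W.corr (W.map (r1 X Y X' Y') c * W.map (r2 X Y X' Y') d) =
      extHom W (W.corr c) (W.corr d) := by
  apply ext_kunneth_lin
  intro a b
  rw [corr_ext' c hd, extHom_tmul]

lemma diag_class (P : 𝒱.Obj) : ∃ Δ ∈ spanCycles W (P.prod P) (P.dim : ℤ),
    W.corr Δ = LinearMap.id := by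
  obtain ⟨Δ, hΔ, h⟩ := mem_KOp_iff.1 (KOp.id (W := W) P)
  rw [add_zero] at hΔ
  exact ⟨Δ, hΔ, h⟩

/-- **The partial trace over the second factor.** -/
lemma exists_ptr_fst {y : W.H (X.prod P) →ₗ[W.K] W.H (X.prod P)}
    (hy : y ∈ KOp W (X.prod P) (X.prod P) 0) :
    ∃ z ∈ KOp W X X 0, ∀ D : W.H X →ₗ[W.K] W.H X,
      str W X (z ∘ₗ D) = str W (X.prod P) (y ∘ₗ extHom W D LinearMap.id) := by
  obtain ⟨γ, hγ, rfl⟩ := mem_KOp_iff.1 hy
  obtain ⟨Δ, hΔ, hid⟩ := diag_class (W := W) P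
  rw [add_zero] at hγ
  have hΔ' : W.map (swap P P) Δ ∈ spanCycles W (P.prod P) (P.dim : ℤ) := span_map _ hΔ
  set c := W.push (r1 X P X P) (γ * W.map (r2 X P X P) (W.map (swap P P) Δ)) with hc
  have hcs : c ∈ spanCycles W (X.prod X) (X.dim : ℤ) := by
    have h1 := KOp.map_span (KOp.pushHom (W := W) (r1 X P X P))
      (span_mul hγ (span_map (r2 X P X P) hΔ'))
    have e1 : (((X.prod P).dim : ℤ) + P.dim + (((X.prod X).dim : ℤ) -
      ((X.prod P).prod (X.prod P)).dim)) = X.dim := by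
      simp only [dim_prod]
      push_cast
      ring
    rw [e1] at h1
    exact h1
  refine ⟨W.corr c, mem_KOp_iff.2 ⟨c, by rw [add_zero]; exact hcs, rfl⟩, fun D => ?_⟩
  obtain ⟨c', rfl⟩ := exists_corr D
  have e1 : str W X (W.corr c ∘ₗ W.corr c') = W.tr (X.prod X) (c * W.map (swap X X) c') := by
    rw [tr_mul_eq_trace (Pool.Agent.H914.span_gr hcs), map_swap_swap]
    rfl
  have e2 : W.tr (X.prod X) (c * W.map (swap X X) c') =
      W.tr _ (γ * (W.map (r1 X P X P) (W.map (swap X X) c') *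
        W.map (r2 X P X P) (W.map (swap P P) Δ))) := by
    rw [hc, W.tr_push, mul_assoc, span_comm (span_map _ hΔ')]
  have e3 : W.map (swap (X.prod P) (X.prod P)) (W.map (r1 X P X P) (W.map (swap X X) c') *
        W.map (r2 X P X P) (W.map (swap P P) Δ)) =
      W.map (r1 X P X P) c' * W.map (r2 X P X P) Δ := by
    rw [map_mul (W.map (swap (X.prod P) (X.prod P))), swap_r1, swap_r2, map_swap_swap,
      map_swap_swap]
  rw [e1, e2, tr_mul_eq_trace (Pool.Agent.H914.span_gr hγ), e3, corr_ext (Pool.Agent.H914.span_gr hΔ), hid]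
  rfl

/-- **The partial trace over the first factor.** -/
lemma exists_ptr_snd {y : W.H (X.prod P) →ₗ[W.K] W.H (X.prod P)}
    (hy : y ∈ KOp W (X.prod P) (X.prod P) 0) :
    ∃ z ∈ KOp W P P 0, ∀ D : W.H P →ₗ[W.K] W.H P, IsHom (W.gr P) 0 D →
      str W P (z ∘ₗ D) = str W (X.prod P) (y ∘ₗ extHom W LinearMap.id D) := by
  obtain ⟨γ, hγ, rfl⟩ := mem_KOp_iff.1 hy
  obtain ⟨Δ, hΔ, hid⟩ := diag_class (W := W) X
  rw [add_zero] at hγ
  have hΔ' : W.map (swap X X) Δ ∈ spanCycles W (X.prod X) (X.dim : ℤ) := span_map _ hΔ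
  set c := W.push (r2 X P X P) (γ * W.map (r1 X P X P) (W.map (swap X X) Δ)) with hc
  have hcs : c ∈ spanCycles W (P.prod P) (P.dim : ℤ) := by
    have h1 := KOp.map_span (KOp.pushHom (W := W) (r2 X P X P))
      (span_mul hγ (span_map (r1 X P X P) hΔ'))
    have e1 : (((X.prod P).dim : ℤ) + X.dim + (((P.prod P).dim : ℤ) -
      ((X.prod P).prod (X.prod P)).dim)) = P.dim := by
      simp only [dim_prod]
      push_cast
      ring
    rw [e1] at h1
    exact h1
  refine ⟨W.corr c, mem_KOp_iff.2 ⟨c, by rw [add_zero]; exact hcs, rfl⟩, fun D hD => ?_⟩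
  obtain ⟨c', rfl⟩ := exists_corr D
  have hc' : c' ∈ W.gr (P.prod P) (2 * P.dim) := by
    apply mem_gr_of_isHom
    rw [sub_self, mul_zero]
    exact hD
  have e1 : str W P (W.corr c ∘ₗ W.corr c') = W.tr (P.prod P) (c * W.map (swap P P) c') := by
    rw [tr_mul_eq_trace (Pool.Agent.H914.span_gr hcs), map_swap_swap]
    rfl
  have e2 : W.tr (P.prod P) (c * W.map (swap P P) c') =
      W.tr _ (γ * (W.map (r1 X P X P) (W.map (swap X X) Δ) *
        W.map (r2 X P X P) (W.map (swap P P) c'))) := by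
    rw [hc, W.tr_push, mul_assoc]
  have e3 : W.map (swap (X.prod P) (X.prod P)) (W.map (r1 X P X P) (W.map (swap X X) Δ) *
        W.map (r2 X P X P) (W.map (swap P P) c')) =
      W.map (r1 X P X P) Δ * W.map (r2 X P X P) c' := by
    rw [map_mul (W.map (swap (X.prod P) (X.prod P))), swap_r1, swap_r2, map_swap_swap,
      map_swap_swap]
  rw [e1, e2, tr_mul_eq_trace (Pool.Agent.H914.span_gr hγ), e3, corr_ext hc', hid]
  rfl

/-- The operator `D ⊗ 1 ⊗ ⋯ + 1 ⊗ D ⊗ ⋯ + …` on the cohomology of `X ^ m × Y`, zero on `Y`. -/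
noncomputable def dm (W : WeilCohomology.{u, v} ops) {X : 𝒱.Obj} (Y : 𝒱.Obj)
    (D : W.H X →ₗ[W.K] W.H X) : ∀ m : ℕ, W.H (pX X Y m) →ₗ[W.K] W.H (pX X Y m)
  | 0 => 0
  | m + 1 => extHom W D LinearMap.id + extHom W LinearMap.id (dm W Y D m)

/-- The operator `π ⊗ ⋯ ⊗ π ⊗ 1`. -/
noncomputable def tp (W : WeilCohomology.{u, v} ops) {X : 𝒱.Obj} (Y : 𝒱.Obj)
    (π : W.H X →ₗ[W.K] W.H X) : ∀ m : ℕ, W.H (pX X Y m) →ₗ[W.K] W.H (pX X Y m)
  | 0 => LinearMap.id
  | m + 1 => extHom W π (tp W Y π m)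

lemma extHom_isHom {D : W.H X →ₗ[W.K] W.H X} (hD : IsHom (W.gr X) 0 D)
    {E : W.H P →ₗ[W.K] W.H P} (hE : IsHom (W.gr P) 0 E) :
    IsHom (W.gr (X.prod P)) 0 (extHom W D E) := by
  have h0 : ∀ {Z : 𝒱.Obj} {D : W.H Z →ₗ[W.K] W.H Z}, IsHom (W.gr Z) 0 D → ∀ (i : ℕ), ∀ a ∈ W.gr Z i,
      D a ∈ W.gr Z i := by
    intro Z D hD i a ha
    have h1 := hD i a (by rw [grZ_natCast]; exact ha)
    rwa [add_zero, grZ_natCast] at h1
  have key : ∀ c : W.H (X.prod P), ∀ n : ℕ, proj (W.isInternal (X.prod P)) n (extHom W D E c) =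
      extHom W D E (proj (W.isInternal (X.prod P)) n c) := by
    intro c n
    refine W.kunneth_induction (p := fun c => proj (W.isInternal (X.prod P)) n (extHom W D E c) =
      extHom W D E (proj (W.isInternal (X.prod P)) n c)) ?_ ?_ c
    · intro a b ha hb
      rw [map_add, map_add, ha, hb, map_add, map_add]
    · intro i j a ha b hb
      have h1 := W.mul_mem (W.map_mem (fst X P) ha) (W.map_mem (snd X P) hb)
      have h2 := W.mul_mem (W.map_mem (fst X P) (h0 hD i a ha))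
        (W.map_mem (snd X P) (h0 hE j b hb))
      rw [extHom_tmul]
      by_cases h3 : i + j = n
      · subst h3
        rw [proj_same _ h1, proj_same _ h2, extHom_tmul]
      · rw [proj_ne _ h1 h3, proj_ne _ h2 h3, map_zero]
  intro i a ha
  rw [add_zero]
  by_cases hi : 0 ≤ i
  · lift i to ℕ using hi
    rw [grZ_natCast] at ha ⊢
    have h1 := key a i
    rw [proj_same _ ha] at h1
    rw [← h1]
    exact proj_mem _ _ _
  · rw [grZ_of_neg (by omega)] at ha ⊢
    rw [(Submodule.mem_bot _).1 ha, map_zero]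
    exact Submodule.zero_mem _

lemma isHom_id : IsHom (W.gr X) 0 (LinearMap.id : W.H X →ₗ[W.K] W.H X) := by
  intro i a ha
  rw [add_zero]
  exact ha

lemma dm_isHom {D : W.H X →ₗ[W.K] W.H X} (hD : IsHom (W.gr X) 0 D) :
    ∀ m, IsHom (W.gr (pX X Y m)) 0 (dm W Y D m)
  | 0 => by
    intro i a _
    exact Submodule.zero_mem _
  | m + 1 => by
    intro i a ha
    have h1 := extHom_isHom hD (isHom_id (W := W) (X := pX X Y m)) i a ha
    have h2 := extHom_isHom (isHom_id (W := W) (X := X)) (dm_isHom hD m) i a ha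
    exact Submodule.add_mem _ h1 h2

/-- **The total partial trace.** -/
theorem exists_ptr (Y : 𝒱.Obj) : ∀ (m : ℕ) {y : W.H (pX X Y m) →ₗ[W.K] W.H (pX X Y m)},
    y ∈ KOp W (pX X Y m) (pX X Y m) 0 → ∃ z ∈ KOp W X X 0, ∀ D : W.H X →ₗ[W.K] W.H X,
      IsHom (W.gr X) 0 D → str W X (z ∘ₗ D) = str W (pX X Y m) (y ∘ₗ dm W Y D m) := by
  intro m
  induction m with
  | zero =>
    intro y _
    refine ⟨0, Submodule.zero_mem _, fun D _ => ?_⟩
    change str W X (0 ∘ₗ D) = str W Y (y ∘ₗ 0)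
    rw [LinearMap.zero_comp, LinearMap.comp_zero, str_zero, str_zero]
  | succ m ih =>
    intro y hy
    obtain ⟨z₁, hz₁, h1⟩ := exists_ptr_fst (X := X) (P := pX X Y m) hy
    obtain ⟨y', hy', h2⟩ := exists_ptr_snd (X := X) (P := pX X Y m) hy
    obtain ⟨z₂, hz₂, h3⟩ := ih hy'
    refine ⟨z₁ + z₂, Submodule.add_mem _ hz₁ hz₂, fun D hD => ?_⟩
    change _ = str W (X.prod (pX X Y m)) (y ∘ₗ (extHom W D LinearMap.id +
      extHom W LinearMap.id (dm W Y D m)))
    rw [LinearMap.add_comp, str_add, h1, h3 D hD, h2 _ (dm_isHom hD m), LinearMap.comp_add,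
      str_add]

lemma dm_add (D D' : W.H X →ₗ[W.K] W.H X) : ∀ m, dm W Y (D + D') m = dm W Y D m + dm W Y D' m
  | 0 => (add_zero 0).symm
  | m + 1 => by
    change extHom W (D + D') LinearMap.id + extHom W LinearMap.id (dm W Y (D + D') m) =
      (extHom W D LinearMap.id + extHom W LinearMap.id (dm W Y D m)) +
        (extHom W D' LinearMap.id + extHom W LinearMap.id (dm W Y D' m))
    rw [dm_add D D' m, extHom_add_left, extHom_add_right]
    abel

lemma dm_smul (c : W.K) (D : W.H X →ₗ[W.K] W.H X) : ∀ m, dm W Y (c • D) m = c • dm W Y D m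
  | 0 => (smul_zero c).symm
  | m + 1 => by
    change extHom W (c • D) LinearMap.id + extHom W LinearMap.id (dm W Y (c • D) m) =
      c • (extHom W D LinearMap.id + extHom W LinearMap.id (dm W Y D m))
    rw [dm_smul c D m, extHom_smul_left, extHom_smul_right, smul_add]

lemma dm_zero (m : ℕ) : dm W Y (0 : W.H X →ₗ[W.K] W.H X) m = 0 := by
  have h1 := dm_smul (W := W) (Y := Y) 0 (0 : W.H X →ₗ[W.K] W.H X) m
  rw [zero_smul, zero_smul] at h1
  exact h1

lemma dm_sum {ι : Type*} (s : Finset ι) (f : ι → (W.H X →ₗ[W.K] W.H X)) (m : ℕ) :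
    dm W Y (∑ i ∈ s, f i) m = ∑ i ∈ s, dm W Y (f i) m := by
  classical
  induction s using Finset.induction_on with
  | empty => rw [Finset.sum_empty, Finset.sum_empty, dm_zero]
  | insert a s ha ih => rw [Finset.sum_insert ha, Finset.sum_insert ha, dm_add, ih]

/-- Compression to the direct factor cut out by `π`. -/
lemma tp_dm {π : W.H X →ₗ[W.K] W.H X} (hπ : π ∘ₗ π = π) (D : W.H X →ₗ[W.K] W.H X) : ∀ m,
    tp W Y π m ∘ₗ dm W Y (π ∘ₗ D ∘ₗ π) m ∘ₗ tp W Y π m =
      tp W Y π m ∘ₗ dm W Y D m ∘ₗ tp W Y π m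
  | 0 => rfl
  | m + 1 => by
    change extHom W π (tp W Y π m) ∘ₗ (extHom W (π ∘ₗ D ∘ₗ π) LinearMap.id +
      extHom W LinearMap.id (dm W Y (π ∘ₗ D ∘ₗ π) m)) ∘ₗ extHom W π (tp W Y π m) =
      extHom W π (tp W Y π m) ∘ₗ (extHom W D LinearMap.id +
      extHom W LinearMap.id (dm W Y D m)) ∘ₗ extHom W π (tp W Y π m)
    have h1 : π ∘ₗ (π ∘ₗ D ∘ₗ π) ∘ₗ π = π ∘ₗ D ∘ₗ π := by
      calc π ∘ₗ (π ∘ₗ D ∘ₗ π) ∘ₗ π = (π ∘ₗ π) ∘ₗ D ∘ₗ (π ∘ₗ π) := rfl
        _ = π ∘ₗ D ∘ₗ π := by rw [hπ]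
    rw [LinearMap.add_comp, LinearMap.comp_add, extHom_comp, extHom_comp, extHom_comp,
      extHom_comp, LinearMap.add_comp, LinearMap.comp_add, extHom_comp, extHom_comp, extHom_comp,
      extHom_comp, h1, tp_dm hπ D m]

end Pool.Agent.V5helper85.AB
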