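import Pool.Agent.V5helper85.AB.Ptr
import Pool.Agent.V5helper85.AB.Fam

/-!
# The weights on the direct factors
-/

open CategoryTheory AlgebraicGeometry TensorProduct Function

universe u v w w'

set_option linter.unusedSectionVars false

namespace Pool.Agent.V5helper85.AB

open Pool.Agent.H914 Pool.Agent.H914.VarClass Pool.Agent.H914.VarClass.Obj
  Pool.Agent.H914.WeilCohomology Pool.Agent.R908 Pool.Agent.R908.Km
  Pool.Agent.H281R3.HT Pool.Agent.N180.Cf Pool.Agent.W534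

section CF

variable {K : Type*} [Field K] {V : Type*} [AddCommGroup V] [Module K V]
  {V' : Type*} [AddCommGroup V'] [Module K V']

/-- A filtration given by finitely many weighted subspaces. -/
def CF (F : ℝ → Submodule K V) : Prop :=
  ∃ (Λ : Type) (_ : Finite Λ) (N : Λ → Submodule K V) (w : Λ → ℝ),
    (∀ t x, x ∈ F t ↔ ∀ i, x ∉ N i → t ≤ w i) ∧ ∀ x, (∀ i, x ∈ N i) → x = 0

lemma CF.anti {F : ℝ → Submodule K V} (h : CF F) : Antitone F := by
  obtain ⟨Λ, _, N, w, h1, h2⟩ := h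
  intro s t hst x hx
  rw [h1] at hx ⊢
  exact fun i hi => hst.trans (hx i hi)

lemma CF.jumps {F : ℝ → Submodule K V} (h : CF F) :
    ∃ S : Finset ℝ, ∀ x, x ≠ 0 → ∃ s ∈ S, x ∈ F s ∧ ∀ t, x ∈ F t → t ≤ s := by
  classical
  obtain ⟨Λ, _, N, w, h1, h2⟩ := h
  have := Fintype.ofFinite Λ
  refine ⟨Finset.univ.image w, fun x hx => ?_⟩
  have hne : (Finset.univ.filter fun i => x ∉ N i).Nonempty := by
    by_contra hcon
    rw [Finset.not_nonempty_iff_eq_empty, Finset.filter_eq_empty_iff] at hcon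
    apply hx
    apply h2
    intro i
    by_contra hi
    exact hcon (Finset.mem_univ i) hi
  obtain ⟨i, hi, hmin⟩ := Finset.exists_min_image _ w hne
  rw [Finset.mem_filter] at hi
  refine ⟨w i, Finset.mem_image_of_mem _ (Finset.mem_univ i), ?_, ?_⟩
  · rw [h1]
    exact fun j hj => hmin j (Finset.mem_filter.2 ⟨Finset.mem_univ j, hj⟩)
  · intro t ht
    rw [h1] at ht
    exact ht i hi.2

/-- Inverse images of filtrations. -/
lemma CF.inf {J : Type} [Finite J] {V' : J → Type*} [∀ j, AddCommGroup (V' j)]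
    [∀ j, Module K (V' j)] {F : ∀ j, ℝ → Submodule K (V' j)} (h : ∀ j, CF (F j))
    {f : ∀ j, V →ₗ[K] V' j} (hf : ∀ x, (∀ j, f j x = 0) → x = 0) :
    CF (fun t => ⨅ j, (F j t).comap (f j)) := by
  choose Λ hΛ N w h1 h2 using h
  refine ⟨Σ j, Λ j, inferInstance, fun i => (N i.1 i.2).comap (f i.1), fun i => w i.1 i.2,
    fun t x => ?_, fun x hx => ?_⟩
  · rw [Submodule.mem_iInf]
    constructor
    · rintro h ⟨j, i⟩ hi
      exact (h1 j t (f j x)).1 (h j) i hi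
    · intro h j
      exact (h1 j t (f j x)).2 fun i hi => h ⟨j, i⟩ hi
  · exact hf x fun j => h2 j _ fun i => hx ⟨j, i⟩

lemma CF.comap {F : ℝ → Submodule K V} (h : CF F) {f : V' →ₗ[K] V} (hf : Injective f) :
    CF (fun t => (F t).comap f) := by
  obtain ⟨Λ, hΛ, N, w, h1, h2⟩ := h
  refine ⟨Λ, hΛ, fun i => (N i).comap f, w, fun t x => h1 t (f x), fun x hx => ?_⟩
  apply hf
  rw [map_zero]
  exact h2 _ hx

lemma CF.exists_adapted [Module.Finite K V] {F : ℝ → Submodule K V} (h : CF F) :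
    ∃ (l : ℕ) (e : Module.Basis (Fin l) K V) (w : Fin l → ℝ), Adapted F e w := by
  obtain ⟨l, e, w, h1, h2⟩ := Pool.Agent.N180.Cf.exists_adapted F h.jumps
  exact ⟨l, e, w, ⟨h1, h2⟩⟩

lemma CF.eq_zero {F : ℝ → Submodule K V} (h : CF F) {x : V} (hx : ∀ t, x ∈ F t) : x = 0 := by
  by_contra hne
  obtain ⟨S, hS⟩ := h.jumps
  obtain ⟨s, -, -, h1⟩ := hS x hne
  have := h1 (s + 1) (hx _)
  linarith

/-- The trace of the compression of an operator to the image of a projector. -/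
lemma trace_proj [Module.Finite K V] {F : ℝ → Submodule K V} {p : Module.End K V}
    (hp : p * p = p) (hpF : ∀ t, ∀ x ∈ F t, p x ∈ F t) {U : Submodule K V}
    (hU : ∀ x, x ∈ U ↔ p x = x) {l : ℕ} {e : Module.Basis (Fin l) K U} {w : Fin l → ℝ}
    (he : Adapted (fun t => (F t).comap U.subtype) e w) {φ : ℝ →+ ℚ} {R : Module.End K V}
    (hR : ActsBy F φ R) : LinearMap.trace K V (p * R) = ∑ i, ((φ (w i) : ℚ) : K) := by
  have h1 : ∀ x, (p * R) x ∈ U := fun x => by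
    rw [hU]
    change (p * p) (R x) = p (R x)
    rw [hp]
  have h2 := LinearMap.trace_restrict_eq_of_forall_mem U (p * R) h1 (fun x _ => h1 x)
  rw [← h2]
  apply he.trace_eq
  rintro t x hx
  obtain ⟨t', ht, h3⟩ := hR t x hx
  refine ⟨t', ht, ?_⟩
  change ((LinearMap.restrict (p * R) fun x _ => h1 x) x : V) - ((φ t : ℚ) : K) • (x : V) ∈ F t'
  have h4 : ((LinearMap.restrict (p * R) fun x _ => h1 x) x : V) - ((φ t : ℚ) : K) • (x : V) =
      p (R x - ((φ t : ℚ) : K) • (x : V)) := by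
    rw [map_sub, map_smul, (hU x).1 x.2]
    rfl
  rw [h4]
  exact hpF _ _ h3

end CF

variable {k : Type u} [Field k] {𝒱 : VarClass k} {ops : CycleOps 𝒱}
  {W : WeilCohomology.{u, v} ops} {X Y Z P V : 𝒱.Obj} {𝒴 : Set 𝒱.Obj}

/-! ### Numerically trivial operators -/

/-- The operator is given by a numerically trivial combination of correspondences. -/
def NTOp (W : WeilCohomology.{u, v} ops) (X Y : 𝒱.Obj) (d : ℤ) (φ : W.H X →ₗ[W.K] W.H Y) : Prop :=
  ∃ γ ∈ spanCycles W (X.prod Y) (X.dim + d), NumTriv W _ γ ∧ W.corr γ = φ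

lemma NTOp.zero (d : ℤ) : NTOp W X Y d 0 :=
  ⟨0, Submodule.zero_mem _, fun j g _ => by rw [zero_mul, map_zero], corr_zero W⟩

lemma span_neg {j : ℤ} (hj : j < 0) {x : W.H X} (hx : x ∈ spanCycles W X j) : x = 0 := by
  induction hx using Submodule.span_induction with
  | mem x hx =>
    obtain ⟨p, hp, -⟩ := hx
    omega
  | zero => rfl
  | add x y _ _ hx hy => rw [hx, hy, add_zero]
  | smul c x _ hx => rw [hx, smul_zero]

lemma ntOp_comp {d e : ℤ} {φ : W.H X →ₗ[W.K] W.H Y} {ψ : W.H Y →ₗ[W.K] W.H Z}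
    {c : W.H (X.prod Y)} (hc : c ∈ spanCycles W (X.prod Y) (X.dim + d)) (hφ : W.corr c = φ)
    {c' : W.H (Y.prod Z)} (hc' : c' ∈ spanCycles W (Y.prod Z) (Y.dim + e)) (hψ : W.corr c' = ψ)
    (h : NumTriv W _ c ∨ NumTriv W _ c') : NTOp W X Z (d + e) (ψ ∘ₗ φ) := by
  by_cases hneg : (Y.dim : ℤ) + e < 0
  · rw [← hψ, span_neg hneg hc', corr_zero, LinearMap.zero_comp]
    exact NTOp.zero _
  obtain ⟨q, hq⟩ := Int.eq_ofNat_of_zero_le (not_lt.1 hneg)
  have hc'' : c' ∈ spanCycles W (Y.prod Z) (q : ℤ) := by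
    rw [hq] at hc'
    exact hc'
  have h1 := span_map (p12 X Y Z) hc
  have h2 := span_map (p23 X Y Z) hc'
  refine ⟨W.push (p13 X Y Z) (W.map (p12 X Y Z) c * W.map (p23 X Y Z) c'), ?_, ?_, ?_⟩
  · have h3 := KOp.map_span (KOp.pushHom (W := W) (p13 X Y Z)) (span_mul h1 h2)
    have e1 : (X.dim : ℤ) + d + (Y.dim + e) + (((X.prod Z).dim : ℤ) -
        (X.prod (Y.prod Z)).dim) = X.dim + (d + e) := by
      simp only [dim_prod]
      push_cast
      ring
    rw [e1] at h3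
    exact h3
  · apply NumTriv.op (KOp.pushHom (W := W) (p13 X Y Z))
    rcases h with h | h
    · rw [span_comm h1]
      exact NumTriv.mul_left h2 (NumTriv.op (KOp.mapHom (W := W) (p12 X Y Z)) h)
    · exact NumTriv.mul_left h1 (NumTriv.op (KOp.mapHom (W := W) (p23 X Y Z)) h)
  · rw [corr_comp W c (Pool.Agent.H914.span_gr hc''), hφ, hψ]

lemma NTOp.comp_left {d e : ℤ} {φ : W.H X →ₗ[W.K] W.H Y} {ψ : W.H Y →ₗ[W.K] W.H Z}
    (hψ : ψ ∈ KOp W Y Z e) (hφ : NTOp W X Y d φ) : NTOp W X Z (d + e) (ψ ∘ₗ φ) := by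
  obtain ⟨c, hc, hn, h⟩ := hφ
  obtain ⟨c', hc', h'⟩ := mem_KOp_iff.1 hψ
  exact ntOp_comp hc h hc' h' (Or.inl hn)

lemma NTOp.comp_right {d e : ℤ} {φ : W.H X →ₗ[W.K] W.H Y} {ψ : W.H Y →ₗ[W.K] W.H Z}
    (hψ : NTOp W Y Z e ψ) (hφ : φ ∈ KOp W X Y d) : NTOp W X Z (d + e) (ψ ∘ₗ φ) := by
  obtain ⟨c, hc, hn, h⟩ := hψ
  obtain ⟨c', hc', h'⟩ := mem_KOp_iff.1 hφ
  exact ntOp_comp hc' h' hc h (Or.inr hn)

/-! ### The filtration on products -/

lemma msr_box : ∀ (n : ℕ) (f : Fin n → (W.H X →ₗ[W.K] W.K)) (x : Fin n → W.H X) (y : W.H Y),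
    msr W n f (box W n x y) = (∏ i, f i (x i)) • y
  | 0, f, x, y => by
    rw [Fin.prod_univ_zero, one_smul]
    rfl
  | n + 1, f, x, y => by
    rw [Fin.prod_univ_succ]
    change msr W n (fun i => f i.succ) (sl W (f 0) (W.map (fst X (pX X Y n)) (x 0) *
      W.map (snd X (pX X Y n)) (box W n (fun i => x i.succ) y))) = _
    rw [sl_tmul, map_smul, msr_box n, smul_smul]

lemma msr_eq_zero {l : ℕ} (e : Module.Basis (Fin l) W.K (W.H X)) : ∀ (n : ℕ)
    (a : W.H (pX X Y n)), (∀ I : Fin n → Fin l, msr W n (fun i => e.coord (I i)) a = 0) → a = 0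
  | 0, a, h => h (fun i => i.elim0)
  | n + 1, a, h => by
    rw [slice_sum e a]
    refine Finset.sum_eq_zero fun j _ => ?_
    have h1 : sl W (e.coord j) a = 0 := by
      apply msr_eq_zero e n
      intro I
      exact h (Fin.cons j I : Fin (n + 1) → Fin l)
    rw [h1, map_zero, mul_zero]

lemma prodFil_cf {U : ℝ → Submodule W.K (W.H X)} {l : ℕ} (e : Module.Basis (Fin l) W.K (W.H X))
    {w : Fin l → ℝ} (A : Adapted U e w) (n : ℕ) : CF (prodFil W U Y n) := by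
  refine ⟨Fin n → Fin l, inferInstance, fun I => LinearMap.ker (msr W n (fun i => e.coord (I i))),
    fun I => ∑ i, w (I i), fun t x => ⟨fun hx => ?_, fun hx => ?_⟩, fun x hx => ?_⟩
  · induction hx using Submodule.span_induction with
    | mem x hx =>
      obtain ⟨x, s, y, hx, hs, rfl⟩ := hx
      intro I hI
      rw [LinearMap.mem_ker] at hI
      change msr W n (fun i => e.coord (I i)) (box W n x y) ≠ 0 at hI
      rw [msr_box] at hI
      have h1 : ∏ i, e.coord (I i) (x i) ≠ 0 := by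
        intro h0
        rw [h0, zero_smul] at hI
        exact hI rfl
      rw [Finset.prod_ne_zero_iff] at h1
      exact hs.trans (Finset.sum_le_sum fun i hi => A.coord _ _ (hx i) _ (h1 i hi))
    | zero => exact fun I hI => absurd (Submodule.zero_mem _) hI
    | add a b _ _ ha hb =>
      intro I hI
      by_cases h1 : a ∈ LinearMap.ker (msr W n (fun i => e.coord (I i)))
      · exact hb I fun h2 => hI (Submodule.add_mem _ h1 h2)
      · exact ha I h1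
    | smul c a _ ha =>
      intro I hI
      exact ha I fun h1 => hI (Submodule.smul_mem _ _ h1)
  · exact mem_prodFil e w A.mem n t x fun I hI => hx I hI
  · exact msr_eq_zero e n x fun I => hx I

section Acts

variable {U : ℝ → Submodule W.K (W.H X)} {φ : ℝ →+ ℚ} {D : W.H X →ₗ[W.K] W.H X}

lemma dm_box (hD : ActsBy U φ D) : ∀ (n : ℕ) (x : Fin n → W.H X) (s : Fin n → ℝ) (y : W.H Y),
    (∀ i, x i ∈ U (s i)) → Up (prodFil W U Y n) (∑ i, s i)
      (dm W Y D n (box W n x y) - ((φ (∑ i, s i) : ℚ) : W.K) • box W n x y)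
  | 0, x, s, y, _ => by
    rw [Fin.sum_univ_zero, map_zero, Rat.cast_zero, zero_smul, sub_zero]
    exact Up.zero
  | n + 1, x, s, y, hx => by
    have ih := dm_box hD n (fun i => x i.succ) (fun i => s i.succ) y (fun i => hx _)
    have hB : box W n (fun i => x i.succ) y ∈ prodFil W U Y n (∑ i : Fin n, s i.succ) :=
      Submodule.subset_span ⟨_, fun i => s i.succ, y, fun i => hx _, le_refl _, rfl⟩
    rw [Fin.sum_univ_succ]
    change Up _ _ ((extHom W D LinearMap.id + extHom W LinearMap.id (dm W Y D n) :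
      W.H (X.prod (pX X Y n)) →ₗ[W.K] W.H (X.prod (pX X Y n)))
      (W.map (fst X (pX X Y n)) (x 0) * W.map (snd X (pX X Y n))
        (box W n (fun i => x i.succ) y)) - _ • (W.map (fst X (pX X Y n)) (x 0) *
          W.map (snd X (pX X Y n)) (box W n (fun i => x i.succ) y)))
    generalize box W n (fun i => x i.succ) y = B at ih hB
    rw [LinearMap.add_apply, extHom_tmul, extHom_tmul, LinearMap.id_apply, LinearMap.id_apply]
    have h1 : W.map (fst X (pX X Y n)) (D (x 0)) * W.map (snd X (pX X Y n)) B +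
        W.map (fst X (pX X Y n)) (x 0) * W.map (snd X (pX X Y n)) (dm W Y D n B) -
        ((φ (s 0 + ∑ i : Fin n, s i.succ) : ℚ) : W.K) •
          (W.map (fst X (pX X Y n)) (x 0) * W.map (snd X (pX X Y n)) B) =
        W.map (fst X (pX X Y n)) (D (x 0) - ((φ (s 0) : ℚ) : W.K) • x 0) *
          W.map (snd X (pX X Y n)) B +
        W.map (fst X (pX X Y n)) (x 0) * W.map (snd X (pX X Y n))
          (dm W Y D n B - ((φ (∑ i : Fin n, s i.succ) : ℚ) : W.K) • B) := by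
      rw [map_add φ, Rat.cast_add, add_smul, map_sub, map_smul, sub_mul, smul_mul_assoc, map_sub,
        map_smul, mul_sub, mul_smul_comm]
      abel
    rw [h1]
    refine Up.add (prodFil_anti (Y := Y) U (n + 1)) ?_ ?_
    · obtain ⟨t', ht, h2⟩ := hD (s 0) (x 0) (hx 0)
      exact ⟨t' + ∑ i : Fin n, s i.succ, by linarith, prodFil_ext h2 hB (le_refl _)⟩
    · obtain ⟨t', ht, h2⟩ := ih
      exact ⟨s 0 + t', by linarith, prodFil_ext (hx 0) h2 (le_refl _)⟩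

lemma dm_acts (hD : ActsBy U φ D) (n : ℕ) : ActsBy (prodFil W U Y n) φ (dm W Y D n) := by
  intro t x hx
  have hanti := prodFil_anti (Y := Y) U n
  induction hx using Submodule.span_induction with
  | mem x hx =>
    obtain ⟨x, s, y, hx, hs, rfl⟩ := hx
    obtain ⟨t', ht, h1⟩ := dm_box (Y := Y) hD n x s y hx
    change Up _ t (dm W Y D n (box W n x y) - ((φ t : ℚ) : W.K) • box W n x y)
    have h2 : dm W Y D n (box W n x y) - ((φ t : ℚ) : W.K) • box W n x y =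
        (dm W Y D n (box W n x y) - ((φ (∑ i, s i) : ℚ) : W.K) • box W n x y) +
        (((φ (∑ i, s i) : ℚ) : W.K) - ((φ t : ℚ) : W.K)) • box W n x y := by
      rw [sub_smul]
      abel
    rw [h2]
    refine Up.add hanti ⟨t', by linarith, h1⟩ ?_
    rcases hs.lt_or_eq with h3 | h3
    · exact Up.smul _ ⟨_, h3, Submodule.subset_span ⟨x, s, y, hx, le_refl _, rfl⟩⟩
    · rw [← h3, sub_self, zero_smul]
      exact Up.zero
  | zero =>
    rw [map_zero, smul_zero, sub_zero]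
    exact Up.zero
  | add a b _ _ ha hb =>
    have h1 : dm W Y D n (a + b) - ((φ t : ℚ) : W.K) • (a + b) =
        (dm W Y D n a - ((φ t : ℚ) : W.K) • a) + (dm W Y D n b - ((φ t : ℚ) : W.K) • b) := by
      rw [map_add, smul_add]
      abel
    rw [h1]
    exact Up.add hanti ha hb
  | smul c a _ ha =>
    have h1 : dm W Y D n (c • a) - ((φ t : ℚ) : W.K) • (c • a) =
        c • (dm W Y D n a - ((φ t : ℚ) : W.K) • a) := by
      rw [map_smul, smul_sub, smul_comm c]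
    rw [h1]
    exact Up.smul _ ha

end Acts

/-! ### Direct factors -/

/-- The cohomology of `V` is a direct factor, by rational algebraic correspondences, of a sum of
tensor products of copies of the factor of `H(X)` cut out by `π` and of one `H(Y)`, where `Y` is a
product of members of `𝒴`. -/
structure Fac (W : WeilCohomology.{u, v} ops) (X : 𝒱.Obj) (𝒴 : Set 𝒱.Obj)
    (π : W.H X →ₗ[W.K] W.H X) (V : 𝒱.Obj) where
  J : Type
  fin : Fintype J
  m : J → ℕ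
  Y : J → 𝒱.Obj
  hY : ∀ j, IsProductOf 𝒴 (Y j)
  d : J → ℤ
  a : ∀ j, W.H V →ₗ[W.K] W.H (pX X (Y j) (m j))
  b : ∀ j, W.H (pX X (Y j) (m j)) →ₗ[W.K] W.H V
  ha : ∀ j, QOp W V (pX X (Y j) (m j)) (d j) (a j)
  hb : ∀ j, QOp W (pX X (Y j) (m j)) V (-d j) (b j)
  hab : ∑ j, b j ∘ₗ a j = LinearMap.id
  hπa : ∀ j, tp W (Y j) π (m j) ∘ₗ a j = a j
  hπb : ∀ j, b j ∘ₗ tp W (Y j) π (m j) = b j

namespace Fac

variable {π : W.H X →ₗ[W.K] W.H X} (f : Fac W X 𝒴 π V)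

instance : Fintype f.J := f.fin

/-- The filtration of the cohomology of the direct factor. -/
noncomputable def F (U : ℝ → Submodule W.K (W.H X)) (t : ℝ) : Submodule W.K (W.H V) :=
  ⨅ j, (prodFil W U (f.Y j) (f.m j) t).comap (f.a j)

lemma mem_F {U : ℝ → Submodule W.K (W.H X)} {t : ℝ} {x : W.H V} :
    x ∈ f.F U t ↔ ∀ j, f.a j x ∈ prodFil W U (f.Y j) (f.m j) t := by
  rw [F, Submodule.mem_iInf]
  rfl

lemma sum_apply (x : W.H V) : ∑ j, f.b j (f.a j x) = x := by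
  have h1 := congrArg (fun G => G x) f.hab
  beta_reduce at h1
  rw [LinearMap.sum_apply] at h1
  exact h1

lemma cf {U : ℝ → Submodule W.K (W.H X)} {l : ℕ} (e : Module.Basis (Fin l) W.K (W.H X))
    {w : Fin l → ℝ} (A : Adapted U e w) : CF (f.F U) := by
  apply CF.inf (fun j => prodFil_cf e A (f.m j))
  intro x hx
  rw [← f.sum_apply x]
  exact Finset.sum_eq_zero fun j _ => by rw [hx j, map_zero]

variable {κ : W.H X →ₗ[W.K] W.H X} (hκ : IsSign W X κ)
    {U : ℝ → Submodule W.K (W.H X)} {N : ℕ} (hU : Good W X 𝒴 N U)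
    (hN : ∀ i j, f.m i + f.m j ≤ N)

include hκ hU hN in
lemma op_mem {i j : f.J} {d : ℤ} {φ : W.H (pX X (f.Y i) (f.m i)) →ₗ[W.K]
    W.H (pX X (f.Y j) (f.m j))} (hφ : φ ∈ KOp W _ _ d) {t : ℝ}
    {z : W.H (pX X (f.Y i) (f.m i))} (hz : z ∈ prodFil W U (f.Y i) (f.m i) t) :
    φ z ∈ prodFil W U (f.Y j) (f.m j) t := by
  obtain ⟨γ, hγ, rfl⟩ := mem_KOp_iff.1 hφ
  exact (corr_fil hκ hU (hN j i) (f.hY i) (f.hY j) hγ hz).1

include hκ hU hN in
lemma nt_up {i j : f.J} {d : ℤ} {φ : W.H (pX X (f.Y i) (f.m i)) →ₗ[W.K]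
    W.H (pX X (f.Y j) (f.m j))} (hφ : NTOp W _ _ d φ) {t : ℝ}
    {z : W.H (pX X (f.Y i) (f.m i))} (hz : z ∈ prodFil W U (f.Y i) (f.m i) t) :
    Up (prodFil W U (f.Y j) (f.m j)) t (φ z) := by
  obtain ⟨γ, hγ, hn, rfl⟩ := hφ
  exact (corr_fil hκ hU (hN j i) (f.hY i) (f.hY j) hγ hz).2 hn

include hκ hU hN in
lemma b_mem (j : f.J) (t : ℝ) : ∀ z ∈ prodFil W U (f.Y j) (f.m j) t, f.b j z ∈ f.F U t := by
  intro z hz
  rw [mem_F]
  intro i
  exact f.op_mem hκ hU hN (KOp.comp (f.ha i).kop (f.hb j).kop) hz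

include hκ hU hN in
/-- Algebraic operators preserve the filtration. -/
lemma kop_mem {d : ℤ} {φ : W.H V →ₗ[W.K] W.H V} (hφ : φ ∈ KOp W V V d) (t : ℝ) :
    ∀ x ∈ f.F U t, φ x ∈ f.F U t := by
  intro x hx
  have h1 : φ x = ∑ j, ∑ i, f.b i ((f.a i ∘ₗ φ ∘ₗ f.b j) (f.a j x)) := by
    conv_lhs => rw [← f.sum_apply x, map_sum]
    refine Finset.sum_congr rfl fun j _ => ?_
    exact (f.sum_apply _).symm
  rw [h1]
  rw [mem_F] at hx
  refine Submodule.sum_mem _ fun j _ => Submodule.sum_mem _ fun i _ => ?_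
  exact f.b_mem hκ hU hN i t _ (f.op_mem hκ hU hN
    (KOp.comp (f.ha i).kop (KOp.comp hφ (f.hb j).kop)) (hx j))

include hκ hU hN in
/-- Numerically trivial operators raise the weights. -/
lemma nt_raise {d : ℤ} {φ : W.H V →ₗ[W.K] W.H V} (hφ : NTOp W V V d φ) (hcf : CF (f.F U))
    (t : ℝ) : ∀ x ∈ f.F U t, Up (f.F U) t (φ x) := by
  intro x hx
  have h1 : φ x = ∑ j, ∑ i, f.b i ((f.a i ∘ₗ φ ∘ₗ f.b j) (f.a j x)) := by
    conv_lhs => rw [← f.sum_apply x, map_sum]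
    refine Finset.sum_congr rfl fun j _ => ?_
    exact (f.sum_apply _).symm
  rw [h1]
  rw [mem_F] at hx
  refine Up.sum hcf.anti fun j _ => Up.sum hcf.anti fun i _ => ?_
  exact Up.map (f.b_mem hκ hU hN i) (f.nt_up hκ hU hN
    (NTOp.comp_left (f.ha i).kop (NTOp.comp_right hφ (f.hb j).kop)) (hx j))

/-- The operator of the factor attached to an operator on `H(X)`. -/
noncomputable def R (D : W.H X →ₗ[W.K] W.H X) : W.H V →ₗ[W.K] W.H V :=
  ∑ j, f.b j ∘ₗ dm W (f.Y j) D (f.m j) ∘ₗ f.a j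

lemma R_apply (D : W.H X →ₗ[W.K] W.H X) (x : W.H V) :
    f.R D x = ∑ j, f.b j (dm W (f.Y j) D (f.m j) (f.a j x)) := by
  rw [R, LinearMap.sum_apply]
  rfl

include hκ hU hN in
lemma R_acts {φ : ℝ →+ ℚ} {D : W.H X →ₗ[W.K] W.H X} (hD : ActsBy U φ D) (hcf : CF (f.F U)) :
    ActsBy (f.F U) φ (f.R D) := by
  intro t x hx
  have h1 : f.R D x - ((φ t : ℚ) : W.K) • x =
      ∑ j, f.b j (dm W (f.Y j) D (f.m j) (f.a j x) - ((φ t : ℚ) : W.K) • f.a j x) := by
    have h2 : ((φ t : ℚ) : W.K) • x = ∑ j, f.b j (((φ t : ℚ) : W.K) • f.a j x) := by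
      rw [Finset.sum_congr rfl (fun j _ => map_smul (f.b j) _ _), ← Finset.smul_sum,
        f.sum_apply]
    rw [R_apply, h2, ← Finset.sum_sub_distrib]
    refine Finset.sum_congr rfl fun j _ => ?_
    rw [map_sub]
  rw [h1]
  rw [mem_F] at hx
  refine Up.sum hcf.anti fun j _ => ?_
  exact Up.map (f.b_mem hκ hU hN j) (dm_acts hD _ t _ (hx j))

/-- **The trace of the operators of the factor, in terms of `X`.** -/
lemma exists_z (hπ : π ∘ₗ π = π) (hπ0 : IsHom (W.gr X) 0 π) {y : W.H V →ₗ[W.K] W.H V}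
    (hy : y ∈ KOp W V V 0) :
    ∃ z ∈ KOp W X X 0, ∀ D : W.H X →ₗ[W.K] W.H X, IsHom (W.gr X) 0 D →
      str W V (y ∘ₗ f.R D) = str W X (z ∘ₗ (π ∘ₗ D ∘ₗ π)) := by
  have h1 : ∀ j, ∃ z ∈ KOp W X X 0, ∀ D : W.H X →ₗ[W.K] W.H X, IsHom (W.gr X) 0 D →
      str W X (z ∘ₗ D) = str W (pX X (f.Y j) (f.m j))
        ((f.a j ∘ₗ y ∘ₗ f.b j) ∘ₗ dm W (f.Y j) D (f.m j)) := by
    intro j
    apply exists_ptr
    have h2 := KOp.comp (f.ha j).kop (KOp.comp hy (f.hb j).kop)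
    rwa [show -f.d j + 0 + f.d j = 0 by ring] at h2
  choose z hz h using h1
  refine ⟨∑ j, z j, Submodule.sum_mem _ fun j _ => hz j, fun D hD => ?_⟩
  have hD' : IsHom (W.gr X) 0 (π ∘ₗ D ∘ₗ π) := by
    intro i a ha
    have h2 := hπ0 i a ha
    have h3 := hD _ _ h2
    have h4 := hπ0 _ _ h3
    rwa [add_zero, add_zero] at h4
  have e1 : f.R D = ∑ j, f.b j ∘ₗ dm W (f.Y j) (π ∘ₗ D ∘ₗ π) (f.m j) ∘ₗ f.a j := by
    rw [R]
    refine Finset.sum_congr rfl fun j _ => ?_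
    have h2 := tp_dm (W := W) (Y := f.Y j) hπ D (f.m j)
    calc f.b j ∘ₗ dm W (f.Y j) D (f.m j) ∘ₗ f.a j
        = (f.b j ∘ₗ tp W (f.Y j) π (f.m j)) ∘ₗ dm W (f.Y j) D (f.m j) ∘ₗ
            (tp W (f.Y j) π (f.m j) ∘ₗ f.a j) := by rw [f.hπa, f.hπb]
      _ = f.b j ∘ₗ (tp W (f.Y j) π (f.m j) ∘ₗ dm W (f.Y j) D (f.m j) ∘ₗ
            tp W (f.Y j) π (f.m j)) ∘ₗ f.a j := rfl
      _ = f.b j ∘ₗ (tp W (f.Y j) π (f.m j) ∘ₗ dm W (f.Y j) (π ∘ₗ D ∘ₗ π) (f.m j) ∘ₗ
            tp W (f.Y j) π (f.m j)) ∘ₗ f.a j := by rw [h2]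
      _ = (f.b j ∘ₗ tp W (f.Y j) π (f.m j)) ∘ₗ dm W (f.Y j) (π ∘ₗ D ∘ₗ π) (f.m j) ∘ₗ
            (tp W (f.Y j) π (f.m j) ∘ₗ f.a j) := rfl
      _ = f.b j ∘ₗ dm W (f.Y j) (π ∘ₗ D ∘ₗ π) (f.m j) ∘ₗ f.a j := by rw [f.hπa, f.hπb]
  have e2 : y ∘ₗ f.R D = ∑ j, (y ∘ₗ f.b j ∘ₗ dm W (f.Y j) (π ∘ₗ D ∘ₗ π) (f.m j)) ∘ₗ f.a j := by
    rw [e1]
    apply LinearMap.ext
    intro x
    rw [LinearMap.comp_apply, LinearMap.sum_apply, LinearMap.sum_apply, map_sum]
    rfl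
  have e3 : (∑ j, z j) ∘ₗ (π ∘ₗ D ∘ₗ π) = ∑ j, z j ∘ₗ (π ∘ₗ D ∘ₗ π) := by
    apply LinearMap.ext
    intro x
    rw [LinearMap.comp_apply, LinearMap.sum_apply, LinearMap.sum_apply]
    rfl
  rw [e2, e3, str_sum, str_sum]
  refine Finset.sum_congr rfl fun j _ => ?_
  rw [str_comm (f.ha j).kop, h j _ hD']
  rfl

/-- The trace of the operators of the factor: the families. -/
lemma R_family {L : Type w} [Field L] {Φ : (L →+* W.K) → (W.H X →ₗ[W.K] W.H X)}
    (hΦ : Φ ∈ LFam L W X X 0) : (fun τ => f.R (Φ τ)) ∈ LFam L W V V 0 := by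
  have key : ∀ (m : ℕ) (Y : 𝒱.Obj), (fun τ => dm W Y (Φ τ) m) ∈
      LFam L W (pX X Y m) (pX X Y m) 0 := by
    intro m Y
    induction m with
    | zero => exact LFam.rat (QOp.zero 0)
    | succ m ih =>
      have h1 := LFam.ext hΦ (LFam.rat (L := L) (qop_id (W := W) (pX X Y m)))
      have h2 := LFam.ext (LFam.rat (L := L) (qop_id (W := W) X)) ih
      exact LFam.add (LFam.cast h1 (add_zero 0)) (LFam.cast h2 (add_zero 0))
  have h1 : (fun τ => f.R (Φ τ)) = fun τ => ∑ j, f.b j ∘ₗ dm W (f.Y j) (Φ τ) (f.m j) ∘ₗ f.a j := rfl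
  rw [h1]
  refine LFam.sum (L := L) (Φ := fun j τ => f.b j ∘ₗ dm W (f.Y j) (Φ τ) (f.m j) ∘ₗ f.a j)
    fun j _ => ?_
  exact LFam.cast (LFam.comp (LFam.rat (f.hb j)) (LFam.comp (key (f.m j) (f.Y j))
    (LFam.rat (f.ha j)))) (by ring)

end Fac

end Pool.Agent.V5helper85.AB
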